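import Pool.Agent.Lib.MP_a17b09_nt.UW.Unw64
import Pool.Agent.Lib.MP_a17b09_nt.MRSG.SplG7

/-!
MP_a17b09_nt, unweighted corollary with exponent `log 2 + ε` (helper64), every discriminant that
is not a square.
-/

set_option autoImplicit false

open Filter Topology Finset

namespace Pool.Agent.Lib.MP_a17b09_nt.UW.U64

open Pool.Agent.Lib.MP_a17b09_nt.MRSG.NugA12 (kro)
open Pool.Agent.Lib.MP_a17b09_nt.CH (pairCount)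

open Classical in
theorem unwD (a b c : ℤ) (ha : 0 < a) (hsq : ¬ IsSquare (b ^ 2 - 4 * a * c)) (h t₀ : ℕ)
    (α β : ℝ) (hα : 0 < α) (hαβ : α < β) (P : ℕ → ℕ → Prop) {η : ℝ} (hη : 0 < η)
    (hpair : ∀ᶠ N : ℕ in atTop, η * N ≤ pairCount a b c h t₀ α β P N) {ε : ℝ} (hε : 0 < ε) :
    ∀ᶠ N : ℕ in atTop, (N : ℝ) / Real.log N ^ (Real.log 2 + ε) ≤
      (((Finset.Icc 1 N).filter (fun t : ℕ => t ≡ t₀ [MOD h] ∧ ∃ d : ℕ,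
        (d : ℤ) ∣ a * (t : ℤ) ^ 2 + b * t + c ∧ α * t ≤ d ∧ d ≤ β * t ∧ P t d)).card : ℝ) := by
  haveI : NeZero (b ^ 2 - 4 * a * c) := ⟨fun h0 => hsq (h0 ▸ ⟨0, by simp⟩)⟩
  exact unw64 a b c ha hsq (MRSG.kro_ne_7 _ hsq) h t₀ α β hα hαβ P hη hpair hε

open Classical in
/-- property of `t` alone -/
theorem unwQ (a b c : ℤ) (ha : 0 < a) (hsq : ¬ IsSquare (b ^ 2 - 4 * a * c)) (h t₀ : ℕ)
    (α β : ℝ) (hα : 0 < α) (hαβ : α < β) (Q : ℕ → Prop) {η : ℝ} (hη : 0 < η)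
    (hpair : ∀ᶠ N : ℕ in atTop, η * N ≤ pairCount a b c h t₀ α β (fun t _ => Q t) N) {ε : ℝ}
    (hε : 0 < ε) :
    ∀ᶠ N : ℕ in atTop, (N : ℝ) / Real.log N ^ (Real.log 2 + ε) ≤
      (((Finset.Icc 1 N).filter (fun t : ℕ => t ≡ t₀ [MOD h] ∧ Q t)).card : ℝ) := by
  filter_upwards [unwD a b c ha hsq h t₀ α β hα hαβ (fun t _ => Q t) hη hpair hε] with N hN
  refine hN.trans ?_
  have h1 : (Finset.Icc 1 N).filter (fun t : ℕ => t ≡ t₀ [MOD h] ∧ ∃ d : ℕ,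
      (d : ℤ) ∣ a * (t : ℤ) ^ 2 + b * t + c ∧ α * t ≤ d ∧ d ≤ β * t ∧ Q t) ⊆
      (Finset.Icc 1 N).filter (fun t : ℕ => t ≡ t₀ [MOD h] ∧ Q t) := by
    intro t ht
    rw [Finset.mem_filter] at ht ⊢
    obtain ⟨h1, h2, d, h3⟩ := ht
    exact ⟨h1, h2, h3.2.2.2⟩
  exact_mod_cast Finset.card_le_card h1

end Pool.Agent.Lib.MP_a17b09_nt.UW.U64
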