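import Pool.Agent.Lib.MP_a17b09_nt.MRS.EndK90
import Pool.Agent.Lib.MP_a17b09_nt.UW.UnwC64

/-!
MP_a17b09_nt: the text of the hand-in NearDivisors from `Joint` (helper64).
-/

set_option autoImplicit false

open Filter Topology

namespace Pool.Agent.Lib.MP_a17b09_nt.UW.U64

open Pool.Agent.Lib.MP_a17b09_nt.CH (Joint LogNull pairCount)

/-- the final text -/
theorem fin64 (a b c : ℤ) (ha : 0 < a) (hD : ¬ IsSquare (b ^ 2 - 4 * a * c)) (h t₀ : ℕ)
    (α β : ℝ) (hα : 0 < α) (hαβ : α < β) (hJ : Joint a b c h t₀ α β) :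
    ∃ κ : ℝ, 0 < κ ∧
      Tendsto (fun N : ℕ => (pairCount a b c h t₀ α β (fun _ _ => True) N : ℝ) / N) atTop
        (𝓝 κ) ∧
      ∀ k : ℕ, 0 < k →
        (∀ r s : ℕ,
          (∀ ε : ℝ, 0 < ε → LogNull {N : ℕ | ε * N <
            |(pairCount a b c h t₀ α β (fun t d => ArithmeticFunction.cardFactors d ≡ r [MOD k] ∧
              ArithmeticFunction.cardFactors ((a * (t : ℤ) ^ 2 + b * t + c).natAbs / d) ≡ s
                [MOD k]) N : ℝ) - κ / k ^ 2 * N|}) ∧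
          (∃ c' : ℝ, 0 < c' ∧ ∀ᶠ N : ℕ in atTop, c' * N ≤
            (pairCount a b c h t₀ α β (fun t d => ArithmeticFunction.cardFactors d ≡ r [MOD k] ∧
              ArithmeticFunction.cardFactors ((a * (t : ℤ) ^ 2 + b * t + c).natAbs / d) ≡ s
                [MOD k]) N : ℝ)) ∧
          ∀ ε : ℝ, 0 < ε → ∀ᶠ N : ℕ in atTop, (N : ℝ) / Real.log N ^ (Real.log 2 + ε) ≤
            (Set.ncard {t : ℕ | 1 ≤ t ∧ t ≤ N ∧ t ≡ t₀ [MOD h] ∧ ∃ d : ℕ,
              (d : ℤ) ∣ a * (t : ℤ) ^ 2 + b * t + c ∧ α * t ≤ d ∧ d ≤ β * t ∧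
              ArithmeticFunction.cardFactors d ≡ r [MOD k] ∧
              ArithmeticFunction.cardFactors ((a * (t : ℤ) ^ 2 + b * t + c).natAbs / d) ≡ s
                [MOD k]} : ℝ)) ∧
        ∀ r : ℕ, ∀ ε : ℝ, 0 < ε → LogNull {N : ℕ | ε * N <
          |(pairCount a b c h t₀ α β (fun t _ =>
            ArithmeticFunction.cardFactors (a * (t : ℤ) ^ 2 + b * t + c).natAbs ≡ r [MOD k]) N : ℝ)
            - κ / k * N|} := by
  classical
  obtain ⟨κ, hκ, h1, hJ⟩ := hJ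
  have key : ∀ (F : ℕ → ℕ) (x ε : ℝ), F 0 = 0 →
      LogNull {N : ℕ | ε < |(F N : ℝ) / N - x|} →
      LogNull {N : ℕ | ε * N < |(F N : ℝ) - x * N|} := by
    intro F x ε h0 hF
    refine Lib.MP_a17b09_nt.CH.EndS.LogNull.mono hF fun N hN => ?_
    simp only [Set.mem_ofPred_eq] at hN ⊢
    rcases Nat.eq_zero_or_pos N with hN0 | hN0
    · subst hN0
      simp [h0] at hN
    · have hNp : (0 : ℝ) < N := by exact_mod_cast hN0
      have e3 : (F N : ℝ) / N - x = ((F N : ℝ) - x * N) / N := by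
        field_simp
      rw [e3, abs_div, Nat.abs_cast, lt_div_iff₀ hNp]
      exact hN
  have z0 : ∀ P : ℕ → ℕ → Prop, pairCount a b c h t₀ α β P 0 = 0 := by
    intro P
    unfold pairCount
    simp
  refine ⟨κ, hκ, h1, fun k hk => ⟨fun r s => ?_, fun r ε hε => ?_⟩⟩
  · obtain ⟨hr1, ⟨η, hη, hr2⟩, -⟩ := (hJ k hk).1 r s
    refine ⟨fun ε hε => key _ _ ε (z0 _) (hr1 ε hε), ⟨η, hη, hr2⟩, fun ε hε => ?_⟩
    filter_upwards [UW.U64.unwD a b c ha hD h t₀ α β hα hαβ _ hη hr2 hε] with N hN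
    refine hN.trans (le_of_eq ?_)
    rw [← Set.ncard_coe_finset]
    congr 2
    ext t
    simp only [Finset.coe_filter, Finset.mem_Icc, Set.mem_ofPred_eq, and_assoc]
  · exact key _ _ ε (z0 _) (((hJ k hk).2 r).1 ε hε)

end Pool.Agent.Lib.MP_a17b09_nt.UW.U64
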