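import Mathlib

/-!
MP_a17b09_nt, unweighted corollary (helper3): an upper bound of Hall-Tenenbaum type for sums of
nonnegative submultiplicative functions.
-/

set_option autoImplicit false

open Finset

namespace Pool.Agent.Lib.MP_a17b09_nt.UW

/-- nonnegative, submultiplicative on coprime arguments -/
structure Sub (h : ℕ → ℝ) : Prop where
  nonneg : ∀ n, 0 ≤ h n
  one : h 1 ≤ 1
  mul : ∀ m n, 0 < m → 0 < n → Nat.Coprime m n → h (m * n) ≤ h m * h n

open Classical in
/-- the integers up to `X` all of whose prime factors lie in `P` -/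
noncomputable def NP (P : Finset ℕ) (X : ℕ) : Finset ℕ :=
  (Finset.Icc 1 X).filter (fun n => ∀ p, p.Prime → p ∣ n → p ∈ P)

theorem mem_NP {P : Finset ℕ} {X n : ℕ} :
    n ∈ NP P X ↔ (1 ≤ n ∧ n ≤ X) ∧ ∀ p, p.Prime → p ∣ n → p ∈ P := by
  classical
  unfold NP
  rw [Finset.mem_filter, Finset.mem_Icc]

theorem euler {h : ℕ → ℝ} (hs : Sub h) (X : ℕ) (P : Finset ℕ) (hP : ∀ p ∈ P, p.Prime) :
    ∑ n ∈ NP P X, h n / n ≤ ∏ p ∈ P, (1 + ∑ v ∈ Finset.Icc 1 X, h (p ^ v) / (p : ℝ) ^ v) := by
  classical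
  induction P using Finset.induction_on with
  | empty =>
    have h1 : NP ∅ X ⊆ {1} := by
      intro n hn
      rw [mem_NP] at hn
      rw [Finset.mem_singleton]
      by_contra hne
      obtain ⟨p, hp, hpn⟩ := Nat.exists_prime_and_dvd hne
      exact absurd (hn.2 p hp hpn) (Finset.notMem_empty _)
    calc ∑ n ∈ NP ∅ X, h n / n ≤ ∑ n ∈ ({1} : Finset ℕ), h n / n :=
          Finset.sum_le_sum_of_subset_of_nonneg h1
            (fun n _ _ => div_nonneg (hs.nonneg n) (Nat.cast_nonneg n))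
      _ ≤ _ := by
          rw [Finset.sum_singleton, Finset.prod_empty, Nat.cast_one, div_one]
          exact hs.one
  | insert q P hq ih =>
    have hqp : q.Prime := hP q (Finset.mem_insert_self _ _)
    have ih' := ih (fun p hp => hP p (Finset.mem_insert_of_mem hp))
    rw [Finset.prod_insert hq]
    set L : ℝ := ∑ n ∈ NP P X, h n / n with hL
    have hL0 : 0 ≤ L := Finset.sum_nonneg fun n _ => div_nonneg (hs.nonneg n) (Nat.cast_nonneg n)
    have hq0 : (0 : ℝ) < q := by exact_mod_cast hqp.pos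
    have hA0 : 0 ≤ ∑ v ∈ Finset.Icc 1 X, h (q ^ v) / (q : ℝ) ^ v :=
      Finset.sum_nonneg fun v _ => div_nonneg (hs.nonneg _) (by positivity)
    have hrange : ∑ v ∈ Finset.range (X + 1), h (q ^ v) / (q : ℝ) ^ v ≤
        1 + ∑ v ∈ Finset.Icc 1 X, h (q ^ v) / (q : ℝ) ^ v := by
      rw [Finset.sum_range_succ', add_comm, pow_zero, pow_zero, div_one]
      have h1 : ∑ k ∈ Finset.range X, h (q ^ (k + 1)) / (q : ℝ) ^ (k + 1) =
          ∑ v ∈ Finset.Icc 1 X, h (q ^ v) / (q : ℝ) ^ v := by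
        rw [← Finset.Ico_add_one_right_eq_Icc, Finset.sum_Ico_eq_sum_range]
        refine Finset.sum_congr (by congr 1) fun k _ => ?_
        rw [add_comm k 1]
      rw [h1]
      linarith [hs.one]
    have key : ∑ n ∈ NP (insert q P) X, h n / n ≤
        (∑ v ∈ Finset.range (X + 1), h (q ^ v) / (q : ℝ) ^ v) * L := by
      rw [hL, Finset.sum_mul_sum, ← Finset.sum_product']
      have hinj : Set.InjOn (fun n : ℕ => (n.factorization q, n / q ^ n.factorization q))
          (NP (insert q P) X) := by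
        intro n _ n' _ heq
        have e1 : n.factorization q = n'.factorization q := congrArg Prod.fst heq
        have e2 : n / q ^ n.factorization q = n' / q ^ n'.factorization q := congrArg Prod.snd heq
        have f1 := Nat.ordProj_mul_ordCompl_eq_self n q
        have f2 := Nat.ordProj_mul_ordCompl_eq_self n' q
        rw [← f1, ← f2, e2, e1]
      have hmaps : ∀ n ∈ NP (insert q P) X, (n.factorization q, n / q ^ n.factorization q) ∈
          Finset.range (X + 1) ×ˢ NP P X := by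
        intro n hn
        rw [mem_NP] at hn
        have hn0 : n ≠ 0 := by omega
        rw [Finset.mem_product, Finset.mem_range, mem_NP]
        refine ⟨?_, ⟨?_, ?_⟩, ?_⟩
        · have := Nat.factorization_lt q hn0
          omega
        · exact Nat.ordCompl_pos q hn0
        · exact (Nat.div_le_self _ _).trans hn.1.2
        · intro p hp hpm
          have h1 : p ∣ n := hpm.trans (Nat.ordCompl_dvd n q)
          have h2 := hn.2 p hp h1
          rw [Finset.mem_insert] at h2
          rcases h2 with h2 | h2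
          · exfalso
            rw [h2] at hpm
            exact Nat.not_dvd_ordCompl hqp hn0 hpm
          · exact h2
      calc ∑ n ∈ NP (insert q P) X, h n / n
          ≤ ∑ n ∈ NP (insert q P) X, (fun x : ℕ × ℕ => h (q ^ x.1) / (q : ℝ) ^ x.1 *
              (h x.2 / (x.2 : ℝ))) (n.factorization q, n / q ^ n.factorization q) := by
            refine Finset.sum_le_sum fun n hn => ?_
            rw [mem_NP] at hn
            have hn0 : n ≠ 0 := by omega
            have f1 := Nat.ordProj_mul_ordCompl_eq_self n q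
            have hm0 : 0 < n / q ^ n.factorization q := Nat.ordCompl_pos q hn0
            have hmul := hs.mul (q ^ n.factorization q) (n / q ^ n.factorization q)
              (pow_pos hqp.pos _) hm0 ((Nat.coprime_ordCompl hqp hn0).pow_left _)
            rw [f1] at hmul
            have hcast : (n : ℝ) = (q : ℝ) ^ n.factorization q *
                ((n / q ^ n.factorization q : ℕ) : ℝ) := by
              rw [← Nat.cast_pow, ← Nat.cast_mul, f1]
            show h n / n ≤ h (q ^ n.factorization q) / (q : ℝ) ^ n.factorization q *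
              (h (n / q ^ n.factorization q) / ((n / q ^ n.factorization q : ℕ) : ℝ))
            rw [div_mul_div_comm, ← hcast]
            exact div_le_div_of_nonneg_right hmul (Nat.cast_nonneg n)
        _ = ∑ x ∈ (NP (insert q P) X).image
              (fun n : ℕ => (n.factorization q, n / q ^ n.factorization q)),
              (h (q ^ x.1) / (q : ℝ) ^ x.1 * (h x.2 / (x.2 : ℝ))) := by
            rw [Finset.sum_image hinj]
        _ ≤ ∑ x ∈ Finset.range (X + 1) ×ˢ NP P X,
              (h (q ^ x.1) / (q : ℝ) ^ x.1 * (h x.2 / (x.2 : ℝ))) := by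
            refine Finset.sum_le_sum_of_subset_of_nonneg ?_ (fun x _ _ => ?_)
            · intro x hx
              rw [Finset.mem_image] at hx
              obtain ⟨n, hn, rfl⟩ := hx
              exact hmaps n hn
            · exact mul_nonneg (div_nonneg (hs.nonneg _) (by positivity))
                (div_nonneg (hs.nonneg _) (Nat.cast_nonneg _))
    calc ∑ n ∈ NP (insert q P) X, h n / n
        ≤ (∑ v ∈ Finset.range (X + 1), h (q ^ v) / (q : ℝ) ^ v) * L := key
      _ ≤ (1 + ∑ v ∈ Finset.Icc 1 X, h (q ^ v) / (q : ℝ) ^ v) *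
          ∏ p ∈ P, (1 + ∑ v ∈ Finset.Icc 1 X, h (p ^ v) / (p : ℝ) ^ v) :=
          mul_le_mul hrange ih' hL0 (by linarith)

theorem euler_all {h : ℕ → ℝ} (hs : Sub h) (X : ℕ) :
    ∑ n ∈ Finset.Icc 1 X, h n / n ≤ ∏ p ∈ (Finset.Icc 1 X).filter Nat.Prime,
      (1 + ∑ v ∈ Finset.Icc 1 X, h (p ^ v) / (p : ℝ) ^ v) := by
  have h1 : Finset.Icc 1 X = NP ((Finset.Icc 1 X).filter Nat.Prime) X := by
    ext n
    rw [mem_NP, Finset.mem_Icc]
    refine ⟨fun hn => ⟨hn, fun p hp hpn => ?_⟩, fun hn => hn.1⟩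
    rw [Finset.mem_filter, Finset.mem_Icc]
    exact ⟨⟨hp.one_lt.le, (Nat.le_of_dvd (by omega) hpn).trans hn.2⟩, hp⟩
  conv_lhs => rw [h1]
  exact euler hs X _ (fun p hp => (Finset.mem_filter.1 hp).2)

/-- prime powers up to `Y` -/
def PP (Y : ℕ) : Finset (ℕ × ℕ) :=
  (Finset.Icc 1 Y ×ˢ Finset.Icc 1 Y).filter (fun x => x.1.Prime ∧ x.1 ^ x.2 ≤ Y)

theorem log_fact {n : ℕ} (hn : n ≠ 0) :
    Real.log n = ∑ p ∈ n.primeFactors, Real.log ((p : ℝ) ^ n.factorization p) := by
  conv_lhs => rw [← Nat.prod_factorization_pow_eq_self hn]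
  rw [Finsupp.prod, Nat.support_factorization, Nat.cast_prod, Real.log_prod]
  · refine Finset.sum_congr rfl fun p _ => ?_
    rw [Nat.cast_pow]
  · intro p hp
    have := (Nat.prime_of_mem_primeFactors hp).pos
    rw [Nat.cast_pow]
    positivity

theorem sum_log {h : ℕ → ℝ} (hs : Sub h) (X : ℕ) :
    ∑ n ∈ Finset.Icc 1 X, h n * Real.log n ≤
      ∑ m ∈ Finset.Icc 1 X, h m * ∑ x ∈ PP (X / m), h (x.1 ^ x.2) * Real.log ((x.1 : ℝ) ^ x.2) := by
  classical
  have h1 : ∑ n ∈ Finset.Icc 1 X, h n * Real.log n = ∑ y ∈ (Finset.Icc 1 X).sigma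
      (fun n => n.primeFactors), h y.1 * Real.log ((y.2 : ℝ) ^ (y.1).factorization y.2) := by
    rw [Finset.sum_sigma]
    refine Finset.sum_congr rfl fun n hn => ?_
    rw [Finset.mem_Icc] at hn
    rw [log_fact (by omega), Finset.mul_sum]
  have h2 : ∑ m ∈ Finset.Icc 1 X, h m * ∑ x ∈ PP (X / m), h (x.1 ^ x.2) *
      Real.log ((x.1 : ℝ) ^ x.2) = ∑ y ∈ (Finset.Icc 1 X).sigma (fun m => PP (X / m)),
      h y.1 * (h (y.2.1 ^ y.2.2) * Real.log ((y.2.1 : ℝ) ^ y.2.2)) := by
    rw [Finset.sum_sigma]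
    refine Finset.sum_congr rfl fun n _ => ?_
    rw [Finset.mul_sum]
  rw [h1, h2]
  set F : (Σ _ : ℕ, ℕ) → (Σ _ : ℕ, ℕ × ℕ) := fun y =>
    ⟨y.1 / y.2 ^ (y.1).factorization y.2, (y.2, (y.1).factorization y.2)⟩ with hF
  have hinj : Set.InjOn F ((Finset.Icc 1 X).sigma (fun n => n.primeFactors)) := by
    rintro ⟨n, p⟩ _ ⟨n', p'⟩ _ heq
    simp only [hF, Sigma.mk.injEq, heq_eq_eq, Prod.mk.injEq] at heq
    obtain ⟨e1, e2, e3⟩ := heq
    subst e2
    have f1 := Nat.ordProj_mul_ordCompl_eq_self n p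
    have f2 := Nat.ordProj_mul_ordCompl_eq_self n' p
    rw [e1, e3] at f1
    have : n = n' := f1.symm.trans f2
    rw [this]
  have hmaps : ∀ y ∈ (Finset.Icc 1 X).sigma (fun n => n.primeFactors),
      F y ∈ (Finset.Icc 1 X).sigma (fun m => PP (X / m)) := by
    rintro ⟨n, p⟩ hy
    rw [Finset.mem_sigma, Finset.mem_Icc] at hy
    obtain ⟨⟨hn1, hnX⟩, hpn⟩ := hy
    simp only at hn1 hnX hpn
    have hp := Nat.prime_of_mem_primeFactors hpn
    have hdvd := Nat.dvd_of_mem_primeFactors hpn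
    have hn0 : n ≠ 0 := by omega
    have hv : 1 ≤ n.factorization p := (hp.factorization_pos_of_dvd hn0 hdvd)
    have hm : 0 < n / p ^ n.factorization p := Nat.ordCompl_pos p hn0
    have f1 := Nat.ordProj_mul_ordCompl_eq_self n p
    have hle : p ^ n.factorization p ≤ X / (n / p ^ n.factorization p) := by
      rw [Nat.le_div_iff_mul_le hm, f1]
      exact hnX
    rw [Finset.mem_sigma, Finset.mem_Icc]
    refine ⟨⟨hm, (Nat.div_le_self _ _).trans hnX⟩, ?_⟩
    simp only [hF, PP]
    rw [Finset.mem_filter, Finset.mem_product, Finset.mem_Icc, Finset.mem_Icc]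
    refine ⟨⟨⟨hp.one_lt.le, ?_⟩, ⟨hv, ?_⟩⟩, hp, hle⟩
    · exact (Nat.le_self_pow (by omega) p).trans hle
    · exact ((Nat.lt_pow_self hp.one_lt).le).trans hle
  calc ∑ y ∈ (Finset.Icc 1 X).sigma (fun n => n.primeFactors),
        h y.1 * Real.log ((y.2 : ℝ) ^ (y.1).factorization y.2)
      ≤ ∑ y ∈ (Finset.Icc 1 X).sigma (fun n => n.primeFactors),
        (fun w : (Σ _ : ℕ, ℕ × ℕ) => h w.1 * (h (w.2.1 ^ w.2.2) * Real.log ((w.2.1 : ℝ) ^ w.2.2)))
          (F y) := by
        refine Finset.sum_le_sum ?_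
        rintro ⟨n, p⟩ hy
        rw [Finset.mem_sigma, Finset.mem_Icc] at hy
        obtain ⟨⟨hn1, hnX⟩, hpn⟩ := hy
        simp only at hn1 hnX hpn
        have hp := Nat.prime_of_mem_primeFactors hpn
        have hn0 : n ≠ 0 := by omega
        have f1 := Nat.ordProj_mul_ordCompl_eq_self n p
        have hm0 : 0 < n / p ^ n.factorization p := Nat.ordCompl_pos p hn0
        have hmul := hs.mul (p ^ n.factorization p) (n / p ^ n.factorization p)
          (pow_pos hp.pos _) hm0 ((Nat.coprime_ordCompl hp hn0).pow_left _)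
        rw [f1] at hmul
        have hlog : 0 ≤ Real.log ((p : ℝ) ^ n.factorization p) := by
          apply Real.log_nonneg
          have : (1 : ℝ) ≤ p := by exact_mod_cast hp.one_lt.le
          exact one_le_pow₀ this
        show h n * Real.log ((p : ℝ) ^ n.factorization p) ≤
          h (n / p ^ n.factorization p) * (h (p ^ n.factorization p) *
            Real.log ((p : ℝ) ^ n.factorization p))
        rw [← mul_assoc, mul_comm (h (n / p ^ n.factorization p))]
        exact mul_le_mul_of_nonneg_right hmul hlog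
    _ = ∑ w ∈ ((Finset.Icc 1 X).sigma (fun n => n.primeFactors)).image F,
        (h w.1 * (h (w.2.1 ^ w.2.2) * Real.log ((w.2.1 : ℝ) ^ w.2.2))) := by
        rw [Finset.sum_image hinj]
    _ ≤ _ := by
        refine Finset.sum_le_sum_of_subset_of_nonneg ?_ ?_
        · intro w hw
          rw [Finset.mem_image] at hw
          obtain ⟨y, hy, rfl⟩ := hw
          exact hmaps y hy
        · rintro ⟨m, p, v⟩ hw _
          rw [Finset.mem_sigma] at hw
          have hw2 := hw.2
          simp only [PP] at hw2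
          rw [Finset.mem_filter] at hw2
          have hp : p.Prime := hw2.2.1
          have : (1 : ℝ) ≤ p := by exact_mod_cast hp.one_lt.le
          exact mul_nonneg (hs.nonneg _) (mul_nonneg (hs.nonneg _)
            (Real.log_nonneg (one_le_pow₀ this)))

/-- the sum over prime powers with weight `v + 1` -/
theorem pp_bound (Y : ℕ) :
    ∑ x ∈ PP Y, ((x.2 : ℝ) + 1) * Real.log ((x.1 : ℝ) ^ x.2) ≤ 1000 * Y := by
  classical
  rcases Nat.eq_zero_or_pos Y with h0 | hY
  · subst h0
    have : PP 0 = ∅ := by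
      unfold PP
      simp
    rw [this]
    simp
  have hYR : (1 : ℝ) ≤ Y := by exact_mod_cast hY
  have hlogY : 0 ≤ Real.log Y := Real.log_nonneg hYR
  have hL6 : Real.log Y ≤ 6 * (Y : ℝ) ^ (1 / 6 : ℝ) := by
    have := Real.log_le_rpow_div (by linarith : (0 : ℝ) ≤ Y) (by norm_num : (0 : ℝ) < 1 / 6)
    linarith
  have hsplit : PP Y = (PP Y).filter (fun x => x.2 = 1) ∪ (PP Y).filter (fun x => ¬ x.2 = 1) :=
    (Finset.filter_union_filter_not_eq _ _).symm
  rw [hsplit, Finset.sum_union (Finset.disjoint_filter_filter_not _ _ _)]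
  have hA : ∑ x ∈ (PP Y).filter (fun x => x.2 = 1), ((x.2 : ℝ) + 1) * Real.log ((x.1 : ℝ) ^ x.2) ≤
      4 * Y := by
    have h1 : ∑ x ∈ (PP Y).filter (fun x => x.2 = 1), ((x.2 : ℝ) + 1) *
        Real.log ((x.1 : ℝ) ^ x.2) ≤ ∑ p ∈ (Finset.range (Y + 1)).filter Nat.Prime,
        2 * Real.log p := by
      have hinj : Set.InjOn (Prod.fst : ℕ × ℕ → ℕ) ((PP Y).filter (fun x => x.2 = 1)) := by
        intro x hx y hy hxy
        rw [Finset.mem_coe, Finset.mem_filter] at hx hy
        exact Prod.ext hxy (hx.2.trans hy.2.symm)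
      calc ∑ x ∈ (PP Y).filter (fun x => x.2 = 1), ((x.2 : ℝ) + 1) * Real.log ((x.1 : ℝ) ^ x.2)
          = ∑ x ∈ (PP Y).filter (fun x => x.2 = 1), 2 * Real.log (x.1 : ℝ) := by
            refine Finset.sum_congr rfl fun x hx => ?_
            rw [Finset.mem_filter] at hx
            rw [hx.2, pow_one, Nat.cast_one]
            ring
        _ = ∑ p ∈ ((PP Y).filter (fun x => x.2 = 1)).image Prod.fst, 2 * Real.log (p : ℝ) := by
            rw [Finset.sum_image hinj]
        _ ≤ _ := by
            refine Finset.sum_le_sum_of_subset_of_nonneg ?_ ?_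
            · intro p hp
              rw [Finset.mem_image] at hp
              obtain ⟨x, hx, rfl⟩ := hp
              rw [Finset.mem_filter] at hx
              have hx1 := hx.1
              unfold PP at hx1
              rw [Finset.mem_filter, Finset.mem_product, Finset.mem_Icc] at hx1
              rw [Finset.mem_filter, Finset.mem_range]
              exact ⟨by omega, hx1.2.1⟩
            · intro p hp _
              rw [Finset.mem_filter] at hp
              have : (1 : ℝ) ≤ p := by exact_mod_cast hp.2.one_lt.le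
              have := Real.log_nonneg this
              linarith
    have h2 : ∑ p ∈ (Finset.range (Y + 1)).filter Nat.Prime, Real.log (p : ℝ) ≤ Y * Real.log 4 := by
      have h3 : ∑ p ∈ (Finset.range (Y + 1)).filter Nat.Prime, Real.log (p : ℝ) =
          Real.log (primorial Y : ℕ) := by
        unfold primorial
        rw [Nat.cast_prod, Real.log_prod]
        intro p hp
        rw [Finset.mem_filter] at hp
        exact_mod_cast hp.2.ne_zero
      rw [h3]
      have h4 : ((primorial Y : ℕ) : ℝ) ≤ 4 ^ Y := by exact_mod_cast primorial_le_four_pow Y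
      have h5 : (0 : ℝ) < (primorial Y : ℕ) := by exact_mod_cast primorial_pos Y
      calc Real.log (primorial Y : ℕ) ≤ Real.log (4 ^ Y) := Real.log_le_log h5 h4
        _ = Y * Real.log 4 := Real.log_pow _ _
    have h6 : Real.log 4 ≤ 2 := by
      have : Real.log 4 = 2 * Real.log 2 := by
        rw [show (4 : ℝ) = 2 ^ 2 by norm_num, Real.log_pow]; norm_num
      rw [this]
      linarith [Real.log_two_lt_d9]
    calc ∑ x ∈ (PP Y).filter (fun x => x.2 = 1), ((x.2 : ℝ) + 1) * Real.log ((x.1 : ℝ) ^ x.2)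
        ≤ ∑ p ∈ (Finset.range (Y + 1)).filter Nat.Prime, 2 * Real.log p := h1
      _ = 2 * ∑ p ∈ (Finset.range (Y + 1)).filter Nat.Prime, Real.log p := by
          rw [Finset.mul_sum]
      _ ≤ 2 * (Y * Real.log 4) := by linarith
      _ ≤ 4 * Y := by nlinarith
  have hB : ∑ x ∈ (PP Y).filter (fun x => ¬ x.2 = 1), ((x.2 : ℝ) + 1) *
      Real.log ((x.1 : ℝ) ^ x.2) ≤ 936 * Y := by
    have hlog2 : (0.6 : ℝ) < Real.log 2 := by
      have := Real.log_two_gt_d9
      linarith
    have hv : ∀ x ∈ PP Y, (x.2 : ℝ) ≤ 2 * Real.log Y := by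
      intro x hx
      unfold PP at hx
      rw [Finset.mem_filter] at hx
      have h1 : ((x.1 : ℝ)) ^ x.2 ≤ Y := by exact_mod_cast hx.2.2
      have h2 : (2 : ℝ) ^ x.2 ≤ Y := by
        refine le_trans (pow_le_pow_left₀ (by norm_num) ?_ _) h1
        exact_mod_cast hx.2.1.two_le
      have h3 := Real.log_le_log (by positivity) h2
      rw [Real.log_pow] at h3
      nlinarith [Nat.cast_nonneg (α := ℝ) x.2]
    have hcard : (((PP Y).filter (fun x => ¬ x.2 = 1)).card : ℝ) ≤
        Real.sqrt Y * (2 * Real.log Y) := by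
      have h1 : (PP Y).filter (fun x => ¬ x.2 = 1) ⊆
          Finset.Icc 1 (Nat.sqrt Y) ×ˢ Finset.Icc 1 ⌊2 * Real.log Y⌋₊ := by
        intro x hx
        rw [Finset.mem_filter] at hx
        have h2 := hv x hx.1
        have hx1 := hx.1
        unfold PP at hx1
        rw [Finset.mem_filter, Finset.mem_product, Finset.mem_Icc, Finset.mem_Icc] at hx1
        rw [Finset.mem_product, Finset.mem_Icc, Finset.mem_Icc]
        refine ⟨⟨hx1.1.1.1, ?_⟩, hx1.1.2.1, ?_⟩
        · rw [Nat.le_sqrt, ← pow_two]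
          refine le_trans (Nat.pow_le_pow_right hx1.2.1.pos ?_) hx1.2.2
          have := hx.2
          have := hx1.1.2.1
          omega
        · exact Nat.le_floor h2
      calc (((PP Y).filter (fun x => ¬ x.2 = 1)).card : ℝ)
          ≤ ((Finset.Icc 1 (Nat.sqrt Y) ×ˢ Finset.Icc 1 ⌊2 * Real.log Y⌋₊).card : ℝ) := by
            exact_mod_cast Finset.card_le_card h1
        _ = (Nat.sqrt Y : ℝ) * (⌊2 * Real.log Y⌋₊ : ℝ) := by
            rw [Finset.card_product, Nat.card_Icc, Nat.card_Icc]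
            push_cast
            simp
        _ ≤ Real.sqrt Y * (2 * Real.log Y) :=
            mul_le_mul Real.nat_sqrt_le_real_sqrt (Nat.floor_le (by positivity))
              (Nat.cast_nonneg _) (Real.sqrt_nonneg _)
    have hterm : ∀ x ∈ (PP Y).filter (fun x => ¬ x.2 = 1), ((x.2 : ℝ) + 1) *
        Real.log ((x.1 : ℝ) ^ x.2) ≤ (2 * Real.log Y + 1) * Real.log Y := by
      intro x hx
      rw [Finset.mem_filter] at hx
      have h2 := hv x hx.1
      have hx1 := hx.1
      unfold PP at hx1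
      rw [Finset.mem_filter] at hx1
      have h3 : ((x.1 : ℝ)) ^ x.2 ≤ Y := by exact_mod_cast hx1.2.2
      have h4 : (0 : ℝ) < (x.1 : ℝ) ^ x.2 := by
        have : (0 : ℝ) < x.1 := by exact_mod_cast hx1.2.1.pos
        positivity
      have h5 := Real.log_le_log h4 h3
      refine mul_le_mul (by linarith) h5 ?_ (by positivity)
      apply Real.log_nonneg
      have : (1 : ℝ) ≤ x.1 := by exact_mod_cast hx1.2.1.one_lt.le
      exact one_le_pow₀ this
    calc ∑ x ∈ (PP Y).filter (fun x => ¬ x.2 = 1), ((x.2 : ℝ) + 1) * Real.log ((x.1 : ℝ) ^ x.2)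
        ≤ ((PP Y).filter (fun x => ¬ x.2 = 1)).card • ((2 * Real.log Y + 1) * Real.log Y) :=
          Finset.sum_le_card_nsmul _ _ _ hterm
      _ = (((PP Y).filter (fun x => ¬ x.2 = 1)).card : ℝ) *
          ((2 * Real.log Y + 1) * Real.log Y) := by rw [nsmul_eq_mul]
      _ ≤ (Real.sqrt Y * (2 * Real.log Y)) * ((2 * Real.log Y + 1) * Real.log Y) :=
          mul_le_mul_of_nonneg_right hcard (by positivity)
      _ ≤ (Real.sqrt Y * (2 * (6 * (Y : ℝ) ^ (1 / 6 : ℝ)))) * ((2 * (6 * (Y : ℝ) ^ (1 / 6 : ℝ)) +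
          (Y : ℝ) ^ (1 / 6 : ℝ)) * (6 * (Y : ℝ) ^ (1 / 6 : ℝ))) := by
          have h7 : (1 : ℝ) ≤ (Y : ℝ) ^ (1 / 6 : ℝ) := Real.one_le_rpow hYR (by norm_num)
          gcongr
      _ = 936 * (Real.sqrt Y * ((Y : ℝ) ^ (1 / 6 : ℝ)) ^ 3) := by ring
      _ = 936 * Y := by
          rw [← Real.rpow_natCast ((Y : ℝ) ^ (1 / 6 : ℝ)) 3, ← Real.rpow_mul (by linarith),
            show (1 / 6 : ℝ) * ((3 : ℕ) : ℝ) = 1 / 2 by norm_num, ← Real.sqrt_eq_rpow,
            Real.mul_self_sqrt (by linarith)]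
  linarith

/-- the inequality -/
theorem ht {h : ℕ → ℝ} (hs : Sub h) (R : ℝ) (hR : 0 ≤ R)
    (hp : ∀ p v : ℕ, p.Prime → 1 ≤ v → h (p ^ v) ≤ R * ((v : ℝ) + 1)) (X : ℕ) (hX : 1 ≤ X) :
    (∑ n ∈ Finset.Icc 1 X, h n) * Real.log X ≤
      (1 + 1000 * R) * X * ∑ n ∈ Finset.Icc 1 X, h n / n := by
  have hXR : (1 : ℝ) ≤ X := by exact_mod_cast hX
  have h1 : (∑ n ∈ Finset.Icc 1 X, h n) * Real.log X =
      ∑ n ∈ Finset.Icc 1 X, h n * Real.log ((X : ℝ) / n) +
        ∑ n ∈ Finset.Icc 1 X, h n * Real.log n := by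
    rw [Finset.sum_mul, ← Finset.sum_add_distrib]
    refine Finset.sum_congr rfl fun n hn => ?_
    rw [Finset.mem_Icc] at hn
    have hn0 : (n : ℝ) ≠ 0 := by
      have : n ≠ 0 := by omega
      exact_mod_cast this
    rw [← mul_add, Real.log_div (by linarith) hn0]
    ring
  have h2 : ∑ n ∈ Finset.Icc 1 X, h n * Real.log ((X : ℝ) / n) ≤
      X * ∑ n ∈ Finset.Icc 1 X, h n / n := by
    rw [Finset.mul_sum]
    refine Finset.sum_le_sum fun n hn => ?_
    rw [Finset.mem_Icc] at hn
    have hn0 : (0 : ℝ) < n := by exact_mod_cast hn.1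
    have h3 : Real.log ((X : ℝ) / n) ≤ X / n :=
      (Real.log_le_sub_one_of_pos (by positivity)).trans (by linarith)
    calc h n * Real.log ((X : ℝ) / n) ≤ h n * (X / n) :=
          mul_le_mul_of_nonneg_left h3 (hs.nonneg n)
      _ = X * (h n / n) := by ring
  have h3 : ∑ n ∈ Finset.Icc 1 X, h n * Real.log n ≤
      1000 * R * X * ∑ n ∈ Finset.Icc 1 X, h n / n := by
    refine (sum_log hs X).trans ?_
    rw [Finset.mul_sum]
    refine Finset.sum_le_sum fun m hm => ?_
    rw [Finset.mem_Icc] at hm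
    have hm0 : (0 : ℝ) < m := by exact_mod_cast hm.1
    have h4 : ∑ x ∈ PP (X / m), h (x.1 ^ x.2) * Real.log ((x.1 : ℝ) ^ x.2) ≤
        R * (1000 * ((X / m : ℕ) : ℝ)) := by
      refine le_trans ?_ (mul_le_mul_of_nonneg_left (pp_bound (X / m)) hR)
      rw [Finset.mul_sum]
      refine Finset.sum_le_sum fun x hx => ?_
      unfold PP at hx
      rw [Finset.mem_filter, Finset.mem_product, Finset.mem_Icc, Finset.mem_Icc] at hx
      have h5 := hp x.1 x.2 hx.2.1 hx.1.2.1
      have h6 : 0 ≤ Real.log ((x.1 : ℝ) ^ x.2) := by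
        apply Real.log_nonneg
        have : (1 : ℝ) ≤ x.1 := by exact_mod_cast hx.2.1.one_lt.le
        exact one_le_pow₀ this
      calc h (x.1 ^ x.2) * Real.log ((x.1 : ℝ) ^ x.2) ≤
            R * ((x.2 : ℝ) + 1) * Real.log ((x.1 : ℝ) ^ x.2) := mul_le_mul_of_nonneg_right h5 h6
        _ = R * (((x.2 : ℝ) + 1) * Real.log ((x.1 : ℝ) ^ x.2)) := by ring
    have h5 : ((X / m : ℕ) : ℝ) ≤ X / m := Nat.cast_div_le
    calc h m * ∑ x ∈ PP (X / m), h (x.1 ^ x.2) * Real.log ((x.1 : ℝ) ^ x.2)
        ≤ h m * (R * (1000 * ((X : ℝ) / m))) := by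
          refine mul_le_mul_of_nonneg_left (h4.trans ?_) (hs.nonneg m)
          exact mul_le_mul_of_nonneg_left (by linarith) hR
      _ = 1000 * R * X * (h m / m) := by ring
  rw [h1]
  calc _ ≤ X * ∑ n ∈ Finset.Icc 1 X, h n / n + 1000 * R * X * ∑ n ∈ Finset.Icc 1 X, h n / n :=
        add_le_add h2 h3
    _ = (1 + 1000 * R) * X * ∑ n ∈ Finset.Icc 1 X, h n / n := by ring

end Pool.Agent.Lib.MP_a17b09_nt.UW
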