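import Pool.Agent.Lib.MP_a17b09_nt.UW.HT3

/-!
MP_a17b09_nt, unweighted corollary with exponent `log 2` (helper64): the Hall-Tenenbaum bound of
helper3 for weights which may grow like `(3/2) ^ v` at the powers of the primes.
-/

set_option autoImplicit false

open Finset

namespace Pool.Agent.Lib.MP_a17b09_nt.UW

namespace U64

theorem geo_a (n : ℕ) : ∑ k ∈ Finset.range n, (3 / 4 : ℝ) ^ k = 4 - 4 * (3 / 4) ^ n := by
  induction n with
  | zero => norm_num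
  | succ n ih => rw [Finset.sum_range_succ, ih, pow_succ]; ring

theorem geo_b (n : ℕ) : ∑ k ∈ Finset.range n, ((k : ℝ) + 2) * (3 / 4 : ℝ) ^ k =
    20 - (4 * n + 20) * (3 / 4) ^ n := by
  induction n with
  | zero => norm_num
  | succ n ih => rw [Finset.sum_range_succ, ih, pow_succ]; push_cast; ring

theorem ratio {p : ℕ} (hp : 2 ≤ p) (k : ℕ) :
    (3 / 2 : ℝ) ^ (2 + k) / (p : ℝ) ^ (2 + k) ≤ 9 / 4 * ((p : ℝ) ^ 2)⁻¹ * (3 / 4) ^ k := by
  have hpR : (2 : ℝ) ≤ p := by exact_mod_cast hp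
  have h1 : (3 / 2 : ℝ) ^ (2 + k) / (p : ℝ) ^ (2 + k) =
      9 / 4 * ((p : ℝ) ^ 2)⁻¹ * ((3 / 2) / p) ^ k := by
    have : (0 : ℝ) < p := by linarith
    rw [div_pow (3 / 2 : ℝ) (p : ℝ) k, pow_add, pow_add]
    generalize (3 / 2 : ℝ) ^ k = A
    field_simp
    ring
  rw [h1]
  apply mul_le_mul_of_nonneg_left _ (by positivity)
  apply pow_le_pow_left₀ (by positivity)
  rw [div_le_iff₀ (by linarith)]
  linarith

/-- the tail without the factor `v` -/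
theorem tail_a {p : ℕ} (hp : 2 ≤ p) (X : ℕ) :
    ∑ v ∈ Finset.Icc 2 X, (3 / 2 : ℝ) ^ v / (p : ℝ) ^ v ≤ 9 * ((p : ℝ) ^ 2)⁻¹ := by
  rw [← Finset.Ico_add_one_right_eq_Icc, Finset.sum_Ico_eq_sum_range]
  calc ∑ k ∈ Finset.range (X + 1 - 2), (3 / 2 : ℝ) ^ (2 + k) / (p : ℝ) ^ (2 + k)
      ≤ ∑ k ∈ Finset.range (X + 1 - 2), 9 / 4 * ((p : ℝ) ^ 2)⁻¹ * (3 / 4) ^ k :=
        Finset.sum_le_sum fun k _ => ratio hp k
    _ = 9 / 4 * ((p : ℝ) ^ 2)⁻¹ * (4 - 4 * (3 / 4) ^ (X + 1 - 2)) := by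
        rw [← Finset.mul_sum, geo_a]
    _ ≤ 9 / 4 * ((p : ℝ) ^ 2)⁻¹ * 4 := by
        apply mul_le_mul_of_nonneg_left _ (by positivity)
        have : (0 : ℝ) ≤ 4 * (3 / 4) ^ (X + 1 - 2) := by positivity
        linarith
    _ = _ := by ring

/-- the tail with the factor `v` -/
theorem tail_b {p : ℕ} (hp : 2 ≤ p) (X : ℕ) :
    ∑ v ∈ Finset.Icc 2 X, (v : ℝ) * ((3 / 2 : ℝ) ^ v / (p : ℝ) ^ v) ≤ 45 * ((p : ℝ) ^ 2)⁻¹ := by
  rw [← Finset.Ico_add_one_right_eq_Icc, Finset.sum_Ico_eq_sum_range]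
  calc ∑ k ∈ Finset.range (X + 1 - 2), (((2 + k : ℕ) : ℝ)) *
        ((3 / 2 : ℝ) ^ (2 + k) / (p : ℝ) ^ (2 + k))
      ≤ ∑ k ∈ Finset.range (X + 1 - 2), 9 / 4 * ((p : ℝ) ^ 2)⁻¹ *
          (((k : ℝ) + 2) * (3 / 4) ^ k) := by
        refine Finset.sum_le_sum fun k _ => ?_
        have h1 := mul_le_mul_of_nonneg_left (ratio hp k)
          (by positivity : (0 : ℝ) ≤ ((2 + k : ℕ) : ℝ))
        refine h1.trans (le_of_eq ?_)
        push_cast
        ring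
    _ = 9 / 4 * ((p : ℝ) ^ 2)⁻¹ * (20 - (4 * ((X + 1 - 2 : ℕ) : ℝ) + 20) *
          (3 / 4) ^ (X + 1 - 2)) := by
        rw [← Finset.mul_sum, geo_b]
    _ ≤ 9 / 4 * ((p : ℝ) ^ 2)⁻¹ * 20 := by
        apply mul_le_mul_of_nonneg_left _ (by positivity)
        have : (0 : ℝ) ≤ (4 * ((X + 1 - 2 : ℕ) : ℝ) + 20) * (3 / 4) ^ (X + 1 - 2) := by positivity
        linarith
    _ = _ := by ring

/-- the sum over prime powers with weight `(3/2) ^ v` -/
theorem ppb : ∃ C : ℝ, 0 ≤ C ∧ ∀ Y : ℕ,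
    ∑ x ∈ PP Y, (3 / 2 : ℝ) ^ x.2 * Real.log ((x.1 : ℝ) ^ x.2) ≤ C * Y := by
  classical
  have hsm : Summable (fun n : ℕ => ((n : ℝ) ^ (3 / 2 : ℝ))⁻¹) :=
    Real.summable_nat_rpow_inv.2 (by norm_num)
  set S : ℝ := ∑' n : ℕ, ((n : ℝ) ^ (3 / 2 : ℝ))⁻¹ with hS
  have hS0 : 0 ≤ S := tsum_nonneg fun n => by positivity
  refine ⟨1000 + 90 * S, by positivity, fun Y => ?_⟩
  have hsplit : PP Y = (PP Y).filter (fun x => x.2 = 1) ∪ (PP Y).filter (fun x => ¬ x.2 = 1) :=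
    (Finset.filter_union_filter_not_eq _ _).symm
  rw [hsplit, Finset.sum_union (Finset.disjoint_filter_filter_not _ _ _)]
  have hmem : ∀ x ∈ PP Y, (1 ≤ x.1 ∧ x.1 ≤ Y) ∧ (1 ≤ x.2 ∧ x.2 ≤ Y) ∧ x.1.Prime ∧
      x.1 ^ x.2 ≤ Y := by
    intro x hx
    unfold PP at hx
    rw [Finset.mem_filter, Finset.mem_product, Finset.mem_Icc, Finset.mem_Icc] at hx
    exact ⟨hx.1.1, hx.1.2, hx.2.1, hx.2.2⟩
  have hlog0 : ∀ x ∈ PP Y, 0 ≤ Real.log ((x.1 : ℝ) ^ x.2) := by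
    intro x hx
    apply Real.log_nonneg
    have : (1 : ℝ) ≤ x.1 := by exact_mod_cast (hmem x hx).1.1
    exact one_le_pow₀ this
  have hA : ∑ x ∈ (PP Y).filter (fun x => x.2 = 1), (3 / 2 : ℝ) ^ x.2 *
      Real.log ((x.1 : ℝ) ^ x.2) ≤ 1000 * Y := by
    refine le_trans ?_ (pp_bound Y)
    calc ∑ x ∈ (PP Y).filter (fun x => x.2 = 1), (3 / 2 : ℝ) ^ x.2 * Real.log ((x.1 : ℝ) ^ x.2)
        ≤ ∑ x ∈ (PP Y).filter (fun x => x.2 = 1), ((x.2 : ℝ) + 1) *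
            Real.log ((x.1 : ℝ) ^ x.2) := by
          refine Finset.sum_le_sum fun x hx => ?_
          rw [Finset.mem_filter] at hx
          apply mul_le_mul_of_nonneg_right _ (hlog0 x hx.1)
          rw [hx.2]
          norm_num
      _ ≤ _ := by
          refine Finset.sum_le_sum_of_subset_of_nonneg (Finset.filter_subset _ _) fun x hx _ => ?_
          exact mul_nonneg (by positivity) (hlog0 x hx)
  have hB : ∑ x ∈ (PP Y).filter (fun x => ¬ x.2 = 1), (3 / 2 : ℝ) ^ x.2 *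
      Real.log ((x.1 : ℝ) ^ x.2) ≤ 90 * S * Y := by
    have hsub : (PP Y).filter (fun x => ¬ x.2 = 1) ⊆ Finset.Icc 2 Y ×ˢ Finset.Icc 2 Y := by
      intro x hx
      rw [Finset.mem_filter] at hx
      obtain ⟨h1, h2, h3, h4⟩ := hmem x hx.1
      have := hx.2
      have := h3.two_le
      rw [Finset.mem_product, Finset.mem_Icc, Finset.mem_Icc]
      omega
    calc ∑ x ∈ (PP Y).filter (fun x => ¬ x.2 = 1), (3 / 2 : ℝ) ^ x.2 *
          Real.log ((x.1 : ℝ) ^ x.2)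
        ≤ ∑ x ∈ (PP Y).filter (fun x => ¬ x.2 = 1), (Y : ℝ) * (Real.log x.1 *
            ((x.2 : ℝ) * ((3 / 2 : ℝ) ^ x.2 / (x.1 : ℝ) ^ x.2))) := by
          refine Finset.sum_le_sum fun x hx => ?_
          rw [Finset.mem_filter] at hx
          obtain ⟨h1, h2, h3, h4⟩ := hmem x hx.1
          have h5 : (0 : ℝ) < (x.1 : ℝ) ^ x.2 := by
            have : (0 : ℝ) < x.1 := by exact_mod_cast h3.pos
            positivity
          have h6 : (1 : ℝ) ≤ Y / (x.1 : ℝ) ^ x.2 := by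
            rw [one_le_div h5]
            exact_mod_cast h4
          have h7 : 0 ≤ (3 / 2 : ℝ) ^ x.2 * Real.log ((x.1 : ℝ) ^ x.2) :=
            mul_nonneg (by positivity) (hlog0 x hx.1)
          calc (3 / 2 : ℝ) ^ x.2 * Real.log ((x.1 : ℝ) ^ x.2)
              = ((3 / 2 : ℝ) ^ x.2 * Real.log ((x.1 : ℝ) ^ x.2)) * 1 := (mul_one _).symm
            _ ≤ ((3 / 2 : ℝ) ^ x.2 * Real.log ((x.1 : ℝ) ^ x.2)) * (Y / (x.1 : ℝ) ^ x.2) :=
                mul_le_mul_of_nonneg_left h6 h7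
            _ = _ := by rw [Real.log_pow]; ring
      _ ≤ ∑ x ∈ Finset.Icc 2 Y ×ˢ Finset.Icc 2 Y, (Y : ℝ) * (Real.log x.1 *
            ((x.2 : ℝ) * ((3 / 2 : ℝ) ^ x.2 / (x.1 : ℝ) ^ x.2))) := by
          refine Finset.sum_le_sum_of_subset_of_nonneg hsub fun x hx _ => ?_
          rw [Finset.mem_product, Finset.mem_Icc, Finset.mem_Icc] at hx
          have : 0 ≤ Real.log (x.1 : ℝ) := Real.log_natCast_nonneg _
          positivity
      _ = (Y : ℝ) * ∑ p ∈ Finset.Icc 2 Y, Real.log p * ∑ v ∈ Finset.Icc 2 Y,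
            ((v : ℝ) * ((3 / 2 : ℝ) ^ v / (p : ℝ) ^ v)) := by
          rw [Finset.sum_product, Finset.mul_sum]
          refine Finset.sum_congr rfl fun p _ => ?_
          rw [Finset.mul_sum, Finset.mul_sum]
      _ ≤ (Y : ℝ) * ∑ p ∈ Finset.Icc 2 Y, 90 * ((p : ℝ) ^ (3 / 2 : ℝ))⁻¹ := by
          refine mul_le_mul_of_nonneg_left (Finset.sum_le_sum fun p hp => ?_) (Nat.cast_nonneg _)
          rw [Finset.mem_Icc] at hp
          have hp0 : (0 : ℝ) < p := by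
            have : 0 < p := by omega
            exact_mod_cast this
          have h1 : Real.log (p : ℝ) ≤ (p : ℝ) ^ (1 / 2 : ℝ) / (1 / 2) :=
            Real.log_le_rpow_div hp0.le (by norm_num)
          have h2 := tail_b hp.1 Y
          have h3 : ((p : ℝ) ^ 2)⁻¹ = ((p : ℝ) ^ (3 / 2 : ℝ))⁻¹ * ((p : ℝ) ^ (1 / 2 : ℝ))⁻¹ := by
            rw [← mul_inv, ← Real.rpow_add hp0, ← Real.rpow_natCast]
            norm_num
          calc Real.log p * ∑ v ∈ Finset.Icc 2 Y, ((v : ℝ) * ((3 / 2 : ℝ) ^ v / (p : ℝ) ^ v))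
              ≤ ((p : ℝ) ^ (1 / 2 : ℝ) / (1 / 2)) * (45 * ((p : ℝ) ^ 2)⁻¹) :=
                mul_le_mul h1 h2 (Finset.sum_nonneg fun v _ => by positivity) (by positivity)
            _ = 90 * ((p : ℝ) ^ (3 / 2 : ℝ))⁻¹ := by
                rw [h3]
                have h4 : (0 : ℝ) < (p : ℝ) ^ (1 / 2 : ℝ) := by positivity
                field_simp
                ring
      _ ≤ (Y : ℝ) * (90 * S) := by
          refine mul_le_mul_of_nonneg_left ?_ (Nat.cast_nonneg _)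
          rw [← Finset.mul_sum]
          refine mul_le_mul_of_nonneg_left ?_ (by norm_num)
          exact hsm.sum_le_tsum _ fun n _ => by positivity
      _ = _ := by ring
  calc _ ≤ 1000 * (Y : ℝ) + 90 * S * Y := add_le_add hA hB
    _ = _ := by ring

/-- the inequality of Hall and Tenenbaum -/
theorem ht64 : ∃ C0 : ℝ, 0 ≤ C0 ∧ ∀ h : ℕ → ℝ, Sub h → ∀ R : ℝ, 0 ≤ R →
    (∀ p v : ℕ, p.Prime → 1 ≤ v → h (p ^ v) ≤ R * (3 / 2) ^ v) → ∀ X : ℕ, 1 ≤ X →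
    (∑ n ∈ Finset.Icc 1 X, h n) * Real.log X ≤
      (1 + C0 * R) * X * ∑ n ∈ Finset.Icc 1 X, h n / n := by
  obtain ⟨C0, hC0, hpp⟩ := ppb
  refine ⟨C0, hC0, fun h hs R hR hp X hX => ?_⟩
  have hXR : (1 : ℝ) ≤ X := by exact_mod_cast hX
  have h1 : (∑ n ∈ Finset.Icc 1 X, h n) * Real.log X =
      ∑ n ∈ Finset.Icc 1 X, h n * Real.log ((X : ℝ) / n) +
        ∑ n ∈ Finset.Icc 1 X, h n * Real.log n := by
    rw [Finset.sum_mul, ← Finset.sum_add_distrib]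
    refine Finset.sum_congr rfl fun n hn => ?_
    rw [Finset.mem_Icc] at hn
    have hn0 : (n : ℝ) ≠ 0 := by
      have : n ≠ 0 := by omega
      exact_mod_cast this
    rw [← mul_add, Real.log_div (by linarith) hn0]
    ring
  have h2 : ∑ n ∈ Finset.Icc 1 X, h n * Real.log ((X : ℝ) / n) ≤
      X * ∑ n ∈ Finset.Icc 1 X, h n / n := by
    rw [Finset.mul_sum]
    refine Finset.sum_le_sum fun n hn => ?_
    rw [Finset.mem_Icc] at hn
    have hn0 : (0 : ℝ) < n := by exact_mod_cast hn.1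
    have h3 : Real.log ((X : ℝ) / n) ≤ X / n :=
      (Real.log_le_sub_one_of_pos (by positivity)).trans (by linarith)
    calc h n * Real.log ((X : ℝ) / n) ≤ h n * (X / n) :=
          mul_le_mul_of_nonneg_left h3 (hs.nonneg n)
      _ = X * (h n / n) := by ring
  have h3 : ∑ n ∈ Finset.Icc 1 X, h n * Real.log n ≤
      C0 * R * X * ∑ n ∈ Finset.Icc 1 X, h n / n := by
    refine (sum_log hs X).trans ?_
    rw [Finset.mul_sum]
    refine Finset.sum_le_sum fun m hm => ?_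
    rw [Finset.mem_Icc] at hm
    have hm0 : (0 : ℝ) < m := by exact_mod_cast hm.1
    have h4 : ∑ x ∈ PP (X / m), h (x.1 ^ x.2) * Real.log ((x.1 : ℝ) ^ x.2) ≤
        R * (C0 * ((X / m : ℕ) : ℝ)) := by
      refine le_trans ?_ (mul_le_mul_of_nonneg_left (hpp (X / m)) hR)
      rw [Finset.mul_sum]
      refine Finset.sum_le_sum fun x hx => ?_
      unfold PP at hx
      rw [Finset.mem_filter, Finset.mem_product, Finset.mem_Icc, Finset.mem_Icc] at hx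
      have h5 := hp x.1 x.2 hx.2.1 hx.1.2.1
      have h6 : 0 ≤ Real.log ((x.1 : ℝ) ^ x.2) := by
        apply Real.log_nonneg
        have : (1 : ℝ) ≤ x.1 := by exact_mod_cast hx.2.1.one_lt.le
        exact one_le_pow₀ this
      calc h (x.1 ^ x.2) * Real.log ((x.1 : ℝ) ^ x.2) ≤
            R * (3 / 2) ^ x.2 * Real.log ((x.1 : ℝ) ^ x.2) := mul_le_mul_of_nonneg_right h5 h6
        _ = R * ((3 / 2) ^ x.2 * Real.log ((x.1 : ℝ) ^ x.2)) := by ring
    have h5 : ((X / m : ℕ) : ℝ) ≤ X / m := Nat.cast_div_le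
    calc h m * ∑ x ∈ PP (X / m), h (x.1 ^ x.2) * Real.log ((x.1 : ℝ) ^ x.2)
        ≤ h m * (R * (C0 * ((X : ℝ) / m))) := by
          refine mul_le_mul_of_nonneg_left (h4.trans ?_) (hs.nonneg m)
          exact mul_le_mul_of_nonneg_left (mul_le_mul_of_nonneg_left h5 hC0) hR
      _ = C0 * R * X * (h m / m) := by ring
  rw [h1]
  calc _ ≤ X * ∑ n ∈ Finset.Icc 1 X, h n / n + C0 * R * X * ∑ n ∈ Finset.Icc 1 X, h n / n :=
        add_le_add h2 h3
    _ = (1 + C0 * R) * X * ∑ n ∈ Finset.Icc 1 X, h n / n := by ring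

theorem sum_inv_sq (X : ℕ) (hX : 2 ≤ X) :
    ∑ p ∈ (Finset.Icc 1 X).filter Nat.Prime, ((p : ℝ) ^ 2)⁻¹ ≤ 1 := by
  have h1 : (Finset.Icc 1 X).filter Nat.Prime ⊆ Finset.Ioc 1 X := by
    intro p hp
    rw [Finset.mem_filter, Finset.mem_Icc] at hp
    rw [Finset.mem_Ioc]
    exact ⟨hp.2.one_lt, hp.1.2⟩
  calc ∑ p ∈ (Finset.Icc 1 X).filter Nat.Prime, ((p : ℝ) ^ 2)⁻¹
      ≤ ∑ i ∈ Finset.Ioc 1 X, ((i : ℝ) ^ 2)⁻¹ :=
        Finset.sum_le_sum_of_subset_of_nonneg h1 (fun _ _ _ => by positivity)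
    _ ≤ ((1 : ℕ) : ℝ)⁻¹ - ((X : ℕ) : ℝ)⁻¹ := sum_Ioc_inv_sq_le_sub one_ne_zero (by omega)
    _ ≤ 1 := by
        have : (0 : ℝ) ≤ ((X : ℕ) : ℝ)⁻¹ := by positivity
        rw [Nat.cast_one, inv_one]
        linarith

/-- the mean value of a nonnegative submultiplicative function, upper bound -/
theorem mean64 {h : ℕ → ℝ} (hs : Sub h) (R : ℝ) (hR : 0 ≤ R)
    (hp : ∀ p v : ℕ, p.Prime → 1 ≤ v → h (p ^ v) ≤ R * (3 / 2) ^ v) (θ C1 : ℝ)
    (hM : ∀ X : ℕ, 2 ≤ X → ∑ p ∈ (Finset.Icc 1 X).filter Nat.Prime, h p / p ≤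
      θ * Real.log (Real.log X) + C1) :
    ∃ C : ℝ, 0 < C ∧ ∀ X : ℕ, 2 ≤ X →
      ∑ n ∈ Finset.Icc 1 X, h n ≤ C * X * Real.log X ^ (θ - 1) := by
  obtain ⟨C0, hC0, hht⟩ := ht64
  refine ⟨(1 + C0 * R) * Real.exp (C1 + 9 * R), by positivity, fun X hX => ?_⟩
  have hXR : (2 : ℝ) ≤ X := by exact_mod_cast hX
  have hlogX : 0 < Real.log X := Real.log_pos (by linarith)
  have hlogsum : ∑ n ∈ Finset.Icc 1 X, h n / n ≤
      Real.exp (C1 + 9 * R) * Real.log X ^ θ := by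
    refine (euler_all hs X).trans ?_
    have hterm : ∀ p ∈ (Finset.Icc 1 X).filter Nat.Prime,
        ∑ v ∈ Finset.Icc 1 X, h (p ^ v) / (p : ℝ) ^ v ≤
          h p / p + R * (9 * ((p : ℝ) ^ 2)⁻¹) := by
      intro p hpp
      rw [Finset.mem_filter, Finset.mem_Icc] at hpp
      have hsplit : Finset.Icc 1 X = insert 1 (Finset.Icc 2 X) := by
        ext v
        rw [Finset.mem_insert, Finset.mem_Icc, Finset.mem_Icc]
        omega
      rw [hsplit, Finset.sum_insert (by rw [Finset.mem_Icc]; omega), pow_one, pow_one]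
      refine add_le_add le_rfl ?_
      calc ∑ v ∈ Finset.Icc 2 X, h (p ^ v) / (p : ℝ) ^ v
          ≤ ∑ v ∈ Finset.Icc 2 X, R * ((3 / 2) ^ v / (p : ℝ) ^ v) := by
            refine Finset.sum_le_sum fun v hv => ?_
            rw [Finset.mem_Icc] at hv
            rw [← mul_div_assoc]
            exact div_le_div_of_nonneg_right (hp p v hpp.2 (by omega)) (by positivity)
        _ = R * ∑ v ∈ Finset.Icc 2 X, (3 / 2 : ℝ) ^ v / (p : ℝ) ^ v := by rw [Finset.mul_sum]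
        _ ≤ R * (9 * ((p : ℝ) ^ 2)⁻¹) := mul_le_mul_of_nonneg_left (tail_a hpp.2.two_le X) hR
    calc ∏ p ∈ (Finset.Icc 1 X).filter Nat.Prime,
          (1 + ∑ v ∈ Finset.Icc 1 X, h (p ^ v) / (p : ℝ) ^ v)
        ≤ ∏ p ∈ (Finset.Icc 1 X).filter Nat.Prime,
          Real.exp (h p / p + R * (9 * ((p : ℝ) ^ 2)⁻¹)) := by
          refine Finset.prod_le_prod (fun p _ => ?_) (fun p hpp => ?_)
          · have : 0 ≤ ∑ v ∈ Finset.Icc 1 X, h (p ^ v) / (p : ℝ) ^ v :=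
              Finset.sum_nonneg fun v _ => div_nonneg (hs.nonneg _) (by positivity)
            linarith
          · have h1 := hterm p hpp
            calc 1 + ∑ v ∈ Finset.Icc 1 X, h (p ^ v) / (p : ℝ) ^ v
                ≤ (h p / p + R * (9 * ((p : ℝ) ^ 2)⁻¹)) + 1 := by linarith
              _ ≤ _ := Real.add_one_le_exp _
      _ = Real.exp (∑ p ∈ (Finset.Icc 1 X).filter Nat.Prime,
          (h p / p + R * (9 * ((p : ℝ) ^ 2)⁻¹))) := by
          rw [Real.exp_sum]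
      _ ≤ Real.exp ((θ * Real.log (Real.log X) + C1) + R * (9 * 1)) := by
          apply Real.exp_le_exp.2
          rw [Finset.sum_add_distrib, ← Finset.mul_sum, ← Finset.mul_sum]
          exact add_le_add (hM X hX)
            (mul_le_mul_of_nonneg_left (mul_le_mul_of_nonneg_left (sum_inv_sq X hX)
              (by norm_num)) hR)
      _ = Real.exp (C1 + 9 * R) * Real.log X ^ θ := by
          rw [Real.rpow_def_of_pos hlogX, ← Real.exp_add]
          congr 1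
          ring
  have h1 := hht h hs R hR hp X (by omega)
  have h2 : (∑ n ∈ Finset.Icc 1 X, h n) * Real.log X ≤
      (1 + C0 * R) * X * (Real.exp (C1 + 9 * R) * Real.log X ^ θ) :=
    h1.trans (mul_le_mul_of_nonneg_left hlogsum (by positivity))
  rw [Real.rpow_sub_one hlogX.ne', mul_div_assoc', le_div_iff₀ hlogX]
  calc _ ≤ _ := h2
    _ = _ := by ring

end U64

end Pool.Agent.Lib.MP_a17b09_nt.UW
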