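import Pool.Agent.Lib.MP_a17b09_nt.UW.Rho3
import Pool.Agent.Lib.MP_a17b09_nt.UW.HT64

/-!
MP_a17b09_nt, unweighted corollary with exponent `log 2` (helper64): a completely submultiplicative
majorant of the number of roots modulo `n`.
-/

set_option autoImplicit false

open Finset

namespace Pool.Agent.Lib.MP_a17b09_nt.UW

open Pool.Agent.Lib.MP_a17b09_nt.MRSG.NugA12 (kro kro_nat)
open Pool.Agent.Lib.MP_a17b09_nt.MRSG (PA7 mem_PA7 merG_7)

namespace U64

/-- the bound at the bad primes -/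
def RR (a b c : ℤ) : ℕ := (b ^ 2 - 4 * a * c).natAbs * (1 + a.natAbs)

open Classical in
/-- the majorant at the primes -/
noncomputable def rp (a b c : ℤ) (p : ℕ) : ℕ :=
  if (p : ℤ) ∣ 4 * a * (b ^ 2 - 4 * a * c) then RR a b c
  else if jacobiSym (b ^ 2 - 4 * a * c) p = 1 then 2 else 0

/-- the majorant -/
noncomputable def rr (a b c : ℤ) (n : ℕ) : ℕ := ∏ p ∈ n.primeFactors, rp a b c p

theorem RR_pos {a b c : ℤ} (hD : b ^ 2 - 4 * a * c ≠ 0) : 1 ≤ RR a b c := by
  unfold RR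
  exact Nat.mul_pos (Int.natAbs_pos.2 hD) (by omega)

theorem rp_or {a b c : ℤ} (hD : b ^ 2 - 4 * a * c ≠ 0) (p : ℕ) :
    rp a b c p = 0 ∨ 1 ≤ rp a b c p := by omega

theorem rr_one (a b c : ℤ) : rr a b c 1 = 1 := by
  unfold rr
  simp

theorem rr_mul {a b c : ℤ} {m n : ℕ} (hm : m ≠ 0) (hn : n ≠ 0) :
    rr a b c (m * n) ≤ rr a b c m * rr a b c n := by
  unfold rr
  rw [Nat.primeFactors_mul hm hn, ← Finset.prod_union_inter]
  by_cases h0 : ∏ p ∈ m.primeFactors ∪ n.primeFactors, rp a b c p = 0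
  · rw [h0]; exact Nat.zero_le _
  · apply Nat.le_mul_of_pos_right
    apply Finset.prod_pos
    intro p hp
    rw [Nat.pos_iff_ne_zero]
    intro h1
    apply h0
    exact Finset.prod_eq_zero (Finset.mem_union_left _ (Finset.mem_inter.1 hp).1) h1

theorem rr_coprime {a b c : ℤ} {m n : ℕ} (h : Nat.Coprime m n) :
    rr a b c (m * n) = rr a b c m * rr a b c n := by
  unfold rr
  rw [h.primeFactors_mul, Finset.prod_union h.disjoint_primeFactors]

theorem rr_pow {a b c : ℤ} {p : ℕ} (hp : p.Prime) {k : ℕ} (hk : k ≠ 0) :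
    rr a b c (p ^ k) = rp a b c p := by
  unfold rr
  rw [Nat.primeFactors_prime_pow hk hp, Finset.prod_singleton]

/-- the roots modulo a power of a good prime -/
theorem rho_good_pow (a b c : ℤ) {p : ℕ} (hp : p.Prime)
    (hW : ¬ (p : ℤ) ∣ 4 * a * (b ^ 2 - 4 * a * c)) {j : ℕ} (hj : j ≠ 0) :
    rho a b c (p ^ j) ≤ if jacobiSym (b ^ 2 - 4 * a * c) p = 1 then 2 else 0 := by
  classical
  haveI : Fact p.Prime := ⟨hp⟩
  have hpa : ¬ (p : ℤ) ∣ a := fun h => hW ((h.mul_left 4).mul_right _)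
  have hpD : ¬ (p : ℤ) ∣ b ^ 2 - 4 * a * c := fun h => hW (h.mul_left _)
  have hp4 : ¬ (p : ℤ) ∣ 4 := fun h => hW ((h.mul_right a).mul_right _)
  have hp2 : p ≠ 2 := by
    rintro rfl
    exact hp4 (by norm_num)
  have hpI : Prime (p : ℤ) := Nat.prime_iff_prime_int.1 hp
  have hdvd : (p : ℤ) ∣ ((p ^ j : ℕ) : ℤ) := by
    exact_mod_cast dvd_pow_self p hj
  by_cases hjac : jacobiSym (b ^ 2 - 4 * a * c) p = 1
  · rw [if_pos hjac]
    rcases ((Finset.range (p ^ j)).filter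
      (fun ν : ℕ => ((p ^ j : ℕ) : ℤ) ∣ a * (ν : ℤ) ^ 2 + b * ν + c)).eq_empty_or_nonempty
      with h0 | ⟨ν, hν⟩
    · unfold rho
      rw [h0, Finset.card_empty]
      exact Nat.zero_le _
    rw [Finset.mem_filter, Finset.mem_range] at hν
    set B : Finset ℕ := (Finset.range (p ^ j)).filter
      (fun μ : ℕ => ((p ^ j : ℕ) : ℤ) ∣ a * ((ν : ℤ) + μ) + b) with hB
    have hBc : B.card ≤ 1 := by
      rw [Finset.card_le_one]
      intro x hx y hy
      rw [hB, Finset.mem_filter, Finset.mem_range] at hx hy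
      have h1 : ((p ^ j : ℕ) : ℤ) ∣ a * ((y : ℤ) - x) := by
        have := dvd_sub hy.2 hx.2
        have h2 : (a * ((ν : ℤ) + y) + b) - (a * ((ν : ℤ) + x) + b) = a * ((y : ℤ) - x) := by ring
        rwa [h2] at this
      have hcop : IsCoprime ((p ^ j : ℕ) : ℤ) a := by
        rw [Nat.cast_pow]
        exact IsCoprime.pow_left ((Prime.coprime_iff_not_dvd hpI).2 hpa)
      have h2 : ((p ^ j : ℕ) : ℤ) ∣ (y : ℤ) - x := hcop.dvd_of_dvd_mul_left h1
      have h3 : x ≡ y [MOD p ^ j] := Nat.modEq_iff_dvd.2 h2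
      exact Nat.ModEq.eq_of_lt_of_lt h3 hx.1 hy.1
    have hsub : (Finset.range (p ^ j)).filter
        (fun ν : ℕ => ((p ^ j : ℕ) : ℤ) ∣ a * (ν : ℤ) ^ 2 + b * ν + c) ⊆ {ν} ∪ B := by
      intro μ hμ
      rw [Finset.mem_filter, Finset.mem_range] at hμ
      rw [Finset.mem_union, Finset.mem_singleton, hB, Finset.mem_filter, Finset.mem_range]
      have h1 : ((p ^ j : ℕ) : ℤ) ∣ ((μ : ℤ) - ν) * (a * ((ν : ℤ) + μ) + b) := by
        have h2 := dvd_sub hμ.2 hν.2
        have h3 : (a * (μ : ℤ) ^ 2 + b * μ + c) - (a * (ν : ℤ) ^ 2 + b * ν + c) =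
            ((μ : ℤ) - ν) * (a * ((ν : ℤ) + μ) + b) := by ring
        rwa [h3] at h2
      by_cases hX : (p : ℤ) ∣ (μ : ℤ) - ν
      · have hY : ¬ (p : ℤ) ∣ a * ((ν : ℤ) + μ) + b := by
          intro hY
          apply hpD
          have h6 : b ^ 2 - 4 * a * c =
              (2 * a * ν + b) * ((a * ((ν : ℤ) + μ) + b) - a * ((μ : ℤ) - ν)) -
              4 * a * (a * (ν : ℤ) ^ 2 + b * ν + c) := by ring
          rw [h6]
          exact dvd_sub ((dvd_sub hY (hX.mul_left a)).mul_left _)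
            ((hdvd.trans hν.2).mul_left _)
        left
        have hcop : IsCoprime ((p ^ j : ℕ) : ℤ) (a * ((ν : ℤ) + μ) + b) := by
          rw [Nat.cast_pow]
          exact IsCoprime.pow_left ((Prime.coprime_iff_not_dvd hpI).2 hY)
        have h2 : ((p ^ j : ℕ) : ℤ) ∣ (μ : ℤ) - ν := hcop.dvd_of_dvd_mul_right h1
        have h3 : ν ≡ μ [MOD p ^ j] := Nat.modEq_iff_dvd.2 h2
        exact (Nat.ModEq.eq_of_lt_of_lt h3 hν.1 hμ.1).symm
      · right
        have hcop : IsCoprime ((p ^ j : ℕ) : ℤ) ((μ : ℤ) - ν) := by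
          rw [Nat.cast_pow]
          exact IsCoprime.pow_left ((Prime.coprime_iff_not_dvd hpI).2 hX)
        exact ⟨hμ.1, hcop.dvd_of_dvd_mul_left h1⟩
    calc rho a b c (p ^ j) ≤ ({ν} ∪ B).card := Finset.card_le_card hsub
      _ ≤ ({ν} : Finset ℕ).card + B.card := Finset.card_union_le _ _
      _ ≤ 1 + 1 := by rw [Finset.card_singleton]; omega
  · rw [if_neg hjac]
    have h1 := rho_good a b c hp hp2 hpa hpD
    have h2 : jacobiSym (b ^ 2 - 4 * a * c) p = -1 := by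
      rw [← jacobiSym.legendreSym.to_jacobiSym] at hjac ⊢
      have hD0 : ((b ^ 2 - 4 * a * c : ℤ) : ZMod p) ≠ 0 := by
        rw [Ne, ZMod.intCast_zmod_eq_zero_iff_dvd]; exact hpD
      exact (legendreSym.eq_one_or_neg_one p hD0).resolve_left hjac
    rw [h2] at h1
    have h3 : rho a b c p = 0 := by
      have : (rho a b c p : ℤ) ≤ 0 := by linarith
      omega
    rw [Nat.le_zero]
    unfold rho at h3 ⊢
    rw [Finset.card_eq_zero, Finset.filter_eq_empty_iff] at h3 ⊢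
    intro ν _ hν
    have h4 := hdvd.trans hν
    refine h3 (x := ν % p) (Finset.mem_range.2 (Nat.mod_lt _ hp.pos)) ?_
    exact dvd_congr (dvd_sub_mod p ν) h4

theorem rho_le_rr (a b c : ℤ) (ha : a ≠ 0) (hD : b ^ 2 - 4 * a * c ≠ 0) (n : ℕ) (hn : n ≠ 0) :
    rho a b c n ≤ rr a b c n := by
  classical
  induction n using Nat.recOnPosPrimePosCoprime with
  | zero => exact absurd rfl hn
  | one => rw [rho_one, rr_one]
  | prime_pow p k hp hk =>
    rw [rr_pow hp hk.ne']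
    unfold rp
    by_cases hW : (p : ℤ) ∣ 4 * a * (b ^ 2 - 4 * a * c)
    · rw [if_pos hW]
      exact rho_pp a b c ha hD hp k
    · rw [if_neg hW]
      exact rho_good_pow a b c hp hW hk.ne'
  | coprime m k hm hk hmk ihm ihk =>
    rw [rr_coprime hmk]
    exact (rho_mul_le a b c (by omega) (by omega) hmk).trans
      (Nat.mul_le_mul (ihm (by omega)) (ihk (by omega)))

theorem rp_le (a b c : ℤ) (hD : b ^ 2 - 4 * a * c ≠ 0) (p : ℕ) : rp a b c p ≤ RR a b c + 2 := by
  unfold rp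
  split_ifs <;> omega

/-- Mertens for the majorant -/
theorem rp_mertens (a b c : ℤ) (ha : a ≠ 0) [NeZero (b ^ 2 - 4 * a * c)]
    (hk : kro (b ^ 2 - 4 * a * c) ≠ 1) :
    ∃ C : ℝ, 0 ≤ C ∧ ∀ X : ℕ, 2 ≤ X → ∑ p ∈ (Finset.Icc 1 X).filter Nat.Prime,
      (rp a b c p : ℝ) / p ≤ Real.log (Real.log X) + C := by
  classical
  have hD : b ^ 2 - 4 * a * c ≠ 0 := NeZero.ne _
  obtain ⟨C1, hC1, h1⟩ := merG_7 1 one_pos 1 (Nat.coprime_one_right 1)
  obtain ⟨B, hB0, hB⟩ := MRSG.H7.sum_chi_p hk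
  set W : ℕ := (4 * a * (b ^ 2 - 4 * a * c)).natAbs with hW
  have hW0 : W ≠ 0 := by
    rw [hW, Int.natAbs_ne_zero]
    exact mul_ne_zero (mul_ne_zero (by norm_num) ha) hD
  refine ⟨(C1 + 3) + B + RR a b c * W.primeFactors.card, by positivity, fun X hX => ?_⟩
  have hXR : (2 : ℝ) ≤ X := by exact_mod_cast hX
  have hterm : ∀ p ∈ (Finset.Icc 1 X).filter Nat.Prime, (rp a b c p : ℝ) / p ≤
      (1 / (p : ℝ) + (kro (b ^ 2 - 4 * a * c)
        (p : ZMod (4 * (b ^ 2 - 4 * a * c).natAbs)) / p).re) +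
        (if p ∣ W then (RR a b c : ℝ) else 0) := by
    intro p hp
    rw [Finset.mem_filter, Finset.mem_Icc] at hp
    haveI : Fact p.Prime := ⟨hp.2⟩
    have hp0 : (0 : ℝ) < p := by exact_mod_cast hp.2.pos
    have hre : (kro (b ^ 2 - 4 * a * c) (p : ZMod (4 * (b ^ 2 - 4 * a * c).natAbs)) / p).re =
        (kro (b ^ 2 - 4 * a * c) (p : ZMod (4 * (b ^ 2 - 4 * a * c).natAbs))).re / p := by
      rw [Complex.div_natCast_re]
    have hnn : 0 ≤ 1 / (p : ℝ) + (kro (b ^ 2 - 4 * a * c)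
        (p : ZMod (4 * (b ^ 2 - 4 * a * c).natAbs)) / p).re := by
      rw [hre, ← add_div]
      apply div_nonneg _ hp0.le
      have h2 : ‖kro (b ^ 2 - 4 * a * c) (p : ZMod (4 * (b ^ 2 - 4 * a * c).natAbs))‖ ≤ 1 :=
        DirichletCharacter.norm_le_one _ _
      have h3 := (abs_le.1 ((Complex.abs_re_le_norm _).trans h2)).1
      linarith
    by_cases hpW : p ∣ W
    · rw [if_pos hpW]
      have hpW' : (p : ℤ) ∣ 4 * a * (b ^ 2 - 4 * a * c) := by
        rw [Int.natCast_dvd]; exact hpW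
      have h2 : (rp a b c p : ℝ) / p ≤ RR a b c := by
        unfold rp
        rw [if_pos hpW']
        apply div_le_self (Nat.cast_nonneg _)
        exact_mod_cast hp.2.one_lt.le
      linarith
    · rw [if_neg hpW, add_zero]
      have hpW' : ¬ (p : ℤ) ∣ 4 * a * (b ^ 2 - 4 * a * c) := by
        rw [Int.natCast_dvd]; exact hpW
      have hpD : ¬ (p : ℤ) ∣ b ^ 2 - 4 * a * c := fun h => hpW' (h.mul_left _)
      have hp4 : ¬ (p : ℤ) ∣ 4 := fun h => hpW' ((h.mul_right a).mul_right _)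
      have hcop : Nat.Coprime p (4 * (b ^ 2 - 4 * a * c).natAbs) := by
        rw [hp.2.coprime_iff_not_dvd]
        intro h
        rcases (hp.2.dvd_mul).1 h with h4 | h4
        · exact hp4 (by exact_mod_cast h4)
        · exact hpD (by rw [Int.natCast_dvd]; exact h4)
      have hD0 : ((b ^ 2 - 4 * a * c : ℤ) : ZMod p) ≠ 0 := by
        rw [Ne, ZMod.intCast_zmod_eq_zero_iff_dvd]; exact hpD
      have hj : jacobiSym (b ^ 2 - 4 * a * c) p = 1 ∨ jacobiSym (b ^ 2 - 4 * a * c) p = -1 := by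
        rw [← jacobiSym.legendreSym.to_jacobiSym]
        exact legendreSym.eq_one_or_neg_one p hD0
      rw [hre, kro_nat (b ^ 2 - 4 * a * c) p hcop, Complex.intCast_re, ← add_div]
      apply div_le_div_of_nonneg_right _ hp0.le
      unfold rp
      rw [if_neg hpW']
      rcases hj with h | h
      · rw [h]; norm_num
      · rw [h]; norm_num
  have hsum1 : ∑ p ∈ (Finset.Icc 1 X).filter Nat.Prime, 1 / (p : ℝ) ≤
      Real.log (Real.log X) + (C1 + 3) := by
    have h2 := h1 2 (X + 1) le_rfl (by linarith)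
    have hset : PA7 1 1 2 ((X : ℝ) + 1) = (Finset.Icc 1 X).filter Nat.Prime := by
      ext p
      rw [mem_PA7, Finset.mem_filter, Finset.mem_Icc]
      constructor
      · rintro ⟨hp, -, h2p, hpX⟩
        have : p < X + 1 := by exact_mod_cast hpX
        exact ⟨⟨hp.one_lt.le, by omega⟩, hp⟩
      · rintro ⟨⟨_, hpX⟩, hp⟩
        refine ⟨hp, Nat.modEq_one, by exact_mod_cast hp.two_le, ?_⟩
        have : (p : ℝ) ≤ X := by exact_mod_cast hpX
        linarith
    rw [hset] at h2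
    have h3 := (abs_le.1 h2).2
    have hlog2 : (0.6 : ℝ) < Real.log 2 := by
      have := Real.log_two_gt_d9
      linarith
    have hlogX : Real.log 2 ≤ Real.log X := Real.log_le_log (by norm_num) hXR
    have h4 : Real.log ((X : ℝ) + 1) ≤ 2 * Real.log X := by
      have h5 : (X : ℝ) + 1 ≤ X ^ 2 := by nlinarith
      calc Real.log ((X : ℝ) + 1) ≤ Real.log ((X : ℝ) ^ 2) := Real.log_le_log (by linarith) h5
        _ = 2 * Real.log X := by rw [Real.log_pow]; norm_num
    have h6 : Real.log (Real.log ((X : ℝ) + 1) / Real.log 2) ≤ Real.log (Real.log X) + 3 := by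
      have h7 : Real.log ((X : ℝ) + 1) / Real.log 2 ≤ 4 * Real.log X := by
        rw [div_le_iff₀ (by linarith)]
        nlinarith
      have h8 : 0 < Real.log ((X : ℝ) + 1) / Real.log 2 := by
        apply div_pos _ (by linarith)
        exact Real.log_pos (by linarith)
      calc Real.log (Real.log ((X : ℝ) + 1) / Real.log 2) ≤ Real.log (4 * Real.log X) :=
            Real.log_le_log h8 h7
        _ = Real.log 4 + Real.log (Real.log X) := Real.log_mul (by norm_num) (by linarith)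
        _ ≤ Real.log (Real.log X) + 3 := by
            have : Real.log 4 ≤ 3 := by
              have := Real.log_le_sub_one_of_pos (by norm_num : (0 : ℝ) < 4)
              linarith
            linarith
    have h9 : (1 / ((Nat.totient 1 : ℕ) : ℝ)) = 1 := by simp
    rw [h9, one_mul] at h3
    linarith
  have hsum2 : ∑ p ∈ (Finset.Icc 1 X).filter Nat.Prime,
      (kro (b ^ 2 - 4 * a * c) (p : ZMod (4 * (b ^ 2 - 4 * a * c).natAbs)) / p).re ≤ B := by
    have h2 := hB 1 X le_rfl (by omega)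
    have hset : (Finset.Ioc 1 X).filter Nat.Prime = (Finset.Icc 1 X).filter Nat.Prime := by
      ext p
      rw [Finset.mem_filter, Finset.mem_filter, Finset.mem_Ioc, Finset.mem_Icc]
      constructor
      · rintro ⟨⟨h, h'⟩, hp⟩
        exact ⟨⟨h.le, h'⟩, hp⟩
      · rintro ⟨⟨_, h'⟩, hp⟩
        exact ⟨⟨hp.one_lt, h'⟩, hp⟩
    rw [hset] at h2
    rw [← Complex.re_sum]
    exact (le_abs_self _).trans ((Complex.abs_re_le_norm _).trans h2)
  have hsum3 : ∑ p ∈ (Finset.Icc 1 X).filter Nat.Prime,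
      (if p ∣ W then (RR a b c : ℝ) else 0) ≤ RR a b c * W.primeFactors.card := by
    rw [← Finset.sum_filter, Finset.sum_const, nsmul_eq_mul, mul_comm]
    refine mul_le_mul_of_nonneg_left ?_ (Nat.cast_nonneg _)
    have : ((Finset.Icc 1 X).filter Nat.Prime).filter (fun p => p ∣ W) ⊆ W.primeFactors := by
      intro p hp
      rw [Finset.mem_filter, Finset.mem_filter] at hp
      exact Nat.mem_primeFactors.2 ⟨hp.1.2, hp.2, hW0⟩
    exact_mod_cast Finset.card_le_card this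
  have hA := Finset.sum_le_sum hterm
  rw [Finset.sum_add_distrib, Finset.sum_add_distrib] at hA
  have hB2 := hA.trans (add_le_add (add_le_add hsum1 hsum2) hsum3)
  linarith only [hB2]

/-- the weight `r n * x ^ Ω n` -/
noncomputable def hx (a b c : ℤ) (x : ℝ) (n : ℕ) : ℝ :=
  (rr a b c n : ℝ) * x ^ (ArithmeticFunction.cardFactors n)

theorem hx_nonneg (a b c : ℤ) {x : ℝ} (hx0 : 0 ≤ x) (n : ℕ) : 0 ≤ hx a b c x n := by
  unfold hx; positivity

theorem hx_mul (a b c : ℤ) {x : ℝ} (hx0 : 0 ≤ x) {m n : ℕ} (hm : m ≠ 0) (hn : n ≠ 0) :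
    hx a b c x (m * n) ≤ hx a b c x m * hx a b c x n := by
  unfold hx
  rw [ArithmeticFunction.cardFactors_mul hm hn, pow_add]
  have h1 : (rr a b c (m * n) : ℝ) ≤ rr a b c m * rr a b c n := by
    exact_mod_cast rr_mul hm hn
  calc (rr a b c (m * n) : ℝ) * (x ^ ArithmeticFunction.cardFactors m *
        x ^ ArithmeticFunction.cardFactors n)
      ≤ (rr a b c m * rr a b c n) * (x ^ ArithmeticFunction.cardFactors m *
        x ^ ArithmeticFunction.cardFactors n) := mul_le_mul_of_nonneg_right h1 (by positivity)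
    _ = _ := by ring

theorem hx_sub (a b c : ℤ) {x : ℝ} (hx0 : 0 ≤ x) : Sub (hx a b c x) where
  nonneg := hx_nonneg a b c hx0
  one := by
    unfold hx
    rw [rr_one, ArithmeticFunction.cardFactors_one]
    norm_num
  mul := fun m n hm hn _ => hx_mul a b c hx0 hm.ne' hn.ne'

theorem hx_pp (a b c : ℤ) (hD : b ^ 2 - 4 * a * c ≠ 0) {x : ℝ} (hx0 : 0 ≤ x) (hx1 : x ≤ 3 / 2)
    (p v : ℕ) (hp : p.Prime) (hv : 1 ≤ v) :
    hx a b c x (p ^ v) ≤ ((RR a b c + 2 : ℕ) : ℝ) * (3 / 2) ^ v := by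
  unfold hx
  rw [rr_pow hp (by omega), ArithmeticFunction.cardFactors_apply_prime_pow hp]
  have h1 : (rp a b c p : ℝ) ≤ ((RR a b c + 2 : ℕ) : ℝ) := by exact_mod_cast rp_le a b c hD p
  exact mul_le_mul h1 (pow_le_pow_left₀ hx0 hx1 v) (by positivity) (Nat.cast_nonneg _)

/-- the mean of the weight -/
theorem hx_mean (a b c : ℤ) (ha : a ≠ 0) [NeZero (b ^ 2 - 4 * a * c)]
    (hk : kro (b ^ 2 - 4 * a * c) ≠ 1) {x : ℝ} (hx0 : 0 ≤ x) (hx1 : x ≤ 3 / 2) :
    ∃ C : ℝ, 0 < C ∧ ∀ X : ℕ, 2 ≤ X →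
      ∑ n ∈ Finset.Icc 1 X, hx a b c x n ≤ C * X * Real.log X ^ (x - 1) := by
  have hD : b ^ 2 - 4 * a * c ≠ 0 := NeZero.ne _
  obtain ⟨C1, hC1, h1⟩ := rp_mertens a b c ha hk
  refine mean64 (hx_sub a b c hx0) _ (Nat.cast_nonneg _)
    (fun p v hp hv => hx_pp a b c hD hx0 hx1 p v hp hv) x (x * C1) fun X hX => ?_
  have h2 : ∀ p ∈ (Finset.Icc 1 X).filter Nat.Prime, hx a b c x p / p =
      x * ((rp a b c p : ℝ) / p) := by
    intro p hp
    rw [Finset.mem_filter] at hp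
    have h3 := rr_pow (a := a) (b := b) (c := c) hp.2 one_ne_zero
    rw [pow_one] at h3
    unfold hx
    rw [h3, ArithmeticFunction.cardFactors_apply_prime hp.2, pow_one]
    ring
  rw [Finset.sum_congr rfl h2, ← Finset.mul_sum]
  have h3 := mul_le_mul_of_nonneg_left (h1 X hX) hx0
  linarith

end U64

end Pool.Agent.Lib.MP_a17b09_nt.UW
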