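import Pool.Agent.Lib.MP_a17b09_nt.MRSG.NugB12
import Pool.Agent.Lib.MP_a17b09_nt.UW.HT3

/-!
MP_a17b09_nt, unweighted corollary (helper3): the number of roots of a quadratic polynomial modulo
`n`, weighted by a power of the number of divisors.
-/

set_option autoImplicit false

open Finset

namespace Pool.Agent.Lib.MP_a17b09_nt.UW

open Pool.Agent.Lib.MP_a17b09_nt.MRSG.NugA12 (kro kro_nat)
open Pool.Agent.Lib.MP_a17b09_nt.MRSG (PA7 mem_PA7 merG_7)

/-- the number of roots modulo `n` -/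
def rho (a b c : ℤ) (n : ℕ) : ℕ :=
  ((Finset.range n).filter (fun ν : ℕ => (n : ℤ) ∣ a * (ν : ℤ) ^ 2 + b * ν + c)).card

theorem dvd_congr {a b c n x y : ℤ} (h : n ∣ x - y) (hx : n ∣ a * x ^ 2 + b * x + c) :
    n ∣ a * y ^ 2 + b * y + c := by
  have h1 : a * y ^ 2 + b * y + c = (a * x ^ 2 + b * x + c) - (x - y) * (a * (x + y) + b) := by
    ring
  rw [h1]
  exact dvd_sub hx (h.mul_right _)

theorem dvd_sub_mod (n x : ℕ) : (n : ℤ) ∣ (x : ℤ) - ((x % n : ℕ) : ℤ) := by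
  rw [Int.natCast_mod]
  exact Int.dvd_self_sub_emod

theorem rho_le (a b c : ℤ) (n : ℕ) : rho a b c n ≤ n := by
  unfold rho
  exact (Finset.card_filter_le _ _).trans (by rw [Finset.card_range])

theorem rho_one (a b c : ℤ) : rho a b c 1 = 1 := by
  unfold rho
  simp

theorem rho_mul_le (a b c : ℤ) {m n : ℕ} (hm : 0 < m) (hn : 0 < n) (hmn : Nat.Coprime m n) :
    rho a b c (m * n) ≤ rho a b c m * rho a b c n := by
  unfold rho
  rw [← Finset.card_product]
  refine Finset.card_le_card_of_injOn (fun ν => (ν % m, ν % n)) ?_ ?_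
  · intro ν hν
    rw [Finset.mem_coe, Finset.mem_filter] at hν
    rw [Finset.mem_coe, Finset.mem_product, Finset.mem_filter, Finset.mem_filter,
      Finset.mem_range, Finset.mem_range]
    have h1 : (m : ℤ) ∣ a * (ν : ℤ) ^ 2 + b * ν + c :=
      (Int.natCast_dvd_natCast.2 (Dvd.intro n rfl)).trans hν.2
    have h2 : (n : ℤ) ∣ a * (ν : ℤ) ^ 2 + b * ν + c :=
      (Int.natCast_dvd_natCast.2 (Dvd.intro_left m rfl)).trans hν.2
    exact ⟨⟨Nat.mod_lt _ hm, dvd_congr (dvd_sub_mod m ν) h1⟩, Nat.mod_lt _ hn,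
      dvd_congr (dvd_sub_mod n ν) h2⟩
  · intro ν hν μ hμ heq
    rw [Finset.mem_coe, Finset.mem_filter, Finset.mem_range] at hν hμ
    have e1 : ν % m = μ % m := congrArg Prod.fst heq
    have e2 : ν % n = μ % n := congrArg Prod.snd heq
    have h1 : ν ≡ μ [MOD m * n] := (Nat.modEq_and_modEq_iff_modEq_mul hmn).1 ⟨e1, e2⟩
    exact Nat.ModEq.eq_of_lt_of_lt h1 hν.1 hμ.1

/-- counting in an arithmetic progression -/
theorem cnt_ap (q k : ℕ) (hq : 0 < q) (x : ℤ) :
    ((Finset.range (q * k)).filter (fun μ : ℕ => (q : ℤ) ∣ (μ : ℤ) - x)).card ≤ k := by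
  calc ((Finset.range (q * k)).filter (fun μ : ℕ => (q : ℤ) ∣ (μ : ℤ) - x)).card
      ≤ (Finset.range k).card := by
        refine Finset.card_le_card_of_injOn (fun μ => μ / q) ?_ ?_
        · intro μ hμ
          rw [Finset.mem_coe, Finset.mem_filter, Finset.mem_range] at hμ
          rw [Finset.mem_coe, Finset.mem_range]
          exact Nat.div_lt_of_lt_mul hμ.1
        · intro μ hμ ν hν heq
          rw [Finset.mem_coe, Finset.mem_filter, Finset.mem_range] at hμ hν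
          have h1 : (q : ℤ) ∣ (μ : ℤ) - ν := by
            have := dvd_sub hμ.2 hν.2
            rwa [sub_sub_sub_cancel_right] at this
          have h2 : ν % q = μ % q := (Nat.modEq_iff_dvd.2 h1)
          have h3 : μ / q = ν / q := heq
          rw [← Nat.div_add_mod μ q, ← Nat.div_add_mod ν q, h2, h3]
    _ = k := Finset.card_range k

theorem split_pow {p j : ℕ} (hp : p.Prime) {X Y : ℤ} (h : ((p ^ j : ℕ) : ℤ) ∣ X * Y) :
    ∃ i ≤ j, ((p ^ i : ℕ) : ℤ) ∣ X ∧ ((p ^ (j - i) : ℕ) : ℤ) ∣ Y := by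
  obtain ⟨u, v, hu, hv, huv⟩ := exists_dvd_and_dvd_of_dvd_mul h
  have h1 : p ^ j = u.natAbs * v.natAbs := by
    rw [← Int.natAbs_mul, ← huv, Int.natAbs_natCast]
  obtain ⟨i, hi, hui⟩ := (Nat.dvd_prime_pow hp).1 (Dvd.intro _ h1.symm)
  refine ⟨i, hi, ?_, ?_⟩
  · rw [← hui]
    exact Int.natAbs_dvd.2 hu
  · have h2 : v.natAbs = p ^ (j - i) := by
      have h3 : p ^ i * v.natAbs = p ^ i * p ^ (j - i) := by
        rw [← hui, ← h1, hui, ← pow_add, Nat.add_sub_cancel' hi]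
      exact Nat.eq_of_mul_eq_mul_left (pow_pos hp.pos _) h3
    rw [← h2]
    exact Int.natAbs_dvd.2 hv

/-- the number of roots modulo a prime power is bounded -/
theorem rho_pp (a b c : ℤ) (ha : a ≠ 0) (hD : b ^ 2 - 4 * a * c ≠ 0) {p : ℕ} (hp : p.Prime)
    (j : ℕ) : rho a b c (p ^ j) ≤ (b ^ 2 - 4 * a * c).natAbs * (1 + a.natAbs) := by
  set D : ℤ := b ^ 2 - 4 * a * c with hDd
  have hDn : D.natAbs ≠ 0 := Int.natAbs_ne_zero.2 hD
  have hDp : 0 < D.natAbs := Nat.pos_of_ne_zero hDn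
  have han : 0 < a.natAbs := Nat.pos_of_ne_zero (Int.natAbs_ne_zero.2 ha)
  set κ : ℕ := D.natAbs.factorization p with hκ
  have hκ1 : p ^ κ ∣ D.natAbs := Nat.ordProj_dvd _ _
  have hκ2 : ¬ p ^ (κ + 1) ∣ D.natAbs := Nat.pow_succ_factorization_not_dvd hDn hp
  have hκle : p ^ κ ≤ D.natAbs := Nat.le_of_dvd hDp hκ1
  rcases le_or_gt j κ with hj | hj
  · calc rho a b c (p ^ j) ≤ p ^ j := rho_le _ _ _ _
      _ ≤ p ^ κ := Nat.pow_le_pow_right hp.pos hj
      _ ≤ D.natAbs := hκle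
      _ ≤ D.natAbs * (1 + a.natAbs) := Nat.le_mul_of_pos_right _ (by omega)
  rcases ((Finset.range (p ^ j)).filter
    (fun ν : ℕ => ((p ^ j : ℕ) : ℤ) ∣ a * (ν : ℤ) ^ 2 + b * ν + c)).eq_empty_or_nonempty
    with h0 | ⟨ν, hν⟩
  · unfold rho
    rw [h0, Finset.card_empty]
    exact Nat.zero_le _
  rw [Finset.mem_filter, Finset.mem_range] at hν
  set q : ℕ := p ^ (j - κ) with hq
  have hqp : 0 < q := pow_pos hp.pos _
  have hqj : q * p ^ κ = p ^ j := by
    rw [hq, ← pow_add, Nat.sub_add_cancel hj.le]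
  have hdich : ∀ μ : ℕ, ((p ^ j : ℕ) : ℤ) ∣ a * (μ : ℤ) ^ 2 + b * μ + c →
      (q : ℤ) ∣ (μ : ℤ) - ν ∨ (q : ℤ) ∣ a * ((ν : ℤ) + μ) + b := by
    intro μ hμ
    have h1 : ((p ^ j : ℕ) : ℤ) ∣ ((μ : ℤ) - ν) * (a * ((ν : ℤ) + μ) + b) := by
      have h2 := dvd_sub hμ hν.2
      have h3 : (a * (μ : ℤ) ^ 2 + b * μ + c) - (a * (ν : ℤ) ^ 2 + b * ν + c) =
          ((μ : ℤ) - ν) * (a * ((ν : ℤ) + μ) + b) := by ring
      rwa [h3] at h2
    obtain ⟨i, hi, hX, hY⟩ := split_pow hp h1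
    by_cases h4 : j - κ ≤ i
    · left
      exact (Int.natCast_dvd_natCast.2 (pow_dvd_pow p h4)).trans hX
    by_cases h5 : i ≤ κ
    · right
      exact (Int.natCast_dvd_natCast.2 (pow_dvd_pow p (by omega : j - κ ≤ j - i))).trans hY
    exfalso
    apply hκ2
    rw [← Int.natCast_dvd]
    have hX' : ((p ^ (κ + 1) : ℕ) : ℤ) ∣ (μ : ℤ) - ν :=
      (Int.natCast_dvd_natCast.2 (pow_dvd_pow p (by omega))).trans hX
    have hY' : ((p ^ (κ + 1) : ℕ) : ℤ) ∣ a * ((ν : ℤ) + μ) + b :=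
      (Int.natCast_dvd_natCast.2 (pow_dvd_pow p (by omega))).trans hY
    have hN' : ((p ^ (κ + 1) : ℕ) : ℤ) ∣ a * (ν : ℤ) ^ 2 + b * ν + c :=
      (Int.natCast_dvd_natCast.2 (pow_dvd_pow p (by omega))).trans hν.2
    have h6 : D = (2 * a * ν + b) * ((a * ((ν : ℤ) + μ) + b) - a * ((μ : ℤ) - ν)) -
        4 * a * (a * (ν : ℤ) ^ 2 + b * ν + c) := by
      rw [hDd]; ring
    rw [h6]
    exact dvd_sub ((dvd_sub hY' (hX'.mul_left a)).mul_left _) (hN'.mul_left _)
  set A : Finset ℕ := (Finset.range (p ^ j)).filter (fun μ : ℕ => (q : ℤ) ∣ (μ : ℤ) - ν) with hA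
  set B : Finset ℕ := (Finset.range (p ^ j)).filter
    (fun μ : ℕ => (q : ℤ) ∣ a * ((ν : ℤ) + μ) + b) with hB
  have hsub : (Finset.range (p ^ j)).filter
      (fun ν : ℕ => ((p ^ j : ℕ) : ℤ) ∣ a * (ν : ℤ) ^ 2 + b * ν + c) ⊆ A ∪ B := by
    intro μ hμ
    rw [Finset.mem_filter] at hμ
    rw [Finset.mem_union, hA, hB, Finset.mem_filter, Finset.mem_filter]
    rcases hdich μ hμ.2 with h | h
    · exact Or.inl ⟨hμ.1, h⟩
    · exact Or.inr ⟨hμ.1, h⟩
  have hAc : A.card ≤ p ^ κ := by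
    rw [hA, ← hqj]
    exact cnt_ap q (p ^ κ) hqp ν
  have hBc : B.card ≤ a.natAbs * p ^ κ := by
    rcases B.eq_empty_or_nonempty with h0 | ⟨μ₀, hμ₀⟩
    · rw [h0, Finset.card_empty]
      exact Nat.zero_le _
    set g : ℕ := Nat.gcd a.natAbs q with hg
    have hgp : 0 < g := Nat.gcd_pos_of_pos_left _ han
    have hgle : g ≤ a.natAbs := Nat.le_of_dvd han (Nat.gcd_dvd_left _ _)
    obtain ⟨q', hq'⟩ : g ∣ q := Nat.gcd_dvd_right _ _
    obtain ⟨a', ha'⟩ : g ∣ a.natAbs := Nat.gcd_dvd_left _ _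
    have hq'p : 0 < q' := Nat.pos_of_ne_zero (by rintro rfl; rw [mul_zero] at hq'; omega)
    have hcop : Nat.Coprime q' a' := by
      have h1 := Nat.coprime_div_gcd_div_gcd (m := a.natAbs) (n := q) hgp
      rw [← hg] at h1
      have h2 : a.natAbs / g = a' := by rw [ha']; exact Nat.mul_div_cancel_left _ hgp
      have h3 : q / g = q' := by rw [hq']; exact Nat.mul_div_cancel_left _ hgp
      rw [h2, h3] at h1
      exact h1.symm
    rw [hB, Finset.mem_filter] at hμ₀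
    have hsub2 : B ⊆ (Finset.range (q' * (g * p ^ κ))).filter
        (fun μ : ℕ => (q' : ℤ) ∣ (μ : ℤ) - (μ₀ : ℤ)) := by
      intro μ hμ
      rw [hB, Finset.mem_filter] at hμ
      rw [Finset.mem_filter]
      constructor
      · have h1 : q' * (g * p ^ κ) = p ^ j := by
          rw [← hqj, hq']; ring
        rw [h1]
        exact hμ.1
      · have h1 : (q : ℤ) ∣ a * ((μ : ℤ) - μ₀) := by
          have := dvd_sub hμ.2 hμ₀.2
          have h2 : (a * ((ν : ℤ) + μ) + b) - (a * ((ν : ℤ) + μ₀) + b) = a * ((μ : ℤ) - μ₀) := by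
            ring
          rwa [h2] at this
        rw [Int.natCast_dvd, Int.natAbs_mul, hq', ha'] at h1
        rw [mul_assoc] at h1
        have h2 := Nat.dvd_of_mul_dvd_mul_left hgp h1
        rw [Int.natCast_dvd]
        exact (Nat.Coprime.dvd_mul_left hcop).1 h2
    calc B.card ≤ _ := Finset.card_le_card hsub2
      _ ≤ g * p ^ κ := cnt_ap q' (g * p ^ κ) hq'p μ₀
      _ ≤ a.natAbs * p ^ κ := Nat.mul_le_mul_right _ hgle
  calc rho a b c (p ^ j) ≤ (A ∪ B).card := Finset.card_le_card hsub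
    _ ≤ A.card + B.card := Finset.card_union_le _ _
    _ ≤ p ^ κ + a.natAbs * p ^ κ := add_le_add hAc hBc
    _ = p ^ κ * (1 + a.natAbs) := by ring
    _ ≤ D.natAbs * (1 + a.natAbs) := Nat.mul_le_mul_right _ hκle

/-- good primes -/
theorem rho_good (a b c : ℤ) {p : ℕ} (hp : p.Prime) (hp2 : p ≠ 2) (hpa : ¬ (p : ℤ) ∣ a)
    (hpD : ¬ (p : ℤ) ∣ b ^ 2 - 4 * a * c) :
    (rho a b c p : ℤ) ≤ 1 + jacobiSym (b ^ 2 - 4 * a * c) p := by
  classical
  haveI : Fact p.Prime := ⟨hp⟩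
  rw [← jacobiSym.legendreSym.to_jacobiSym]
  have ha0 : (a : ZMod p) ≠ 0 := by
    rw [Ne, ZMod.intCast_zmod_eq_zero_iff_dvd]; exact hpa
  have hD0 : ((b ^ 2 - 4 * a * c : ℤ) : ZMod p) ≠ 0 := by
    rw [Ne, ZMod.intCast_zmod_eq_zero_iff_dvd]; exact hpD
  have key : ∀ ν : ℕ, (p : ℤ) ∣ a * (ν : ℤ) ^ 2 + b * ν + c ↔
      (a : ZMod p) * (ν : ZMod p) ^ 2 + (b : ZMod p) * (ν : ZMod p) + (c : ZMod p) = 0 := by
    intro ν
    rw [← ZMod.intCast_zmod_eq_zero_iff_dvd]
    push_cast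
    rfl
  rcases legendreSym.eq_one_or_neg_one p hD0 with h1 | h1
  · rw [h1]
    have h2 : rho a b c p ≤ ((Finset.univ : Finset (ZMod p)).filter
        (fun x => (a : ZMod p) * x ^ 2 + (b : ZMod p) * x + (c : ZMod p) = 0)).card := by
      unfold rho
      refine Finset.card_le_card_of_injOn (fun ν : ℕ => (ν : ZMod p)) ?_ ?_
      · intro ν hν
        rw [Finset.mem_coe, Finset.mem_filter] at hν
        rw [Finset.mem_coe, Finset.mem_filter]
        exact ⟨Finset.mem_univ _, (key ν).1 hν.2⟩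
      · intro ν hν μ hμ heq
        rw [Finset.mem_coe, Finset.mem_filter, Finset.mem_range] at hν hμ
        have h3 := (ZMod.natCast_eq_natCast_iff _ _ _).1 heq
        exact Nat.ModEq.eq_of_lt_of_lt h3 hν.1 hμ.1
    have h3 := MRSG.NugB12.two_roots (a : ZMod p) b c ha0
    have h4 : rho a b c p ≤ 2 := h2.trans h3
    have : (rho a b c p : ℤ) ≤ 2 := by exact_mod_cast h4
    linarith
  · rw [h1]
    have h2 : rho a b c p = 0 := by
      unfold rho
      rw [Finset.card_eq_zero, Finset.filter_eq_empty_iff]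
      intro ν _ hν
      rw [legendreSym.eq_neg_one_iff] at h1
      apply h1
      have h3 := (key ν).1 hν
      refine ⟨2 * (a : ZMod p) * ν + b, ?_⟩
      push_cast
      linear_combination (-4 * (a : ZMod p)) * h3
    rw [h2]
    norm_num

/-- Mertens for the roots -/
theorem rho_mertens (a b c : ℤ) (ha : a ≠ 0) [NeZero (b ^ 2 - 4 * a * c)]
    (hk : kro (b ^ 2 - 4 * a * c) ≠ 1) :
    ∃ C : ℝ, 0 ≤ C ∧ ∀ X : ℕ, 2 ≤ X → ∑ p ∈ (Finset.Icc 1 X).filter Nat.Prime,
      (rho a b c p : ℝ) / p ≤ Real.log (Real.log X) + C := by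
  classical
  set D : ℤ := b ^ 2 - 4 * a * c with hDd
  have hD : D ≠ 0 := NeZero.ne D
  obtain ⟨C1, hC1, h1⟩ := merG_7 1 one_pos 1 (Nat.coprime_one_right 1)
  obtain ⟨B, hB0, hB⟩ := MRSG.H7.sum_chi_p hk
  set W : ℕ := (4 * a * D).natAbs with hW
  have hW0 : W ≠ 0 := by
    rw [hW, Int.natAbs_ne_zero]
    exact mul_ne_zero (mul_ne_zero (by norm_num) ha) hD
  refine ⟨(C1 + 3) + B + W.primeFactors.card, by positivity, fun X hX => ?_⟩
  have hXR : (2 : ℝ) ≤ X := by exact_mod_cast hX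
  have hterm : ∀ p ∈ (Finset.Icc 1 X).filter Nat.Prime, (rho a b c p : ℝ) / p ≤
      (1 / (p : ℝ) + (kro D (p : ZMod (4 * D.natAbs)) / p).re) +
        (if p ∣ W then 1 else 0) := by
    intro p hp
    rw [Finset.mem_filter, Finset.mem_Icc] at hp
    have hp0 : (0 : ℝ) < p := by exact_mod_cast hp.2.pos
    have hre : (kro D (p : ZMod (4 * D.natAbs)) / p).re =
        (kro D (p : ZMod (4 * D.natAbs))).re / p := by
      rw [Complex.div_natCast_re]
    have hnn : 0 ≤ 1 / (p : ℝ) + (kro D (p : ZMod (4 * D.natAbs)) / p).re := by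
      rw [hre, ← add_div]
      apply div_nonneg _ hp0.le
      have h2 : ‖kro D (p : ZMod (4 * D.natAbs))‖ ≤ 1 := DirichletCharacter.norm_le_one _ _
      have h3 := (abs_le.1 ((Complex.abs_re_le_norm _).trans h2)).1
      linarith
    by_cases hpW : p ∣ W
    · rw [if_pos hpW]
      have h2 : (rho a b c p : ℝ) / p ≤ 1 := by
        rw [div_le_one hp0]
        exact_mod_cast rho_le a b c p
      linarith
    · rw [if_neg hpW, add_zero]
      have hpW' : ¬ (p : ℤ) ∣ 4 * a * D := by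
        rw [Int.natCast_dvd]; exact hpW
      have hpa : ¬ (p : ℤ) ∣ a := fun h => hpW' ((h.mul_left 4).mul_right D)
      have hpD : ¬ (p : ℤ) ∣ D := fun h => hpW' (h.mul_left _)
      have hp4 : ¬ (p : ℤ) ∣ 4 := fun h => hpW' ((h.mul_right a).mul_right D)
      have hp2 : p ≠ 2 := by
        rintro rfl
        exact hp4 (by norm_num)
      have hcop : Nat.Coprime p (4 * D.natAbs) := by
        rw [hp.2.coprime_iff_not_dvd]
        intro h
        rcases (hp.2.dvd_mul).1 h with h4 | h4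
        · exact hp4 (by exact_mod_cast h4)
        · exact hpD (by rw [Int.natCast_dvd]; exact h4)
      have h2 := rho_good a b c hp.2 hp2 hpa hpD
      rw [hre, kro_nat D p hcop, Complex.intCast_re, ← add_div]
      apply div_le_div_of_nonneg_right _ hp0.le
      exact_mod_cast h2
  have hsum1 : ∑ p ∈ (Finset.Icc 1 X).filter Nat.Prime, 1 / (p : ℝ) ≤
      Real.log (Real.log X) + (C1 + 3) := by
    have h2 := h1 2 (X + 1) le_rfl (by linarith)
    have hset : PA7 1 1 2 ((X : ℝ) + 1) = (Finset.Icc 1 X).filter Nat.Prime := by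
      ext p
      rw [mem_PA7, Finset.mem_filter, Finset.mem_Icc]
      constructor
      · rintro ⟨hp, -, h2p, hpX⟩
        have : p < X + 1 := by exact_mod_cast hpX
        exact ⟨⟨hp.one_lt.le, by omega⟩, hp⟩
      · rintro ⟨⟨_, hpX⟩, hp⟩
        refine ⟨hp, Nat.modEq_one, by exact_mod_cast hp.two_le, ?_⟩
        have : (p : ℝ) ≤ X := by exact_mod_cast hpX
        linarith
    rw [hset] at h2
    have h3 := (abs_le.1 h2).2
    have hlog2 : (0.6 : ℝ) < Real.log 2 := by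
      have := Real.log_two_gt_d9
      linarith
    have hlogX : Real.log 2 ≤ Real.log X := Real.log_le_log (by norm_num) hXR
    have h4 : Real.log ((X : ℝ) + 1) ≤ 2 * Real.log X := by
      have h5 : (X : ℝ) + 1 ≤ X ^ 2 := by nlinarith
      calc Real.log ((X : ℝ) + 1) ≤ Real.log ((X : ℝ) ^ 2) := Real.log_le_log (by linarith) h5
        _ = 2 * Real.log X := by rw [Real.log_pow]; norm_num
    have h6 : Real.log (Real.log ((X : ℝ) + 1) / Real.log 2) ≤ Real.log (Real.log X) + 3 := by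
      have h7 : Real.log ((X : ℝ) + 1) / Real.log 2 ≤ 4 * Real.log X := by
        rw [div_le_iff₀ (by linarith)]
        nlinarith
      have h8 : 0 < Real.log ((X : ℝ) + 1) / Real.log 2 := by
        apply div_pos _ (by linarith)
        exact Real.log_pos (by linarith)
      calc Real.log (Real.log ((X : ℝ) + 1) / Real.log 2) ≤ Real.log (4 * Real.log X) :=
            Real.log_le_log h8 h7
        _ = Real.log 4 + Real.log (Real.log X) := Real.log_mul (by norm_num) (by linarith)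
        _ ≤ Real.log (Real.log X) + 3 := by
            have : Real.log 4 ≤ 3 := by
              have := Real.log_le_sub_one_of_pos (by norm_num : (0 : ℝ) < 4)
              linarith
            linarith
    have h9 : (1 / ((Nat.totient 1 : ℕ) : ℝ)) = 1 := by simp
    rw [h9, one_mul] at h3
    linarith
  have hsum2 : ∑ p ∈ (Finset.Icc 1 X).filter Nat.Prime,
      (kro D (p : ZMod (4 * D.natAbs)) / p).re ≤ B := by
    have h2 := hB 1 X le_rfl (by omega)
    have hset : (Finset.Ioc 1 X).filter Nat.Prime = (Finset.Icc 1 X).filter Nat.Prime := by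
      ext p
      rw [Finset.mem_filter, Finset.mem_filter, Finset.mem_Ioc, Finset.mem_Icc]
      constructor
      · rintro ⟨⟨h, h'⟩, hp⟩
        exact ⟨⟨h.le, h'⟩, hp⟩
      · rintro ⟨⟨_, h'⟩, hp⟩
        exact ⟨⟨hp.one_lt, h'⟩, hp⟩
    rw [hset] at h2
    rw [← Complex.re_sum]
    exact (le_abs_self _).trans ((Complex.abs_re_le_norm _).trans h2)
  have hsum3 : ∑ p ∈ (Finset.Icc 1 X).filter Nat.Prime, (if p ∣ W then (1 : ℝ) else 0) ≤
      W.primeFactors.card := by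
    rw [← Finset.sum_filter, Finset.sum_const, nsmul_eq_mul, mul_one]
    have : ((Finset.Icc 1 X).filter Nat.Prime).filter (fun p => p ∣ W) ⊆ W.primeFactors := by
      intro p hp
      rw [Finset.mem_filter, Finset.mem_filter] at hp
      exact Nat.mem_primeFactors.2 ⟨hp.1.2, hp.2, hW0⟩
    exact_mod_cast Finset.card_le_card this
  calc ∑ p ∈ (Finset.Icc 1 X).filter Nat.Prime, (rho a b c p : ℝ) / p
      ≤ ∑ p ∈ (Finset.Icc 1 X).filter Nat.Prime, ((1 / (p : ℝ) +
        (kro D (p : ZMod (4 * D.natAbs)) / p).re) + (if p ∣ W then 1 else 0)) :=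
        Finset.sum_le_sum hterm
    _ = ∑ p ∈ (Finset.Icc 1 X).filter Nat.Prime, 1 / (p : ℝ) +
        ∑ p ∈ (Finset.Icc 1 X).filter Nat.Prime, (kro D (p : ZMod (4 * D.natAbs)) / p).re +
        ∑ p ∈ (Finset.Icc 1 X).filter Nat.Prime, (if p ∣ W then (1 : ℝ) else 0) := by
        rw [Finset.sum_add_distrib, Finset.sum_add_distrib]
    _ ≤ (Real.log (Real.log X) + (C1 + 3)) + B + W.primeFactors.card :=
        add_le_add (add_le_add hsum1 hsum2) hsum3
    _ = Real.log (Real.log X) + ((C1 + 3) + B + W.primeFactors.card) := by ring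

end Pool.Agent.Lib.MP_a17b09_nt.UW
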