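import Pool.Agent.Lib.MP_a17b09_nt.UW.Rho3

/-!
MP_a17b09_nt, unweighted corollary (helper3): the sum of `rho n * (number of divisors) ^ δ`.
-/

set_option autoImplicit false

open Finset

namespace Pool.Agent.Lib.MP_a17b09_nt.UW

open Pool.Agent.Lib.MP_a17b09_nt.MRSG.NugA12 (kro kro_nat)

/-- the weight -/
noncomputable def hh (a b c : ℤ) (δ : ℝ) (n : ℕ) : ℝ :=
  (rho a b c n : ℝ) * ((n.divisors.card : ℕ) : ℝ) ^ δ

theorem hh_nonneg (a b c : ℤ) (δ : ℝ) (n : ℕ) : 0 ≤ hh a b c δ n := by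
  unfold hh; positivity

theorem hh_sub (a b c : ℤ) (δ : ℝ) : Sub (hh a b c δ) where
  nonneg := hh_nonneg a b c δ
  one := by
    unfold hh
    rw [rho_one, Nat.divisors_one, Finset.card_singleton, Nat.cast_one, Real.one_rpow]
    norm_num
  mul := by
    intro m n hm hn hmn
    unfold hh
    rw [hmn.card_divisors_mul, Nat.cast_mul, Real.mul_rpow (Nat.cast_nonneg _) (Nat.cast_nonneg _)]
    have h1 : (rho a b c (m * n) : ℝ) ≤ rho a b c m * rho a b c n := by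
      exact_mod_cast rho_mul_le a b c hm hn hmn
    calc (rho a b c (m * n) : ℝ) * (((m.divisors.card : ℕ) : ℝ) ^ δ * ((n.divisors.card : ℕ) : ℝ) ^ δ)
        ≤ (rho a b c m * rho a b c n) *
          (((m.divisors.card : ℕ) : ℝ) ^ δ * ((n.divisors.card : ℕ) : ℝ) ^ δ) :=
          mul_le_mul_of_nonneg_right h1 (by positivity)
      _ = _ := by ring

theorem hh_prime (a b c : ℤ) (δ : ℝ) {p : ℕ} (hp : p.Prime) :
    hh a b c δ p = (2 : ℝ) ^ δ * rho a b c p := by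
  unfold hh
  rw [hp.divisors, Finset.card_pair hp.one_lt.ne, mul_comm]
  norm_num

theorem hh_pp (a b c : ℤ) (ha : a ≠ 0) (hD : b ^ 2 - 4 * a * c ≠ 0) {δ : ℝ} (hδ : 0 ≤ δ)
    (hδ1 : δ ≤ 1) {p v : ℕ} (hp : p.Prime) :
    hh a b c δ (p ^ v) ≤ (((b ^ 2 - 4 * a * c).natAbs * (1 + a.natAbs) : ℕ) : ℝ) *
      ((v : ℝ) + 1) := by
  unfold hh
  have h1 : (rho a b c (p ^ v) : ℝ) ≤ (((b ^ 2 - 4 * a * c).natAbs * (1 + a.natAbs) : ℕ) : ℝ) := by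
    exact_mod_cast rho_pp a b c ha hD hp v
  have h2 : (((p ^ v).divisors.card : ℕ) : ℝ) = (v : ℝ) + 1 := by
    rw [Nat.divisors_prime_pow hp, Finset.card_map, Finset.card_range]
    push_cast; ring
  rw [h2]
  have h3 : ((v : ℝ) + 1) ^ δ ≤ (v : ℝ) + 1 := by
    calc ((v : ℝ) + 1) ^ δ ≤ ((v : ℝ) + 1) ^ (1 : ℝ) :=
          Real.rpow_le_rpow_of_exponent_le (by linarith [Nat.cast_nonneg (α := ℝ) v]) hδ1
      _ = (v : ℝ) + 1 := Real.rpow_one _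
  exact mul_le_mul h1 h3 (by positivity) (Nat.cast_nonneg _)

theorem geo2 (n : ℕ) : ∑ k ∈ Finset.range n, ((k : ℝ) + 3) / 2 ^ k = 8 - (2 * n + 8) / 2 ^ n := by
  induction n with
  | zero => norm_num
  | succ n ih =>
    rw [Finset.sum_range_succ, ih]
    push_cast
    field_simp
    ring

theorem tail_pp {p : ℕ} (hp : 2 ≤ p) (X : ℕ) :
    ∑ v ∈ Finset.Icc 2 X, ((v : ℝ) + 1) / (p : ℝ) ^ v ≤ 8 * ((p : ℝ) ^ 2)⁻¹ := by
  have hpR : (2 : ℝ) ≤ p := by exact_mod_cast hp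
  rw [← Finset.Ico_add_one_right_eq_Icc, Finset.sum_Ico_eq_sum_range]
  calc ∑ k ∈ Finset.range (X + 1 - 2), (((2 + k : ℕ) : ℝ) + 1) / (p : ℝ) ^ (2 + k)
      ≤ ∑ k ∈ Finset.range (X + 1 - 2), ((p : ℝ) ^ 2)⁻¹ * (((k : ℝ) + 3) / 2 ^ k) := by
        refine Finset.sum_le_sum fun k _ => ?_
        rw [pow_add]
        push_cast
        have h1 : (2 : ℝ) ^ k ≤ (p : ℝ) ^ k := pow_le_pow_left₀ (by norm_num) hpR k
        have h2 : (0 : ℝ) < 2 ^ k := by positivity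
        have h3 : (2 + (k : ℝ) + 1) / ((p : ℝ) ^ 2 * (p : ℝ) ^ k) =
            ((p : ℝ) ^ 2)⁻¹ * (((k : ℝ) + 3) / (p : ℝ) ^ k) := by
          rw [show (2 + (k : ℝ) + 1) = (k : ℝ) + 3 by ring]
          field_simp
        rw [h3]
        exact mul_le_mul_of_nonneg_left (div_le_div_of_nonneg_left (by positivity) h2 h1)
          (by positivity)
    _ = ((p : ℝ) ^ 2)⁻¹ * (8 - (2 * ((X + 1 - 2 : ℕ) : ℝ) + 8) / 2 ^ (X + 1 - 2)) := by
        rw [← Finset.mul_sum, geo2]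
    _ ≤ 8 * ((p : ℝ) ^ 2)⁻¹ := by
        have h1 : 0 ≤ (2 * ((X + 1 - 2 : ℕ) : ℝ) + 8) / 2 ^ (X + 1 - 2) := by positivity
        have h2 : 0 ≤ ((p : ℝ) ^ 2)⁻¹ := by positivity
        nlinarith

/-- the logarithmic sum -/
theorem log_sum (a b c : ℤ) (ha : a ≠ 0) [NeZero (b ^ 2 - 4 * a * c)]
    (hk : kro (b ^ 2 - 4 * a * c) ≠ 1) {δ : ℝ} (hδ : 0 ≤ δ) (hδ1 : δ ≤ 1) :
    ∃ C : ℝ, 0 < C ∧ ∀ X : ℕ, 2 ≤ X →
      ∑ n ∈ Finset.Icc 1 X, hh a b c δ n / n ≤ C * Real.log X ^ ((2 : ℝ) ^ δ) := by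
  have hD : b ^ 2 - 4 * a * c ≠ 0 := NeZero.ne _
  obtain ⟨C, hC0, hC⟩ := rho_mertens a b c ha hk
  set R : ℝ := (((b ^ 2 - 4 * a * c).natAbs * (1 + a.natAbs) : ℕ) : ℝ) with hR
  have hR0 : 0 ≤ R := Nat.cast_nonneg _
  refine ⟨Real.exp ((2 : ℝ) ^ δ * C + 8 * R), Real.exp_pos _, fun X hX => ?_⟩
  have hXR : (2 : ℝ) ≤ X := by exact_mod_cast hX
  have hlogX : 0 < Real.log X := Real.log_pos (by linarith)
  have h2δ : (0 : ℝ) ≤ (2 : ℝ) ^ δ := by positivity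
  refine (euler_all (hh_sub a b c δ) X).trans ?_
  have hterm : ∀ p ∈ (Finset.Icc 1 X).filter Nat.Prime,
      ∑ v ∈ Finset.Icc 1 X, hh a b c δ (p ^ v) / (p : ℝ) ^ v ≤
        (2 : ℝ) ^ δ * ((rho a b c p : ℝ) / p) + R * (8 * ((p : ℝ) ^ 2)⁻¹) := by
    intro p hp
    rw [Finset.mem_filter, Finset.mem_Icc] at hp
    have hsplit : Finset.Icc 1 X = insert 1 (Finset.Icc 2 X) := by
      ext v
      rw [Finset.mem_insert, Finset.mem_Icc, Finset.mem_Icc]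
      omega
    rw [hsplit, Finset.sum_insert (by rw [Finset.mem_Icc]; omega), pow_one, pow_one,
      hh_prime a b c δ hp.2, mul_div_assoc]
    refine add_le_add le_rfl ?_
    calc ∑ v ∈ Finset.Icc 2 X, hh a b c δ (p ^ v) / (p : ℝ) ^ v
        ≤ ∑ v ∈ Finset.Icc 2 X, R * (((v : ℝ) + 1) / (p : ℝ) ^ v) := by
          refine Finset.sum_le_sum fun v _ => ?_
          rw [← mul_div_assoc]
          exact div_le_div_of_nonneg_right (hh_pp a b c ha hD hδ hδ1 hp.2) (by positivity)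
      _ = R * ∑ v ∈ Finset.Icc 2 X, ((v : ℝ) + 1) / (p : ℝ) ^ v := by rw [Finset.mul_sum]
      _ ≤ R * (8 * ((p : ℝ) ^ 2)⁻¹) := mul_le_mul_of_nonneg_left (tail_pp hp.2.two_le X) hR0
  have hsq : ∑ p ∈ (Finset.Icc 1 X).filter Nat.Prime, ((p : ℝ) ^ 2)⁻¹ ≤ 1 := by
    have h1 : (Finset.Icc 1 X).filter Nat.Prime ⊆ Finset.Ioc 1 X := by
      intro p hp
      rw [Finset.mem_filter, Finset.mem_Icc] at hp
      rw [Finset.mem_Ioc]
      exact ⟨hp.2.one_lt, hp.1.2⟩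
    calc ∑ p ∈ (Finset.Icc 1 X).filter Nat.Prime, ((p : ℝ) ^ 2)⁻¹
        ≤ ∑ i ∈ Finset.Ioc 1 X, ((i : ℝ) ^ 2)⁻¹ :=
          Finset.sum_le_sum_of_subset_of_nonneg h1 (fun _ _ _ => by positivity)
      _ ≤ ((1 : ℕ) : ℝ)⁻¹ - ((X : ℕ) : ℝ)⁻¹ := sum_Ioc_inv_sq_le_sub one_ne_zero (by omega)
      _ ≤ 1 := by
          have : (0 : ℝ) ≤ ((X : ℕ) : ℝ)⁻¹ := by positivity
          rw [Nat.cast_one, inv_one]
          linarith
  calc ∏ p ∈ (Finset.Icc 1 X).filter Nat.Prime,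
        (1 + ∑ v ∈ Finset.Icc 1 X, hh a b c δ (p ^ v) / (p : ℝ) ^ v)
      ≤ ∏ p ∈ (Finset.Icc 1 X).filter Nat.Prime,
        Real.exp ((2 : ℝ) ^ δ * ((rho a b c p : ℝ) / p) + R * (8 * ((p : ℝ) ^ 2)⁻¹)) := by
        refine Finset.prod_le_prod (fun p _ => ?_) (fun p hp => ?_)
        · have : 0 ≤ ∑ v ∈ Finset.Icc 1 X, hh a b c δ (p ^ v) / (p : ℝ) ^ v :=
            Finset.sum_nonneg fun v _ => div_nonneg (hh_nonneg _ _ _ _ _) (by positivity)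
          linarith
        · have h1 := hterm p hp
          calc 1 + ∑ v ∈ Finset.Icc 1 X, hh a b c δ (p ^ v) / (p : ℝ) ^ v
              ≤ ((2 : ℝ) ^ δ * ((rho a b c p : ℝ) / p) + R * (8 * ((p : ℝ) ^ 2)⁻¹)) + 1 := by
                linarith
            _ ≤ _ := Real.add_one_le_exp _
    _ = Real.exp (∑ p ∈ (Finset.Icc 1 X).filter Nat.Prime,
        ((2 : ℝ) ^ δ * ((rho a b c p : ℝ) / p) + R * (8 * ((p : ℝ) ^ 2)⁻¹))) := by
        rw [Real.exp_sum]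
    _ ≤ Real.exp ((2 : ℝ) ^ δ * (Real.log (Real.log X) + C) + R * (8 * 1)) := by
        apply Real.exp_le_exp.2
        rw [Finset.sum_add_distrib, ← Finset.mul_sum, ← Finset.mul_sum, ← Finset.mul_sum]
        exact add_le_add (mul_le_mul_of_nonneg_left (hC X hX) h2δ)
          (mul_le_mul_of_nonneg_left (mul_le_mul_of_nonneg_left hsq (by norm_num)) hR0)
    _ = Real.exp ((2 : ℝ) ^ δ * C + 8 * R) * Real.log X ^ ((2 : ℝ) ^ δ) := by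
        rw [Real.rpow_def_of_pos hlogX, ← Real.exp_add]
        congr 1
        ring

/-- the sum itself -/
theorem sum_hh (a b c : ℤ) (ha : a ≠ 0) [NeZero (b ^ 2 - 4 * a * c)]
    (hk : kro (b ^ 2 - 4 * a * c) ≠ 1) {δ : ℝ} (hδ : 0 ≤ δ) (hδ1 : δ ≤ 1) :
    ∃ C : ℝ, 0 < C ∧ ∀ X : ℕ, 2 ≤ X →
      ∑ n ∈ Finset.Icc 1 X, hh a b c δ n ≤ C * X * Real.log X ^ ((2 : ℝ) ^ δ - 1) := by
  have hD : b ^ 2 - 4 * a * c ≠ 0 := NeZero.ne _
  obtain ⟨C, hC0, hC⟩ := log_sum a b c ha hk hδ hδ1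
  set R : ℝ := (((b ^ 2 - 4 * a * c).natAbs * (1 + a.natAbs) : ℕ) : ℝ) with hR
  have hR0 : 0 ≤ R := Nat.cast_nonneg _
  refine ⟨(1 + 1000 * R) * C, by positivity, fun X hX => ?_⟩
  have hXR : (2 : ℝ) ≤ X := by exact_mod_cast hX
  have hlogX : 0 < Real.log X := Real.log_pos (by linarith)
  have h1 := ht (hh_sub a b c δ) R hR0 (fun p v hp _ => hh_pp a b c ha hD hδ hδ1 hp) X (by omega)
  have h2 : (∑ n ∈ Finset.Icc 1 X, hh a b c δ n) * Real.log X ≤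
      (1 + 1000 * R) * X * (C * Real.log X ^ ((2 : ℝ) ^ δ)) :=
    h1.trans (mul_le_mul_of_nonneg_left (hC X hX) (by positivity))
  rw [Real.rpow_sub_one hlogX.ne', mul_div_assoc', le_div_iff₀ hlogX]
  calc _ ≤ _ := h2
    _ = _ := by ring

end Pool.Agent.Lib.MP_a17b09_nt.UW
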