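import Pool.Agent.Lib.MP_a17b09_nt.UW.Maj64

/-!
MP_a17b09_nt, unweighted corollary with exponent `log 2` (helper64): the number of pairs of divisors
in the same dyadic cell, on average over `d` with weight `r d * 2 ^ (-Ω d)`.
-/

set_option autoImplicit false

open Finset

namespace Pool.Agent.Lib.MP_a17b09_nt.UW

open Pool.Agent.Lib.MP_a17b09_nt.MRSG.NugA12 (kro)

namespace U64

/-- the number of pairs of divisors in the same dyadic cell -/
def TT (d : ℕ) : ℕ :=
  ((d.divisors ×ˢ d.divisors).filter (fun z => Nat.log 2 z.1 = Nat.log 2 z.2)).card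

theorem tau_le (n : ℕ) (hn : n ≠ 0) :
    n.divisors.card ≤ 2 ^ ArithmeticFunction.cardFactors n := by
  induction n using Nat.recOnPosPrimePosCoprime with
  | zero => exact absurd rfl hn
  | one => simp
  | prime_pow p k hp hk =>
    rw [Nat.divisors_prime_pow hp, Finset.card_map, Finset.card_range,
      ArithmeticFunction.cardFactors_apply_prime_pow hp]
    exact Nat.lt_two_pow_self
  | coprime m k hm hk hmk ihm ihk =>
    rw [hmk.card_divisors_mul, ArithmeticFunction.cardFactors_mul (by omega) (by omega), pow_add]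
    exact Nat.mul_le_mul (ihm (by omega)) (ihk (by omega))

/-- arithmetic and geometric mean over cells -/
theorem cell_am {A' B' : Type*} (A : Finset A') (B : Finset B') (f : A' → ℝ) (g : B' → ℝ)
    (ca : A' → ℕ) (cb : B' → ℕ) (J k : ℕ) (hA : ∀ a ∈ A, ca a < J) (hB : ∀ b ∈ B, cb b < J) :
    ∑ a ∈ A, ∑ b ∈ B, (if ca a ≤ cb b + k ∧ cb b ≤ ca a + k then f a * g b else 0) ≤
      (2 * k + 1) / 2 * (∑ j ∈ Finset.range J, (∑ a ∈ A.filter (fun a => ca a = j), f a) ^ 2 +
        ∑ j ∈ Finset.range J, (∑ b ∈ B.filter (fun b => cb b = j), g b) ^ 2) := by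
  classical
  set F : ℕ → ℝ := fun j => ∑ a ∈ A.filter (fun a => ca a = j), f a with hF
  set G : ℕ → ℝ := fun j => ∑ b ∈ B.filter (fun b => cb b = j), g b with hG
  have h1 : ∑ a ∈ A, ∑ b ∈ B, (if ca a ≤ cb b + k ∧ cb b ≤ ca a + k then f a * g b else 0) =
      ∑ i ∈ Finset.range J, ∑ j ∈ Finset.range J,
        (if i ≤ j + k ∧ j ≤ i + k then F i * G j else 0) := by
    rw [← Finset.sum_fiberwise_of_maps_to (g := ca) (t := Finset.range J)
      (fun a ha => Finset.mem_range.2 (hA a ha))]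
    refine Finset.sum_congr rfl fun i _ => ?_
    have h2 : ∀ a ∈ A.filter (fun a => ca a = i), ∑ b ∈ B,
        (if ca a ≤ cb b + k ∧ cb b ≤ ca a + k then f a * g b else 0) =
        ∑ j ∈ Finset.range J, (if i ≤ j + k ∧ j ≤ i + k then f a * G j else 0) := by
      intro a ha
      rw [Finset.mem_filter] at ha
      rw [← Finset.sum_fiberwise_of_maps_to (g := cb) (t := Finset.range J)
        (fun b hb => Finset.mem_range.2 (hB b hb))]
      refine Finset.sum_congr rfl fun j _ => ?_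
      have h3 : ∀ b ∈ B.filter (fun b => cb b = j),
          (if ca a ≤ cb b + k ∧ cb b ≤ ca a + k then f a * g b else 0) =
          (if i ≤ j + k ∧ j ≤ i + k then f a * g b else 0) := by
        intro b hb
        rw [Finset.mem_filter] at hb
        rw [ha.2, hb.2]
      rw [Finset.sum_congr rfl h3]
      split_ifs
      · rw [hG, Finset.mul_sum]
      · exact Finset.sum_const_zero
    rw [Finset.sum_congr rfl h2, Finset.sum_comm]
    refine Finset.sum_congr rfl fun j _ => ?_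
    split_ifs
    · rw [hF, Finset.sum_mul]
    · exact Finset.sum_const_zero
  rw [h1]
  have hcard : ∀ i : ℕ, (((Finset.range J).filter (fun j => i ≤ j + k ∧ j ≤ i + k)).card : ℝ) ≤
      2 * k + 1 := by
    intro i
    have h2 : (Finset.range J).filter (fun j => i ≤ j + k ∧ j ≤ i + k) ⊆
        Finset.Icc (i - k) (i + k) := by
      intro j hj
      rw [Finset.mem_filter] at hj
      rw [Finset.mem_Icc]
      omega
    have h3 := Finset.card_le_card h2
    rw [Nat.card_Icc] at h3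
    have h4 : ((Finset.range J).filter (fun j => i ≤ j + k ∧ j ≤ i + k)).card ≤ 2 * k + 1 := by
      omega
    exact_mod_cast h4
  have hle : ∑ i ∈ Finset.range J, ∑ j ∈ Finset.range J,
        (if i ≤ j + k ∧ j ≤ i + k then F i * G j else 0) ≤
      ∑ i ∈ Finset.range J, ∑ j ∈ Finset.range J,
        ((if i ≤ j + k ∧ j ≤ i + k then F i ^ 2 / 2 else 0) +
          (if i ≤ j + k ∧ j ≤ i + k then G j ^ 2 / 2 else 0)) := by
    refine Finset.sum_le_sum fun i _ => Finset.sum_le_sum fun j _ => ?_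
    split_ifs
    · nlinarith [sq_nonneg (F i - G j)]
    · norm_num
  refine hle.trans ?_
  simp_rw [Finset.sum_add_distrib]
  have hP : ∑ i ∈ Finset.range J, ∑ j ∈ Finset.range J,
      (if i ≤ j + k ∧ j ≤ i + k then F i ^ 2 / 2 else 0) ≤
      (2 * k + 1) / 2 * ∑ j ∈ Finset.range J, F j ^ 2 := by
    rw [Finset.mul_sum]
    refine Finset.sum_le_sum fun i _ => ?_
    rw [← Finset.sum_filter, Finset.sum_const, nsmul_eq_mul]
    have := mul_le_mul_of_nonneg_right (hcard i) (by positivity : 0 ≤ F i ^ 2 / 2)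
    linarith
  have hQ : ∑ i ∈ Finset.range J, ∑ j ∈ Finset.range J,
      (if i ≤ j + k ∧ j ≤ i + k then G j ^ 2 / 2 else 0) ≤
      (2 * k + 1) / 2 * ∑ j ∈ Finset.range J, G j ^ 2 := by
    rw [Finset.sum_comm, Finset.mul_sum]
    refine Finset.sum_le_sum fun j _ => ?_
    rw [← Finset.sum_filter, Finset.sum_const, nsmul_eq_mul]
    have h5 : (Finset.range J).filter (fun i => i ≤ j + k ∧ j ≤ i + k) =
        (Finset.range J).filter (fun i => j ≤ i + k ∧ i ≤ j + k) :=
      Finset.filter_congr fun i _ => and_comm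
    rw [h5]
    have := mul_le_mul_of_nonneg_right (hcard j) (by positivity : 0 ≤ G j ^ 2 / 2)
    linarith
  calc _ ≤ (2 * (k : ℝ) + 1) / 2 * ∑ j ∈ Finset.range J, F j ^ 2 +
        (2 * k + 1) / 2 * ∑ j ∈ Finset.range J, G j ^ 2 := add_le_add hP hQ
    _ = _ := by ring

/-- cells of the divisors -/
theorem sum_sq_le_TT (d J : ℕ) :
    ∑ j ∈ Finset.range J, (∑ _x ∈ d.divisors.filter (fun x => Nat.log 2 x = j), (1 : ℝ)) ^ 2 ≤
      TT d := by
  classical
  have h1 : ∀ j, (∑ _x ∈ d.divisors.filter (fun x => Nat.log 2 x = j), (1 : ℝ)) ^ 2 =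
      ((((d.divisors ×ˢ d.divisors).filter (fun z => Nat.log 2 z.1 = Nat.log 2 z.2)).filter
        (fun z => Nat.log 2 z.1 = j)).card : ℝ) := by
    intro j
    rw [Finset.sum_const, nsmul_eq_mul, mul_one, sq, ← Nat.cast_mul, ← Finset.card_product]
    congr 2
    ext z
    rw [Finset.mem_product, Finset.mem_filter, Finset.mem_filter, Finset.mem_filter,
      Finset.mem_filter, Finset.mem_product]
    constructor
    · rintro ⟨⟨h1, h2⟩, h3, h4⟩
      exact ⟨⟨⟨h1, h3⟩, h2.trans h4.symm⟩, h2⟩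
    · rintro ⟨⟨⟨h1, h3⟩, h5⟩, h2⟩
      exact ⟨⟨h1, h2⟩, h3, h5.symm.trans h2⟩
  rw [Finset.sum_congr rfl fun j _ => h1 j, ← Nat.cast_sum]
  unfold TT
  have h2 : ∑ j ∈ Finset.range J, (((d.divisors ×ˢ d.divisors).filter
      (fun z => Nat.log 2 z.1 = Nat.log 2 z.2)).filter (fun z => Nat.log 2 z.1 = j)).card ≤
      ((d.divisors ×ˢ d.divisors).filter (fun z => Nat.log 2 z.1 = Nat.log 2 z.2)).card := by
    rw [← Finset.card_biUnion]
    · apply Finset.card_le_card
      intro z hz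
      rw [Finset.mem_biUnion] at hz
      obtain ⟨j, -, hj⟩ := hz
      exact (Finset.mem_filter.1 hj).1
    · intro i _ j _ hij
      rw [Function.onFun, Finset.disjoint_left]
      intro z hz hz'
      rw [Finset.mem_filter] at hz hz'
      exact hij (hz.2.symm.trans hz'.2)
  exact_mod_cast h2

/-- cells of the two cofactors -/
theorem log_near {g u v : ℕ} (hg : 0 < g) (hu : 0 < u) (hv : 0 < v)
    (h : Nat.log 2 (g * u) = Nat.log 2 (g * v)) :
    Nat.log 2 u ≤ Nat.log 2 v + 1 ∧ Nat.log 2 v ≤ Nat.log 2 u + 1 := by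
  have key : ∀ u v : ℕ, 0 < u → 0 < v → Nat.log 2 (g * u) = Nat.log 2 (g * v) →
      Nat.log 2 u ≤ Nat.log 2 v + 1 := by
    intro u v hu hv h
    have h1 : 2 ^ Nat.log 2 (g * v) ≤ g * v :=
      Nat.pow_log_le_self 2 (Nat.mul_pos hg hv).ne'
    have h2 : g * u < 2 ^ (Nat.log 2 (g * u) + 1) := Nat.lt_pow_succ_log_self (by norm_num) _
    rw [h, pow_succ] at h2
    have h3 : g * u < g * (2 * v) := by
      calc g * u < 2 ^ Nat.log 2 (g * v) * 2 := h2
        _ ≤ (g * v) * 2 := Nat.mul_le_mul_right _ h1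
        _ = g * (2 * v) := by ring
    have h4 : u < 2 * v := Nat.lt_of_mul_lt_mul_left h3
    calc Nat.log 2 u ≤ Nat.log 2 (v * 2) := Nat.log_mono_right (by omega)
      _ = Nat.log 2 v + 1 := Nat.log_mul_base (by norm_num) hv.ne'
  exact ⟨key u v hu hv h, key v u hv hu h.symm⟩

/-- the combinatorial inequality -/
theorem comb (a b c : ℤ) (X : ℕ) :
    ∑ d ∈ Finset.Icc 1 X, hx a b c (1 / 2) d * TT d ≤
      ∑ u ∈ Finset.Icc 1 X, ∑ v ∈ Finset.Icc 1 X,
        (if Nat.log 2 u ≤ Nat.log 2 v + 1 ∧ Nat.log 2 v ≤ Nat.log 2 u + 1 then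
          hx a b c (1 / 2) u * hx a b c (1 / 2) v * ∑ m ∈ Finset.Icc 1 (X / (u * v)),
            (rr a b c m : ℝ) else 0) := by
  classical
  have hn := fun n => hx_nonneg a b c (by norm_num : (0 : ℝ) ≤ 1 / 2) n
  set S : Finset (Σ _ : ℕ, ℕ × ℕ) := (Finset.Icc 1 X).sigma (fun d =>
    (d.divisors ×ˢ d.divisors).filter (fun z => Nat.log 2 z.1 = Nat.log 2 z.2)) with hS
  set T : Finset ((ℕ × ℕ) × (Σ _ : ℕ, ℕ)) :=
    (((Finset.Icc 1 X ×ˢ Finset.Icc 1 X).filter (fun z => Nat.log 2 z.1 ≤ Nat.log 2 z.2 + 1 ∧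
      Nat.log 2 z.2 ≤ Nat.log 2 z.1 + 1)) ×ˢ ((Finset.Icc 1 X).sigma (fun m => m.divisors))).filter
      (fun y => y.2.1 ≤ X / (y.1.1 * y.1.2)) with hT
  set F : (Σ _ : ℕ, ℕ × ℕ) → ((ℕ × ℕ) × (Σ _ : ℕ, ℕ)) := fun y =>
    ((y.2.1 / Nat.gcd y.2.1 y.2.2, y.2.2 / Nat.gcd y.2.1 y.2.2),
      ⟨y.1 / ((y.2.1 / Nat.gcd y.2.1 y.2.2) * (y.2.2 / Nat.gcd y.2.1 y.2.2)),
        Nat.gcd y.2.1 y.2.2⟩) with hF
  -- facts
  have fact : ∀ d x y : ℕ, 0 < d → x ∣ d → y ∣ d → 0 < Nat.gcd x y ∧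
      Nat.gcd x y * (x / Nat.gcd x y) = x ∧ Nat.gcd x y * (y / Nat.gcd x y) = y ∧
      0 < x / Nat.gcd x y ∧ 0 < y / Nat.gcd x y ∧
      Nat.gcd x y * ((x / Nat.gcd x y) * (y / Nat.gcd x y)) ∣ d := by
    intro d x y hd hx hy
    have hx0 : 0 < x := Nat.pos_of_dvd_of_pos hx hd
    have hy0 : 0 < y := Nat.pos_of_dvd_of_pos hy hd
    have hg : 0 < Nat.gcd x y := Nat.gcd_pos_of_pos_left _ hx0
    have e1 := Nat.mul_div_cancel' (Nat.gcd_dvd_left x y)
    have e2 := Nat.mul_div_cancel' (Nat.gcd_dvd_right x y)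
    refine ⟨hg, e1, e2, Nat.div_pos (Nat.le_of_dvd hx0 (Nat.gcd_dvd_left x y)) hg,
      Nat.div_pos (Nat.le_of_dvd hy0 (Nat.gcd_dvd_right x y)) hg, ?_⟩
    have h1 : Nat.gcd x y * ((x / Nat.gcd x y) * (y / Nat.gcd x y)) = Nat.lcm x y := by
      have h2 := Nat.gcd_mul_lcm x y
      have h3 : Nat.gcd x y * (Nat.gcd x y * ((x / Nat.gcd x y) * (y / Nat.gcd x y))) =
          x * y := by
        calc Nat.gcd x y * (Nat.gcd x y * ((x / Nat.gcd x y) * (y / Nat.gcd x y)))
            = (Nat.gcd x y * (x / Nat.gcd x y)) * (Nat.gcd x y * (y / Nat.gcd x y)) := by ring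
          _ = x * y := by rw [e1, e2]
      exact Nat.eq_of_mul_eq_mul_left hg (h3.trans h2.symm)
    rw [h1]
    exact Nat.lcm_dvd hx hy
  have hmem : ∀ y ∈ S, (1 ≤ y.1 ∧ y.1 ≤ X) ∧ y.2.1 ∣ y.1 ∧ y.2.2 ∣ y.1 ∧
      Nat.log 2 y.2.1 = Nat.log 2 y.2.2 := by
    rintro ⟨d, x, y⟩ h
    rw [hS, Finset.mem_sigma, Finset.mem_Icc, Finset.mem_filter, Finset.mem_product,
      Nat.mem_divisors, Nat.mem_divisors] at h
    exact ⟨h.1, h.2.1.1.1, h.2.1.2.1, h.2.2⟩
  have hdec : ∀ y ∈ S, y.1 = (F y).1.1 * (F y).1.2 * (F y).2.1 := by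
    rintro ⟨d, x, y⟩ h
    obtain ⟨h1, h2, h3, h4⟩ := hmem _ h
    obtain ⟨f1, f2, f3, f4, f5, f6⟩ := fact d x y (by simp only at h1; omega) h2 h3
    simp only [hF]
    exact (Nat.mul_div_cancel' ((Dvd.intro_left _ rfl).trans f6)).symm
  have hinj : Set.InjOn F S := by
    rintro ⟨d, x, y⟩ h ⟨d', x', y'⟩ h' heq
    have hd := hdec _ h
    have hd' := hdec _ h'
    rw [heq, ← hd'] at hd
    simp only at hd
    subst hd
    obtain ⟨h1, h2, h3, h4⟩ := hmem _ h
    obtain ⟨h1', h2', h3', h4'⟩ := hmem _ h'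
    obtain ⟨f1, f2, f3, -⟩ := fact d x y (by simp only at h1; omega) h2 h3
    obtain ⟨f1', f2', f3', -⟩ := fact d x' y' (by simp only at h1'; omega) h2' h3'
    simp only [hF, Prod.mk.injEq, Sigma.mk.injEq, heq_eq_eq] at heq
    obtain ⟨⟨e1, e2⟩, -, e4⟩ := heq
    have hx : x = x' := by rw [← f2, ← f2', e4, ← e1, e4]
    have hy : y = y' := by rw [← f3, ← f3', e4, ← e2, e4]
    rw [hx, hy]
  have hmaps : ∀ y ∈ S, F y ∈ T := by
    rintro ⟨d, x, y⟩ h
    obtain ⟨h1, h2, h3, h4⟩ := hmem _ h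
    simp only at h1 h2 h3 h4
    obtain ⟨f1, f2, f3, f4, f5, f6⟩ := fact d x y (by omega) h2 h3
    have huv : (x / Nat.gcd x y) * (y / Nat.gcd x y) ∣ d := (Dvd.intro_left _ rfl).trans f6
    have hdpos : 0 < d := by omega
    have huvpos : 0 < (x / Nat.gcd x y) * (y / Nat.gcd x y) := Nat.mul_pos f4 f5
    have hxd : x ≤ d := Nat.le_of_dvd hdpos h2
    have hyd : y ≤ d := Nat.le_of_dvd hdpos h3
    have hxl : x / Nat.gcd x y ≤ x := Nat.div_le_self _ _
    have hyl : y / Nat.gcd x y ≤ y := Nat.div_le_self _ _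
    have hnear := log_near f1 f4 f5 (by rw [f2, f3]; exact h4)
    have hm0 : 0 < d / ((x / Nat.gcd x y) * (y / Nat.gcd x y)) :=
      Nat.div_pos (Nat.le_of_dvd hdpos huv) huvpos
    have hmX : d / ((x / Nat.gcd x y) * (y / Nat.gcd x y)) ≤
        X / ((x / Nat.gcd x y) * (y / Nat.gcd x y)) := Nat.div_le_div_right h1.2
    have hgm : Nat.gcd x y ∣ d / ((x / Nat.gcd x y) * (y / Nat.gcd x y)) := by
      apply Nat.dvd_div_of_mul_dvd
      rw [mul_comm]
      exact f6
    rw [hT, Finset.mem_filter, Finset.mem_product, Finset.mem_filter, Finset.mem_product,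
      Finset.mem_Icc, Finset.mem_Icc, Finset.mem_sigma, Finset.mem_Icc, Nat.mem_divisors]
    simp only [hF]
    refine ⟨⟨⟨⟨⟨f4, by omega⟩, f5, by omega⟩, hnear⟩, ⟨hm0, ?_⟩, hgm, hm0.ne'⟩, hmX⟩
    exact hmX.trans (Nat.div_le_self _ _)
  -- the sums
  have hL : ∑ d ∈ Finset.Icc 1 X, hx a b c (1 / 2) d * TT d = ∑ y ∈ S, hx a b c (1 / 2) y.1 := by
    rw [hS, Finset.sum_sigma]
    refine Finset.sum_congr rfl fun d _ => ?_
    simp only
    rw [Finset.sum_const, nsmul_eq_mul, mul_comm]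
    rfl
  rw [hL]
  set W : ((ℕ × ℕ) × (Σ _ : ℕ, ℕ)) → ℝ := fun y =>
    hx a b c (1 / 2) y.1.1 * hx a b c (1 / 2) y.1.2 * hx a b c (1 / 2) y.2.1 with hW
  calc ∑ y ∈ S, hx a b c (1 / 2) y.1 ≤ ∑ y ∈ S, W (F y) := by
        refine Finset.sum_le_sum fun y hy => ?_
        have h1 := hmaps y hy
        rw [hT, Finset.mem_filter, Finset.mem_product, Finset.mem_filter, Finset.mem_product,
          Finset.mem_Icc, Finset.mem_Icc, Finset.mem_sigma, Finset.mem_Icc] at h1
        obtain ⟨⟨⟨⟨h2, h3⟩, -⟩, h4, -⟩, -⟩ := h1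
        rw [hdec y hy, hW]
        refine (hx_mul a b c (by norm_num) (Nat.mul_pos (by omega) (by omega)).ne'
          (by omega)).trans ?_
        exact mul_le_mul_of_nonneg_right (hx_mul a b c (by norm_num) (by omega) (by omega)) (hn _)
    _ = ∑ z ∈ S.image F, W z := by rw [Finset.sum_image hinj]
    _ ≤ ∑ z ∈ T, W z := by
        refine Finset.sum_le_sum_of_subset_of_nonneg ?_ fun z _ _ => ?_
        · intro z hz
          rw [Finset.mem_image] at hz
          obtain ⟨y, hy, rfl⟩ := hz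
          exact hmaps y hy
        · exact mul_nonneg (mul_nonneg (hn _) (hn _)) (hn _)
    _ = ∑ u ∈ Finset.Icc 1 X, ∑ v ∈ Finset.Icc 1 X,
        (if Nat.log 2 u ≤ Nat.log 2 v + 1 ∧ Nat.log 2 v ≤ Nat.log 2 u + 1 then
          ∑ m ∈ Finset.Icc 1 X, (if m ≤ X / (u * v) then
            ∑ _g ∈ m.divisors, hx a b c (1 / 2) u * hx a b c (1 / 2) v * hx a b c (1 / 2) m
            else 0) else 0) := by
        rw [hT, Finset.sum_filter, Finset.sum_product, Finset.sum_filter, Finset.sum_product]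
        refine Finset.sum_congr rfl fun u _ => Finset.sum_congr rfl fun v _ => ?_
        simp only
        split_ifs
        · rw [Finset.sum_sigma]
          refine Finset.sum_congr rfl fun m _ => ?_
          simp only
          split_ifs
          · rfl
          · exact Finset.sum_const_zero
        · rfl
    _ ≤ _ := by
        refine Finset.sum_le_sum fun u hu => Finset.sum_le_sum fun v hv => ?_
        rw [Finset.mem_Icc] at hu hv
        split_ifs
        · rw [← Finset.sum_filter, Finset.mul_sum]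
          have hset : (Finset.Icc 1 X).filter (fun m => m ≤ X / (u * v)) =
              Finset.Icc 1 (X / (u * v)) := by
            ext m
            rw [Finset.mem_filter, Finset.mem_Icc, Finset.mem_Icc]
            constructor
            · rintro ⟨h1, h2⟩; exact ⟨h1.1, h2⟩
            · rintro ⟨h1, h2⟩; exact ⟨⟨h1, h2.trans (Nat.div_le_self _ _)⟩, h2⟩
          rw [hset]
          refine Finset.sum_le_sum fun m hm => ?_
          rw [Finset.mem_Icc] at hm
          rw [Finset.sum_const, nsmul_eq_mul]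
          have h1 : (m.divisors.card : ℝ) * hx a b c (1 / 2) m ≤ rr a b c m := by
            unfold hx
            have h2 : (m.divisors.card : ℝ) ≤ 2 ^ ArithmeticFunction.cardFactors m := by
              exact_mod_cast tau_le m (by omega)
            have h3 : (2 : ℝ) ^ ArithmeticFunction.cardFactors m *
                (1 / 2) ^ ArithmeticFunction.cardFactors m = 1 := by
              rw [← mul_pow]; norm_num
            calc (m.divisors.card : ℝ) * ((rr a b c m : ℝ) *
                  (1 / 2) ^ ArithmeticFunction.cardFactors m)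
                ≤ 2 ^ ArithmeticFunction.cardFactors m * ((rr a b c m : ℝ) *
                  (1 / 2) ^ ArithmeticFunction.cardFactors m) :=
                  mul_le_mul_of_nonneg_right h2 (by positivity)
              _ = (rr a b c m : ℝ) * (2 ^ ArithmeticFunction.cardFactors m *
                  (1 / 2) ^ ArithmeticFunction.cardFactors m) := by ring
              _ = rr a b c m := by rw [h3, mul_one]
          have h2 : 0 ≤ hx a b c (1 / 2) u * hx a b c (1 / 2) v := mul_nonneg (hn _) (hn _)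
          calc (m.divisors.card : ℝ) * (hx a b c (1 / 2) u * hx a b c (1 / 2) v *
                hx a b c (1 / 2) m)
              = hx a b c (1 / 2) u * hx a b c (1 / 2) v *
                ((m.divisors.card : ℝ) * hx a b c (1 / 2) m) := by ring
            _ ≤ _ := mul_le_mul_of_nonneg_left h1 h2
        · exact le_rfl

/-- the sum over one cell -/
theorem cell_sum (a b c : ℤ) {C : ℝ} (hC0 : 0 < C) (hC : ∀ X : ℕ, 2 ≤ X →
      ∑ n ∈ Finset.Icc 1 X, hx a b c (1 / 2) n ≤ C * X * Real.log X ^ ((1 / 2 : ℝ) - 1))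
    (X j : ℕ) :
    (∑ u ∈ (Finset.Icc 1 X).filter (fun u => Nat.log 2 u = j), hx a b c (1 / 2) u / u) ^ 2 ≤
      8 * C ^ 2 * (1 / ((j : ℝ) + 1)) := by
  have hn := fun n => hx_nonneg a b c (by norm_num : (0 : ℝ) ≤ 1 / 2) n
  have hlog2 : (1 / 2 : ℝ) ≤ Real.log 2 := by
    have := Real.log_two_gt_d9
    linarith
  have h1 : ∑ u ∈ (Finset.Icc 1 X).filter (fun u => Nat.log 2 u = j), hx a b c (1 / 2) u / u ≤
      ((2 : ℝ) ^ j)⁻¹ * ∑ u ∈ Finset.Icc 1 (2 ^ (j + 1)), hx a b c (1 / 2) u := by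
    rw [Finset.mul_sum]
    calc ∑ u ∈ (Finset.Icc 1 X).filter (fun u => Nat.log 2 u = j), hx a b c (1 / 2) u / u
        ≤ ∑ u ∈ (Finset.Icc 1 X).filter (fun u => Nat.log 2 u = j),
          ((2 : ℝ) ^ j)⁻¹ * hx a b c (1 / 2) u := by
          refine Finset.sum_le_sum fun u hu => ?_
          rw [Finset.mem_filter, Finset.mem_Icc] at hu
          have h2 : 2 ^ j ≤ u := by
            rw [← hu.2]
            exact Nat.pow_log_le_self 2 (by omega)
          have h3 : (2 : ℝ) ^ j ≤ u := by exact_mod_cast h2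
          rw [div_eq_inv_mul]
          exact mul_le_mul_of_nonneg_right (inv_anti₀ (by positivity) h3) (hn u)
      _ ≤ _ := by
          refine Finset.sum_le_sum_of_subset_of_nonneg ?_ fun u _ _ =>
            mul_nonneg (by positivity) (hn u)
          intro u hu
          rw [Finset.mem_filter, Finset.mem_Icc] at hu
          rw [Finset.mem_Icc]
          refine ⟨hu.1.1, ?_⟩
          rw [← hu.2]
          exact (Nat.lt_pow_succ_log_self (by norm_num) u).le
  have h2 := hC (2 ^ (j + 1)) (by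
    calc 2 = 2 ^ 1 := by norm_num
      _ ≤ 2 ^ (j + 1) := Nat.pow_le_pow_right (by norm_num) (by omega))
  have hL : Real.log ((2 ^ (j + 1) : ℕ) : ℝ) = ((j : ℝ) + 1) * Real.log 2 := by
    rw [Nat.cast_pow, Real.log_pow]
    push_cast
    ring
  rw [hL] at h2
  set L : ℝ := ((j : ℝ) + 1) * Real.log 2 with hLd
  have hL0 : 0 < L := by
    rw [hLd]
    have : (0 : ℝ) < Real.log 2 := by linarith
    positivity
  have h3 : ∑ u ∈ (Finset.Icc 1 X).filter (fun u => Nat.log 2 u = j), hx a b c (1 / 2) u / u ≤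
      2 * C * L ^ ((1 / 2 : ℝ) - 1) := by
    refine h1.trans ((mul_le_mul_of_nonneg_left h2 (by positivity)).trans (le_of_eq ?_))
    push_cast
    rw [pow_succ]
    have : (0 : ℝ) < 2 ^ j := by positivity
    field_simp
  have h4 : 0 ≤ ∑ u ∈ (Finset.Icc 1 X).filter (fun u => Nat.log 2 u = j),
      hx a b c (1 / 2) u / u :=
    Finset.sum_nonneg fun u _ => div_nonneg (hn u) (Nat.cast_nonneg _)
  calc _ ≤ (2 * C * L ^ ((1 / 2 : ℝ) - 1)) ^ 2 := pow_le_pow_left₀ h4 h3 2
    _ = 4 * C ^ 2 * L⁻¹ := by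
        rw [mul_pow, ← Real.rpow_natCast (L ^ ((1 / 2 : ℝ) - 1)) 2, ← Real.rpow_mul hL0.le,
          show ((1 / 2 : ℝ) - 1) * ((2 : ℕ) : ℝ) = -1 by norm_num, Real.rpow_neg_one]
        ring
    _ ≤ 4 * C ^ 2 * (2 * (1 / ((j : ℝ) + 1))) := by
        refine mul_le_mul_of_nonneg_left ?_ (by positivity)
        have h5 : ((j : ℝ) + 1) * (1 / 2) ≤ L := by
          rw [hLd]
          exact mul_le_mul_of_nonneg_left hlog2 (by positivity)
        calc L⁻¹ ≤ (((j : ℝ) + 1) * (1 / 2))⁻¹ := inv_anti₀ (by positivity) h5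
          _ = 2 * (1 / ((j : ℝ) + 1)) := by field_simp
    _ = _ := by ring

/-- the average number of pairs of divisors in the same cell -/
theorem TT_mean (a b c : ℤ) (ha : a ≠ 0) [NeZero (b ^ 2 - 4 * a * c)]
    (hk : kro (b ^ 2 - 4 * a * c) ≠ 1) :
    ∃ C : ℝ, 0 < C ∧ ∀ X : ℕ, 1 ≤ X → ∑ d ∈ Finset.Icc 1 X, hx a b c (1 / 2) d * TT d ≤
      C * X * (1 + Real.log ((Nat.log 2 X : ℝ) + 1)) := by
  obtain ⟨C1, hC10, hC1⟩ := hx_mean a b c ha hk (by norm_num : (0 : ℝ) ≤ 1) (by norm_num)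
  obtain ⟨C2, hC20, hC2⟩ := hx_mean a b c ha hk (by norm_num : (0 : ℝ) ≤ 1 / 2) (by norm_num)
  have hn := fun n => hx_nonneg a b c (by norm_num : (0 : ℝ) ≤ 1 / 2) n
  have hM : ∀ M : ℕ, ∑ m ∈ Finset.Icc 1 M, (rr a b c m : ℝ) ≤ (C1 + 1) * M := by
    intro M
    rcases Nat.lt_or_ge M 2 with h | h
    · interval_cases M
      · simp
      · simp [rr_one]
        linarith
    · have h1 := hC1 M h
      have h2 : ∀ n ∈ Finset.Icc 1 M, hx a b c 1 n = (rr a b c n : ℝ) := by
        intro n _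
        unfold hx
        rw [one_pow, mul_one]
      rw [Finset.sum_congr rfl h2, sub_self, Real.rpow_zero, mul_one] at h1
      have : (0 : ℝ) ≤ M := Nat.cast_nonneg _
      linarith
  refine ⟨(C1 + 1) * (3 * (8 * C2 ^ 2)), by positivity, fun X hX => ?_⟩
  refine (comb a b c X).trans ?_
  have h1 : ∑ u ∈ Finset.Icc 1 X, ∑ v ∈ Finset.Icc 1 X,
      (if Nat.log 2 u ≤ Nat.log 2 v + 1 ∧ Nat.log 2 v ≤ Nat.log 2 u + 1 then
        hx a b c (1 / 2) u * hx a b c (1 / 2) v * ∑ m ∈ Finset.Icc 1 (X / (u * v)),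
          (rr a b c m : ℝ) else 0) ≤
      (C1 + 1) * X * ∑ u ∈ Finset.Icc 1 X, ∑ v ∈ Finset.Icc 1 X,
      (if Nat.log 2 u ≤ Nat.log 2 v + 1 ∧ Nat.log 2 v ≤ Nat.log 2 u + 1 then
        (hx a b c (1 / 2) u / u) * (hx a b c (1 / 2) v / v) else 0) := by
    rw [Finset.mul_sum]
    refine Finset.sum_le_sum fun u hu => ?_
    rw [Finset.mul_sum]
    refine Finset.sum_le_sum fun v hv => ?_
    rw [Finset.mem_Icc] at hu hv
    split_ifs
    · have h2 : ∑ m ∈ Finset.Icc 1 (X / (u * v)), (rr a b c m : ℝ) ≤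
          (C1 + 1) * ((X : ℝ) / (u * v)) := by
        refine (hM _).trans (mul_le_mul_of_nonneg_left ?_ (by positivity))
        have := @Nat.cast_div_le ℝ _ _ _ X (u * v)
        push_cast at this
        exact this
      calc hx a b c (1 / 2) u * hx a b c (1 / 2) v * ∑ m ∈ Finset.Icc 1 (X / (u * v)),
            (rr a b c m : ℝ)
          ≤ hx a b c (1 / 2) u * hx a b c (1 / 2) v * ((C1 + 1) * ((X : ℝ) / (u * v))) :=
            mul_le_mul_of_nonneg_left h2 (mul_nonneg (hn _) (hn _))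
        _ = _ := by
            have hu0 : (0 : ℝ) < u := by exact_mod_cast hu.1
            have hv0 : (0 : ℝ) < v := by exact_mod_cast hv.1
            field_simp
    · simp
  have hcl : ∀ u ∈ Finset.Icc 1 X, Nat.log 2 u < Nat.log 2 X + 1 := by
    intro u hu
    rw [Finset.mem_Icc] at hu
    exact Nat.lt_succ_of_le (Nat.log_mono_right hu.2)
  have h2 := cell_am (Finset.Icc 1 X) (Finset.Icc 1 X) (fun u => hx a b c (1 / 2) u / u)
    (fun v => hx a b c (1 / 2) v / v) (Nat.log 2) (Nat.log 2) (Nat.log 2 X + 1) 1 hcl hcl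
  have h3 : ∑ j ∈ Finset.range (Nat.log 2 X + 1), (∑ u ∈ (Finset.Icc 1 X).filter
      (fun u => Nat.log 2 u = j), hx a b c (1 / 2) u / u) ^ 2 ≤
      8 * C2 ^ 2 * (1 + Real.log ((Nat.log 2 X : ℝ) + 1)) := by
    calc _ ≤ ∑ j ∈ Finset.range (Nat.log 2 X + 1), 8 * C2 ^ 2 * (1 / ((j : ℝ) + 1)) :=
          Finset.sum_le_sum fun j _ => cell_sum a b c hC20 hC2 X j
      _ = 8 * C2 ^ 2 * ((harmonic (Nat.log 2 X + 1) : ℚ) : ℝ) := by
          rw [← Finset.mul_sum, harmonic]
          congr 1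
          push_cast
          refine Finset.sum_congr rfl fun j _ => ?_
          rw [one_div]
      _ ≤ _ := by
          refine mul_le_mul_of_nonneg_left ?_ (by positivity)
          have := harmonic_le_one_add_log (Nat.log 2 X + 1)
          push_cast at this
          exact this
  refine h1.trans ?_
  have h4 := h2.trans (mul_le_mul_of_nonneg_left (add_le_add h3 h3) (by positivity))
  refine (mul_le_mul_of_nonneg_left h4 (by positivity)).trans (le_of_eq ?_)
  push_cast
  ring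

end U64

end Pool.Agent.Lib.MP_a17b09_nt.UW
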