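import Pool.Agent.Lib.MP_a17b09_nt.UW.SumRT3
import Pool.Agent.Lib.MP_a17b09_nt.CH.EndS98

/-!
MP_a17b09_nt, unweighted corollary (helper3): if the number of pairs `(t, d)`, `t ≤ N`, `d ∣ f t`,
`α t ≤ d ≤ β t`, with property `P` is at least `η N`, then at least `N / (log N) ^ (2 log 2 + ε)`
integers `t ≤ N` occur in these pairs.
-/

set_option autoImplicit false

open Filter Topology Finset

namespace Pool.Agent.Lib.MP_a17b09_nt.UW

open Pool.Agent.Lib.MP_a17b09_nt.MRSG.NugA12 (kro)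
open Pool.Agent.Lib.MP_a17b09_nt.CH (pairCount)

/-- the number of `t ≤ K d` with `d ∣ f t` -/
theorem cnt_t (a b c : ℤ) (K d N : ℕ) (hd : 1 ≤ d) :
    ((Finset.Icc 1 N).filter (fun t : ℕ => (d : ℤ) ∣ a * (t : ℤ) ^ 2 + b * t + c ∧
      t ≤ K * d)).card ≤ (K + 1) * rho a b c d := by
  have h1 : (K + 1) * rho a b c d = (Finset.range (K + 1) ×ˢ (Finset.range d).filter
      (fun ν : ℕ => (d : ℤ) ∣ a * (ν : ℤ) ^ 2 + b * ν + c)).card := by
    rw [Finset.card_product, Finset.card_range]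
    rfl
  rw [h1]
  refine Finset.card_le_card_of_injOn (fun t => (t / d, t % d)) ?_ ?_
  · intro t ht
    rw [Finset.mem_coe, Finset.mem_filter, Finset.mem_Icc] at ht
    rw [Finset.mem_coe, Finset.mem_product, Finset.mem_range, Finset.mem_filter, Finset.mem_range]
    refine ⟨?_, Nat.mod_lt _ (by omega), dvd_congr (dvd_sub_mod d t) ht.2.1⟩
    have : t / d ≤ K := Nat.div_le_of_le_mul (by rw [mul_comm]; exact ht.2.2)
    show t / d < K + 1
    omega
  · intro t _ s _ heq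
    have e1 : t / d = s / d := congrArg Prod.fst heq
    have e2 : t % d = s % d := congrArg Prod.snd heq
    rw [← Nat.div_add_mod t d, ← Nat.div_add_mod s d, e1, e2]

/-- sum over `t` of the number of divisors with many divisors -/
theorem cnt_pairs (a b c : ℤ) (K M N : ℕ) (Z δ : ℝ) (hZ : 0 < Z) (hδ : 0 ≤ δ) :
    ∑ t ∈ Finset.Icc 1 N, (((Finset.Icc 1 M).filter (fun d : ℕ =>
      ((d : ℤ) ∣ a * (t : ℤ) ^ 2 + b * t + c ∧ t ≤ K * d) ∧ Z < (d.divisors.card : ℝ))).card : ℝ) ≤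
      ((K : ℝ) + 1) * (Z ^ (-δ) * ∑ d ∈ Finset.Icc 1 M, hh a b c δ d) := by
  classical
  have h1 : ∑ t ∈ Finset.Icc 1 N, (((Finset.Icc 1 M).filter (fun d : ℕ =>
      ((d : ℤ) ∣ a * (t : ℤ) ^ 2 + b * t + c ∧ t ≤ K * d) ∧ Z < (d.divisors.card : ℝ))).card : ℝ) =
      ∑ d ∈ (Finset.Icc 1 M).filter (fun d : ℕ => Z < (d.divisors.card : ℝ)),
        (((Finset.Icc 1 N).filter (fun t : ℕ => (d : ℤ) ∣ a * (t : ℤ) ^ 2 + b * t + c ∧
          t ≤ K * d)).card : ℝ) := by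
    have h2 : ∀ t ∈ Finset.Icc 1 N, (((Finset.Icc 1 M).filter (fun d : ℕ =>
        ((d : ℤ) ∣ a * (t : ℤ) ^ 2 + b * t + c ∧ t ≤ K * d) ∧
          Z < (d.divisors.card : ℝ))).card : ℝ) =
        ∑ d ∈ (Finset.Icc 1 M).filter (fun d : ℕ => Z < (d.divisors.card : ℝ)),
          (if (d : ℤ) ∣ a * (t : ℤ) ^ 2 + b * t + c ∧ t ≤ K * d then (1 : ℝ) else 0) := by
      intro t _
      rw [Finset.sum_ite, Finset.sum_const_zero, add_zero, Finset.sum_const, nsmul_eq_mul, mul_one,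
        Finset.filter_filter]
      congr 2
      refine Finset.filter_congr fun d _ => ?_
      exact and_comm
    rw [Finset.sum_congr rfl h2, Finset.sum_comm]
    refine Finset.sum_congr rfl fun d _ => ?_
    rw [Finset.sum_ite, Finset.sum_const_zero, add_zero, Finset.sum_const, nsmul_eq_mul, mul_one]
  rw [h1]
  calc ∑ d ∈ (Finset.Icc 1 M).filter (fun d : ℕ => Z < (d.divisors.card : ℝ)),
        (((Finset.Icc 1 N).filter (fun t : ℕ => (d : ℤ) ∣ a * (t : ℤ) ^ 2 + b * t + c ∧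
          t ≤ K * d)).card : ℝ)
      ≤ ∑ d ∈ (Finset.Icc 1 M).filter (fun d : ℕ => Z < (d.divisors.card : ℝ)),
        ((K : ℝ) + 1) * (Z ^ (-δ) * hh a b c δ d) := by
        refine Finset.sum_le_sum fun d hd => ?_
        rw [Finset.mem_filter, Finset.mem_Icc] at hd
        have h3 : (((Finset.Icc 1 N).filter (fun t : ℕ => (d : ℤ) ∣ a * (t : ℤ) ^ 2 + b * t + c ∧
            t ≤ K * d)).card : ℝ) ≤ ((K : ℝ) + 1) * rho a b c d := by
          exact_mod_cast cnt_t a b c K d N hd.1.1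
        refine h3.trans (mul_le_mul_of_nonneg_left ?_ (by positivity))
        unfold hh
        have h4 : (1 : ℝ) ≤ Z ^ (-δ) * ((d.divisors.card : ℕ) : ℝ) ^ δ := by
          rw [Real.rpow_neg hZ.le, ← div_eq_inv_mul, le_div_iff₀ (by positivity), one_mul]
          exact Real.rpow_le_rpow hZ.le hd.2.le hδ
        calc (rho a b c d : ℝ) = rho a b c d * 1 := (mul_one _).symm
          _ ≤ rho a b c d * (Z ^ (-δ) * ((d.divisors.card : ℕ) : ℝ) ^ δ) :=
              mul_le_mul_of_nonneg_left h4 (Nat.cast_nonneg _)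
          _ = Z ^ (-δ) * ((rho a b c d : ℝ) * ((d.divisors.card : ℕ) : ℝ) ^ δ) := by ring
    _ ≤ ∑ d ∈ Finset.Icc 1 M, ((K : ℝ) + 1) * (Z ^ (-δ) * hh a b c δ d) := by
        refine Finset.sum_le_sum_of_subset_of_nonneg (Finset.filter_subset _ _) (fun d _ _ => ?_)
        have := hh_nonneg a b c δ d
        positivity
    _ = _ := by rw [← Finset.mul_sum, ← Finset.mul_sum]

theorem div_mul_le (m n : ℕ) : (m * n).divisors.card ≤ m.divisors.card * n.divisors.card := by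
  rw [Nat.divisors_mul]
  exact Finset.card_mul_le

/-- the exponent is negative -/
theorem expo {ε δ : ℝ} (hε : 0 < ε) (hδ : 0 < δ) (hδ1 : δ ≤ 1) (hδε : δ ≤ ε / 2) :
    (2 : ℝ) ^ δ - 1 - δ * (Real.log 2 + ε) ≤ -(δ * ε / 2) := by
  have hl0 : 0 < Real.log 2 := Real.log_pos (by norm_num)
  have hl1 : Real.log 2 ≤ 1 := by linarith [Real.log_two_lt_d9]
  have h1 : (2 : ℝ) ^ δ = Real.exp (δ * Real.log 2) := by
    rw [Real.rpow_def_of_pos (by norm_num), mul_comm]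
  have h2 : |δ * Real.log 2| ≤ 1 := by
    rw [abs_of_pos (by positivity)]
    nlinarith
  have h3 := (abs_le.1 (Real.abs_exp_sub_one_sub_id_le h2)).2
  rw [h1]
  have h4 : (δ * Real.log 2) ^ 2 ≤ δ * ε / 2 := by
    have h5 : (δ * Real.log 2) ^ 2 ≤ δ ^ 2 := by
      have : δ * Real.log 2 ≤ δ := by nlinarith
      exact pow_le_pow_left₀ (by positivity) this 2
    nlinarith
  linarith

/-- one bad part is at most `η N / 4` -/
theorem bad_small (a b c : ℤ) (ha : a ≠ 0) [NeZero (b ^ 2 - 4 * a * c)]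
    (hk : kro (b ^ 2 - 4 * a * c) ≠ 1) (K : ℕ) (B : ℝ) (hB : 0 < B) {ε : ℝ} (hε : 0 < ε)
    {η : ℝ} (hη : 0 < η) :
    ∀ᶠ N : ℕ in atTop, ∑ t ∈ Finset.Icc 1 N, (((Finset.Icc 1 ⌊B * N⌋₊).filter (fun d : ℕ =>
      ((d : ℤ) ∣ a * (t : ℤ) ^ 2 + b * t + c ∧ t ≤ K * d) ∧
        Real.log N ^ (Real.log 2 + ε) < (d.divisors.card : ℝ))).card : ℝ) ≤ η * N := by
  set δ : ℝ := min 1 (ε / 2) with hδd
  have hδ0 : 0 < δ := lt_min one_pos (by positivity)
  have hδ1 : δ ≤ 1 := min_le_left _ _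
  have hδε : δ ≤ ε / 2 := min_le_right _ _
  obtain ⟨C, hC0, hC⟩ := sum_hh a b c ha hk hδ0.le hδ1
  have hexp := expo hε hδ0 hδ1 hδε
  have hγ : 0 < δ * ε / 2 := by positivity
  have hloglim : Tendsto (fun N : ℕ => Real.log (N : ℝ)) atTop atTop :=
    Real.tendsto_log_atTop.comp tendsto_natCast_atTop_atTop
  have hlim : Tendsto (fun N : ℕ => ((K : ℝ) + 1) * (C * (B + 1) * 2) *
      Real.log (N : ℝ) ^ (-(δ * ε / 2))) atTop (𝓝 0) := by
    have h1 := ((tendsto_rpow_neg_atTop hγ).comp hloglim).const_mul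
      (((K : ℝ) + 1) * (C * (B + 1) * 2))
    rw [mul_zero] at h1
    exact h1
  filter_upwards [hlim.eventually (gt_mem_nhds hη), hloglim.eventually_ge_atTop 1,
    eventually_ge_atTop (max 2 ⌈B + 1⌉₊)] with N hN1 hN2 hN3
  have hN2' : 2 ≤ N := (le_max_left _ _).trans hN3
  have hNR : (2 : ℝ) ≤ N := by exact_mod_cast hN2'
  have hNB : B + 1 ≤ N := (Nat.le_ceil _).trans (by exact_mod_cast (le_max_right _ _).trans hN3)
  have hL0 : 0 < Real.log (N : ℝ) := by linarith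
  set Z : ℝ := Real.log N ^ (Real.log 2 + ε) with hZ
  have hZ0 : 0 < Z := Real.rpow_pos_of_pos hL0 _
  refine (cnt_pairs a b c K ⌊B * N⌋₊ N Z δ hZ0 hδ0.le).trans ?_
  -- bound for the sum up to `X = ⌊(B + 1) N⌋`
  set X : ℕ := ⌊(B + 1) * N⌋₊ with hX
  have hX2 : 2 ≤ X := Nat.le_floor (by push_cast; nlinarith)
  have hXle : (X : ℝ) ≤ (B + 1) * N := Nat.floor_le (by positivity)
  have hsub : Finset.Icc 1 ⌊B * N⌋₊ ⊆ Finset.Icc 1 X :=
    Finset.Icc_subset_Icc_right (Nat.floor_mono (by nlinarith))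
  have h1 : ∑ d ∈ Finset.Icc 1 ⌊B * N⌋₊, hh a b c δ d ≤
      C * X * Real.log X ^ ((2 : ℝ) ^ δ - 1) :=
    (Finset.sum_le_sum_of_subset_of_nonneg hsub (fun d _ _ => hh_nonneg a b c δ d)).trans (hC X hX2)
  have h2δ : (1 : ℝ) ≤ (2 : ℝ) ^ δ := Real.one_le_rpow (by norm_num) hδ0.le
  have h2δ' : (2 : ℝ) ^ δ - 1 ≤ 1 := by
    have : (2 : ℝ) ^ δ ≤ 2 ^ (1 : ℝ) := Real.rpow_le_rpow_of_exponent_le (by norm_num) hδ1
    rw [Real.rpow_one] at this
    linarith
  have hX0 : (0 : ℝ) < X := by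
    have : 0 < X := by omega
    exact_mod_cast this
  have hlogX0 : 0 ≤ Real.log (X : ℝ) := Real.log_natCast_nonneg X
  have hlogX : Real.log (X : ℝ) ≤ 2 * Real.log N := by
    have h3 : (X : ℝ) ≤ (N : ℝ) ^ 2 := by nlinarith
    calc Real.log (X : ℝ) ≤ Real.log ((N : ℝ) ^ 2) := Real.log_le_log hX0 h3
      _ = 2 * Real.log N := by rw [Real.log_pow]; norm_num
  have h4 : Real.log (X : ℝ) ^ ((2 : ℝ) ^ δ - 1) ≤ 2 * Real.log N ^ ((2 : ℝ) ^ δ - 1) := by
    calc Real.log (X : ℝ) ^ ((2 : ℝ) ^ δ - 1) ≤ (2 * Real.log N) ^ ((2 : ℝ) ^ δ - 1) :=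
          Real.rpow_le_rpow hlogX0 hlogX (by linarith)
      _ = (2 : ℝ) ^ ((2 : ℝ) ^ δ - 1) * Real.log N ^ ((2 : ℝ) ^ δ - 1) :=
          Real.mul_rpow (by norm_num) hL0.le
      _ ≤ 2 * Real.log N ^ ((2 : ℝ) ^ δ - 1) := by
          refine mul_le_mul_of_nonneg_right ?_ (by positivity)
          calc (2 : ℝ) ^ ((2 : ℝ) ^ δ - 1) ≤ 2 ^ (1 : ℝ) :=
                Real.rpow_le_rpow_of_exponent_le (by norm_num) h2δ'
            _ = 2 := Real.rpow_one 2
  have h5 : Z ^ (-δ) = Real.log N ^ (-(δ * (Real.log 2 + ε))) := by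
    rw [hZ, ← Real.rpow_mul hL0.le]
    congr 1
    ring
  have h6 : Z ^ (-δ) * Real.log N ^ ((2 : ℝ) ^ δ - 1) ≤ Real.log N ^ (-(δ * ε / 2)) := by
    rw [h5, ← Real.rpow_add hL0]
    exact Real.rpow_le_rpow_of_exponent_le hN2 (by linarith)
  calc ((K : ℝ) + 1) * (Z ^ (-δ) * ∑ d ∈ Finset.Icc 1 ⌊B * N⌋₊, hh a b c δ d)
      ≤ ((K : ℝ) + 1) * (Z ^ (-δ) * (C * ((B + 1) * N) *
        (2 * Real.log N ^ ((2 : ℝ) ^ δ - 1)))) := by
        refine mul_le_mul_of_nonneg_left (mul_le_mul_of_nonneg_left (h1.trans ?_)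
          (by positivity)) (by positivity)
        exact mul_le_mul (mul_le_mul_of_nonneg_left hXle hC0.le) h4
          (Real.rpow_nonneg hlogX0 _) (by positivity)
    _ = (((K : ℝ) + 1) * (C * (B + 1) * 2) * N) *
        (Z ^ (-δ) * Real.log N ^ ((2 : ℝ) ^ δ - 1)) := by ring
    _ ≤ (((K : ℝ) + 1) * (C * (B + 1) * 2) * N) * Real.log N ^ (-(δ * ε / 2)) :=
        mul_le_mul_of_nonneg_left h6 (by positivity)
    _ = (((K : ℝ) + 1) * (C * (B + 1) * 2) * Real.log N ^ (-(δ * ε / 2))) * N := by ring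
    _ ≤ η * N := mul_le_mul_of_nonneg_right hN1.le (by positivity)

open Classical in
/-- **The unweighted corollary.** -/
theorem unw (a b c : ℤ) (ha : 0 < a) (hsq : ¬ IsSquare (b ^ 2 - 4 * a * c))
    [NeZero (b ^ 2 - 4 * a * c)] (hk : kro (b ^ 2 - 4 * a * c) ≠ 1) (h t₀ : ℕ) (α β : ℝ)
    (hα : 0 < α) (hαβ : α < β) (P : ℕ → ℕ → Prop) {η : ℝ} (hη : 0 < η)
    (hpair : ∀ᶠ N : ℕ in atTop, η * N ≤ pairCount a b c h t₀ α β P N) {ε : ℝ} (hε : 0 < ε) :
    ∀ᶠ N : ℕ in atTop, (N : ℝ) / Real.log N ^ (2 * Real.log 2 + ε) ≤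
      (((Finset.Icc 1 N).filter (fun t : ℕ => t ≡ t₀ [MOD h] ∧ ∃ d : ℕ,
        (d : ℤ) ∣ a * (t : ℤ) ^ 2 + b * t + c ∧ α * t ≤ d ∧ d ≤ β * t ∧ P t d)).card : ℝ) := by
  have hβ : 0 < β := hα.trans hαβ
  have haR : (0 : ℝ) < a := by exact_mod_cast ha
  have hf0 : ∀ t : ℕ, a * (t : ℤ) ^ 2 + b * t + c ≠ 0 := by
    intro t ht
    apply hsq
    refine ⟨2 * a * t + b, ?_⟩
    linear_combination (-4 * a) * ht
  -- size of the values
  set F : ℝ := |(a : ℝ)| + |(b : ℝ)| + |(c : ℝ)| with hF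
  have hF0 : 0 < F := by
    have : 0 < |(a : ℝ)| := abs_pos.2 haR.ne'
    have := abs_nonneg (b : ℝ)
    have := abs_nonneg (c : ℝ)
    linarith
  have hup : ∀ t : ℕ, 1 ≤ t → (((a * (t : ℤ) ^ 2 + b * t + c).natAbs : ℕ) : ℝ) ≤ F * t ^ 2 := by
    intro t ht
    have htR : (1 : ℝ) ≤ t := by exact_mod_cast ht
    rw [Nat.cast_natAbs]
    push_cast
    calc |(a : ℝ) * t ^ 2 + b * t + c| ≤ |(a : ℝ) * t ^ 2| + |(b : ℝ) * t| + |(c : ℝ)| :=
          abs_add_three _ _ _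
      _ = |(a : ℝ)| * t ^ 2 + |(b : ℝ)| * t + |(c : ℝ)| := by
          rw [abs_mul, abs_mul, abs_of_nonneg (by positivity : (0 : ℝ) ≤ (t : ℝ) ^ 2),
            abs_of_nonneg (by positivity : (0 : ℝ) ≤ (t : ℝ))]
      _ ≤ |(a : ℝ)| * t ^ 2 + |(b : ℝ)| * t ^ 2 + |(c : ℝ)| * t ^ 2 := by
          have h1 : (t : ℝ) ≤ t ^ 2 := by nlinarith
          have h2 : (1 : ℝ) ≤ t ^ 2 := by nlinarith
          have h3 := abs_nonneg (b : ℝ)
          have h4 := abs_nonneg (c : ℝ)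
          nlinarith
      _ = F * t ^ 2 := by rw [hF]; ring
  obtain ⟨t1, ht1⟩ : ∃ t1 : ℕ, ∀ t : ℕ, t1 ≤ t →
      (a : ℝ) / 2 * t ^ 2 ≤ (((a * (t : ℤ) ^ 2 + b * t + c).natAbs : ℕ) : ℝ) := by
    refine ⟨⌈2 * (|(b : ℝ)| + |(c : ℝ)|) / a⌉₊ + 1, fun t ht => ?_⟩
    have h1 : 2 * (|(b : ℝ)| + |(c : ℝ)|) / a ≤ t := by
      refine (Nat.le_ceil _).trans ?_
      exact_mod_cast (by omega : ⌈2 * (|(b : ℝ)| + |(c : ℝ)|) / a⌉₊ ≤ t)
    have htR : (1 : ℝ) ≤ t := by exact_mod_cast (by omega : 1 ≤ t)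
    rw [div_le_iff₀ haR] at h1
    rw [Nat.cast_natAbs]
    push_cast
    have h3 : -|(b : ℝ)| * t ≤ (b : ℝ) * t :=
      mul_le_mul_of_nonneg_right (neg_abs_le _) (by positivity)
    have h4 : -|(c : ℝ)| ≤ (c : ℝ) := neg_abs_le _
    have h5 : |(c : ℝ)| ≤ |(c : ℝ)| * t := by nlinarith [abs_nonneg (c : ℝ)]
    refine le_trans ?_ (le_abs_self _)
    nlinarith
  set K1 : ℕ := ⌈1 / α⌉₊ with hK1
  set K2 : ℕ := ⌈2 * β / a⌉₊ with hK2
  have hbad1 := bad_small a b c ha.ne' hk K1 β hβ (by positivity : 0 < ε / 4)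
    (by positivity : 0 < η / 4)
  have hbad2 := bad_small a b c ha.ne' hk K2 (F / α) (by positivity) (by positivity : 0 < ε / 4)
    (by positivity : 0 < η / 4)
  have hloglim : Tendsto (fun N : ℕ => Real.log (N : ℝ)) atTop atTop :=
    Real.tendsto_log_atTop.comp tendsto_natCast_atTop_atTop
  have hpow : Tendsto (fun N : ℕ => Real.log (N : ℝ) ^ (ε / 2)) atTop atTop :=
    (tendsto_rpow_atTop (by positivity)).comp hloglim
  have hconst : ∀ᶠ N : ℕ in atTop, (t1 : ℝ) * ⌊β * t1⌋₊ ≤ η / 4 * N := by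
    have h1 : Tendsto (fun N : ℕ => η / 4 * (N : ℝ)) atTop atTop :=
      tendsto_natCast_atTop_atTop.const_mul_atTop (by positivity)
    exact h1.eventually_ge_atTop _
  filter_upwards [hpair, hbad1, hbad2, hconst, hpow.eventually_ge_atTop (4 / η),
    hloglim.eventually_ge_atTop 1, eventually_ge_atTop 1] with N hNp hN1 hN2 hNc hNpow hNlog hNone
  have hL0 : 0 < Real.log (N : ℝ) := by linarith
  set Z : ℝ := Real.log N ^ (Real.log 2 + ε / 4) with hZ
  have hZ0 : 0 < Z := Real.rpow_pos_of_pos hL0 _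
  set Tset : Finset ℕ := (Finset.Icc 1 N).filter (fun t => t ≡ t₀ [MOD h]) with hTset
  -- divisors
  set Dt : ℕ → Finset ℕ := fun t => (Finset.Icc 1 ⌊β * t⌋₊).filter (fun d : ℕ =>
    (d : ℤ) ∣ a * (t : ℤ) ^ 2 + b * t + c ∧ α * t ≤ d ∧ d ≤ β * t ∧ P t d) with hDt
  set ft : ℕ → ℕ := fun t => (a * (t : ℤ) ^ 2 + b * t + c).natAbs with hft
  have hft0 : ∀ t, ft t ≠ 0 := fun t => Int.natAbs_ne_zero.2 (hf0 t)
  have hncard : ∀ t : ℕ, 1 ≤ t → Set.ncard {d : ℕ | (d : ℤ) ∣ a * (t : ℤ) ^ 2 + b * t + c ∧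
      α * t ≤ d ∧ d ≤ β * t ∧ P t d} = (Dt t).card := by
    intro t ht
    rw [← Set.ncard_coe_finset]
    congr 1
    ext d
    rw [Finset.mem_coe, Finset.mem_filter, Finset.mem_Icc, Set.mem_setOf_eq]
    refine ⟨fun hd => ⟨⟨?_, Nat.le_floor hd.2.2.1⟩, hd⟩, fun hd => hd.2⟩
    have htR : (0 : ℝ) < t := by exact_mod_cast ht
    have h1 : (0 : ℝ) < d := lt_of_lt_of_le (mul_pos hα htR) hd.2.1
    exact_mod_cast h1
  have hpc : (pairCount a b c h t₀ α β P N : ℝ) = ∑ t ∈ Tset, ((Dt t).card : ℝ) := by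
    unfold pairCount
    rw [Nat.cast_sum]
    refine Finset.sum_congr rfl fun t ht => ?_
    rw [Finset.mem_filter, Finset.mem_Icc] at ht
    rw [hncard t ht.1.1]
  -- the three parts
  set G : ℕ → Finset ℕ := fun t => (Dt t).filter (fun d => (d.divisors.card : ℝ) ≤ Z ∧
    ((ft t / d).divisors.card : ℝ) ≤ Z) with hG
  set B1 : ℕ → Finset ℕ := fun t => (Dt t).filter (fun d => Z < (d.divisors.card : ℝ)) with hB1
  set B2 : ℕ → Finset ℕ := fun t => (Dt t).filter (fun d => Z < ((ft t / d).divisors.card : ℝ))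
    with hB2
  have hsplit : ∀ t, ((Dt t).card : ℝ) ≤ (G t).card + (B1 t).card + (B2 t).card := by
    intro t
    have h1 : Dt t ⊆ (G t ∪ B1 t) ∪ B2 t := by
      intro d hd
      rw [Finset.mem_union, Finset.mem_union]
      by_cases h2 : Z < (d.divisors.card : ℝ)
      · exact Or.inl (Or.inr (Finset.mem_filter.2 ⟨hd, h2⟩))
      by_cases h3 : Z < ((ft t / d).divisors.card : ℝ)
      · exact Or.inr (Finset.mem_filter.2 ⟨hd, h3⟩)
      · exact Or.inl (Or.inl (Finset.mem_filter.2 ⟨hd, not_lt.1 h2, not_lt.1 h3⟩))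
    have h2 := (Finset.card_le_card h1).trans (Finset.card_union_le _ _)
    have h3 := Finset.card_union_le (G t) (B1 t)
    have h4 : (Dt t).card ≤ (G t).card + (B1 t).card + (B2 t).card := by omega
    exact_mod_cast h4
  have hmemD : ∀ t d, d ∈ Dt t → 1 ≤ t → (1 ≤ d ∧ d ∣ ft t ∧ α * t ≤ d ∧ (d : ℝ) ≤ β * t) := by
    intro t d hd _
    rw [hDt, Finset.mem_filter, Finset.mem_Icc] at hd
    exact ⟨hd.1.1, Int.natCast_dvd.1 hd.2.1, hd.2.2.1, hd.2.2.2.1⟩
  -- first bad part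
  have hsum1 : ∑ t ∈ Tset, ((B1 t).card : ℝ) ≤ η / 4 * N := by
    refine le_trans ?_ hN1
    refine (Finset.sum_le_sum_of_subset_of_nonneg (Finset.filter_subset _ _)
      (fun _ _ _ => Nat.cast_nonneg _)).trans (Finset.sum_le_sum fun t ht => ?_)
    rw [Finset.mem_Icc] at ht
    have htR : (t : ℝ) ≤ N := by exact_mod_cast ht.2
    have h1 : B1 t ⊆ (Finset.Icc 1 ⌊β * N⌋₊).filter (fun d : ℕ =>
        ((d : ℤ) ∣ a * (t : ℤ) ^ 2 + b * t + c ∧ t ≤ K1 * d) ∧ Z < (d.divisors.card : ℝ)) := by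
      intro d hd
      rw [hB1, Finset.mem_filter] at hd
      obtain ⟨hd1, hd2, hd3, hd4⟩ := hmemD t d hd.1 ht.1
      rw [Finset.mem_filter, Finset.mem_Icc]
      refine ⟨⟨hd1, Nat.le_floor (hd4.trans (by gcongr))⟩, ⟨Int.natCast_dvd.2 hd2, ?_⟩, hd.2⟩
      have h2 : (t : ℝ) ≤ K1 * d := by
        have h3 : (1 : ℝ) / α ≤ K1 := Nat.le_ceil _
        calc (t : ℝ) = 1 / α * (α * t) := by field_simp
          _ ≤ K1 * d := mul_le_mul h3 hd3 (by positivity) (Nat.cast_nonneg _)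
      exact_mod_cast h2
    exact_mod_cast Finset.card_le_card h1
  -- second bad part
  have hsum2 : ∑ t ∈ Tset, ((B2 t).card : ℝ) ≤ η / 4 * N + η / 4 * N := by
    have h1 : ∀ t ∈ Finset.Icc 1 N, ((B2 t).card : ℝ) ≤
        (((Finset.Icc 1 ⌊F / α * N⌋₊).filter (fun d : ℕ =>
          ((d : ℤ) ∣ a * (t : ℤ) ^ 2 + b * t + c ∧ t ≤ K2 * d) ∧
            Z < (d.divisors.card : ℝ))).card : ℝ) + (if t < t1 then (⌊β * t1⌋₊ : ℝ) else 0) := by
      intro t ht
      rw [Finset.mem_Icc] at ht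
      have htR : (1 : ℝ) ≤ t := by exact_mod_cast ht.1
      have htN : (t : ℝ) ≤ N := by exact_mod_cast ht.2
      by_cases htt : t < t1
      · rw [if_pos htt]
        have h2 : (B2 t).card ≤ ⌊β * t1⌋₊ := by
          calc (B2 t).card ≤ (Dt t).card := Finset.card_filter_le _ _
            _ ≤ (Finset.Icc 1 ⌊β * t⌋₊).card := Finset.card_filter_le _ _
            _ = ⌊β * t⌋₊ := by rw [Nat.card_Icc]; omega
            _ ≤ ⌊β * t1⌋₊ := Nat.floor_mono (by
                have : (t : ℝ) ≤ t1 := by exact_mod_cast htt.le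
                gcongr)
        have h3 : ((B2 t).card : ℝ) ≤ (⌊β * t1⌋₊ : ℝ) := by exact_mod_cast h2
        have h4 : (0 : ℝ) ≤ (((Finset.Icc 1 ⌊F / α * N⌋₊).filter (fun d : ℕ =>
          ((d : ℤ) ∣ a * (t : ℤ) ^ 2 + b * t + c ∧ t ≤ K2 * d) ∧
            Z < (d.divisors.card : ℝ))).card : ℝ) := Nat.cast_nonneg _
        linarith
      · rw [if_neg htt, add_zero]
        have h2 : (B2 t).card ≤ ((Finset.Icc 1 ⌊F / α * N⌋₊).filter (fun d : ℕ =>
            ((d : ℤ) ∣ a * (t : ℤ) ^ 2 + b * t + c ∧ t ≤ K2 * d) ∧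
              Z < (d.divisors.card : ℝ))).card := by
          refine Finset.card_le_card_of_injOn (fun d => ft t / d) ?_ ?_
          · intro d hd
            rw [Finset.mem_coe, hB2, Finset.mem_filter] at hd
            obtain ⟨hd1, hd2, hd3, hd4⟩ := hmemD t d hd.1 ht.1
            have hdR : (0 : ℝ) < d := by exact_mod_cast hd1
            have hcast : ((ft t / d : ℕ) : ℝ) = (ft t : ℝ) / d := Nat.cast_div hd2 hdR.ne'
            have he1 : 1 ≤ ft t / d := Nat.div_pos (Nat.le_of_dvd (Nat.pos_of_ne_zero (hft0 t)) hd2)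
              hd1
            rw [Finset.mem_coe, Finset.mem_filter, Finset.mem_Icc]
            refine ⟨⟨he1, Nat.le_floor ?_⟩, ⟨Int.natCast_dvd.2 (Nat.div_dvd_of_dvd hd2), ?_⟩, hd.2⟩
            · show ((ft t / d : ℕ) : ℝ) ≤ F / α * N
              rw [hcast, div_le_iff₀ hdR]
              have h3 := hup t ht.1
              calc (ft t : ℝ) ≤ F * t ^ 2 := h3
                _ = F / α * t * (α * t) := by field_simp
                _ ≤ F / α * N * d := by
                    refine mul_le_mul (by gcongr) hd3 (by positivity) (by positivity)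
            · have h3 := ht1 t (not_lt.1 htt)
              have h4 : (t : ℝ) ≤ K2 * ((ft t / d : ℕ) : ℝ) := by
                have h5 : 2 * β / a ≤ K2 := Nat.le_ceil _
                have h6 : (a : ℝ) / (2 * β) * t ≤ ((ft t / d : ℕ) : ℝ) := by
                  rw [hcast, le_div_iff₀ hdR]
                  calc (a : ℝ) / (2 * β) * t * d ≤ (a : ℝ) / (2 * β) * t * (β * t) :=
                        mul_le_mul_of_nonneg_left hd4 (by positivity)
                    _ = (a : ℝ) / 2 * t ^ 2 := by field_simp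
                    _ ≤ ft t := h3
                calc (t : ℝ) = 2 * β / a * ((a : ℝ) / (2 * β) * t) := by field_simp
                  _ ≤ K2 * ((ft t / d : ℕ) : ℝ) :=
                      mul_le_mul h5 h6 (by positivity) (Nat.cast_nonneg _)
              exact_mod_cast h4
          · intro d hd e he heq
            rw [Finset.mem_coe, hB2, Finset.mem_filter] at hd he
            obtain ⟨hd1, hd2, -, -⟩ := hmemD t d hd.1 ht.1
            obtain ⟨he1, he2, -, -⟩ := hmemD t e he.1 ht.1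
            have h3 : ft t / d = ft t / e := heq
            have h4 : 0 < ft t / d := Nat.div_pos
              (Nat.le_of_dvd (Nat.pos_of_ne_zero (hft0 t)) hd2) hd1
            have h5 := Nat.mul_div_cancel' hd2
            have h6 := Nat.mul_div_cancel' he2
            rw [← h3] at h6
            exact Nat.eq_of_mul_eq_mul_right h4 (h5.trans h6.symm)
        exact_mod_cast h2
    refine (Finset.sum_le_sum_of_subset_of_nonneg (Finset.filter_subset _ _)
      (fun _ _ _ => Nat.cast_nonneg _)).trans ((Finset.sum_le_sum h1).trans ?_)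
    rw [Finset.sum_add_distrib]
    refine add_le_add hN2 (le_trans ?_ hNc)
    rw [← Finset.sum_filter, Finset.sum_const, nsmul_eq_mul]
    refine mul_le_mul_of_nonneg_right ?_ (Nat.cast_nonneg _)
    have h2 : (Finset.Icc 1 N).filter (fun t => t < t1) ⊆ Finset.range t1 := by
      intro t ht
      rw [Finset.mem_filter] at ht
      exact Finset.mem_range.2 ht.2
    have h3 := Finset.card_le_card h2
    rw [Finset.card_range] at h3
    exact_mod_cast h3
  -- the good part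
  set T : Finset ℕ := (Finset.Icc 1 N).filter (fun t : ℕ => t ≡ t₀ [MOD h] ∧ ∃ d : ℕ,
    (d : ℤ) ∣ a * (t : ℤ) ^ 2 + b * t + c ∧ α * t ≤ d ∧ d ≤ β * t ∧ P t d) with hT
  have hgood : ∑ t ∈ Tset, ((G t).card : ℝ) ≤ T.card * Z ^ 2 := by
    have h1 : ∀ t ∈ Tset, ((G t).card : ℝ) ≤ if t ∈ T then Z ^ 2 else 0 := by
      intro t ht
      rw [hTset, Finset.mem_filter, Finset.mem_Icc] at ht
      rcases (G t).eq_empty_or_nonempty with h0 | ⟨d, hd⟩
      · rw [h0, Finset.card_empty, Nat.cast_zero]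
        split_ifs
        · positivity
        · exact le_rfl
      · rw [hG, Finset.mem_filter] at hd
        obtain ⟨hd1, hd2, hd3, hd4⟩ := hmemD t d hd.1 ht.1.1
        have hdD := hd.1
        rw [hDt, Finset.mem_filter] at hdD
        have htT : t ∈ T := by
          rw [hT, Finset.mem_filter, Finset.mem_Icc]
          exact ⟨ht.1, ht.2, d, hdD.2⟩
        rw [if_pos htT]
        have h2 : (G t).card ≤ (ft t).divisors.card := by
          refine Finset.card_le_card fun e he => ?_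
          rw [hG, Finset.mem_filter] at he
          exact Nat.mem_divisors.2 ⟨(hmemD t e he.1 ht.1.1).2.1, hft0 t⟩
        have h3 : (ft t).divisors.card ≤ d.divisors.card * (ft t / d).divisors.card := by
          conv_lhs => rw [← Nat.mul_div_cancel' hd2]
          exact div_mul_le _ _
        have h4 : ((G t).card : ℝ) ≤ (d.divisors.card : ℝ) * ((ft t / d).divisors.card : ℝ) := by
          exact_mod_cast h2.trans h3
        calc ((G t).card : ℝ) ≤ (d.divisors.card : ℝ) * ((ft t / d).divisors.card : ℝ) := h4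
          _ ≤ Z * Z := mul_le_mul hd.2.1 hd.2.2 (Nat.cast_nonneg _) hZ0.le
          _ = Z ^ 2 := by ring
    calc ∑ t ∈ Tset, ((G t).card : ℝ) ≤ ∑ t ∈ Tset, (if t ∈ T then Z ^ 2 else 0) :=
          Finset.sum_le_sum h1
      _ = ((Tset.filter (fun t => t ∈ T)).card : ℝ) * Z ^ 2 := by
          rw [← Finset.sum_filter, Finset.sum_const, nsmul_eq_mul]
      _ ≤ T.card * Z ^ 2 := by
          refine mul_le_mul_of_nonneg_right ?_ (by positivity)
          have : Tset.filter (fun t => t ∈ T) ⊆ T := fun t ht => (Finset.mem_filter.1 ht).2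
          exact_mod_cast Finset.card_le_card this
  have htotal : η * N ≤ T.card * Z ^ 2 + η / 4 * N + (η / 4 * N + η / 4 * N) := by
    rw [hpc] at hNp
    calc η * N ≤ ∑ t ∈ Tset, ((Dt t).card : ℝ) := hNp
      _ ≤ ∑ t ∈ Tset, (((G t).card : ℝ) + (B1 t).card + (B2 t).card) :=
          Finset.sum_le_sum fun t _ => hsplit t
      _ = ∑ t ∈ Tset, ((G t).card : ℝ) + ∑ t ∈ Tset, ((B1 t).card : ℝ) +
          ∑ t ∈ Tset, ((B2 t).card : ℝ) := by
          rw [Finset.sum_add_distrib, Finset.sum_add_distrib]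
      _ ≤ _ := add_le_add (add_le_add hgood hsum1) hsum2
  have hmain : η / 4 * N ≤ T.card * Z ^ 2 := by linarith
  have hZ2 : Z ^ 2 = Real.log N ^ (2 * Real.log 2 + ε / 2) := by
    rw [hZ, ← Real.rpow_natCast, ← Real.rpow_mul hL0.le]
    congr 1
    push_cast
    ring
  have hsplitpow : Real.log (N : ℝ) ^ (2 * Real.log 2 + ε) =
      Real.log N ^ (2 * Real.log 2 + ε / 2) * Real.log N ^ (ε / 2) := by
    rw [← Real.rpow_add hL0]
    congr 1
    ring
  rw [hsplitpow, div_le_iff₀ (by positivity), ← hZ2]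
  have hN0 : (0 : ℝ) ≤ N := Nat.cast_nonneg _
  have h4η : 1 ≤ η / 4 * Real.log (N : ℝ) ^ (ε / 2) := by
    calc (1 : ℝ) = η / 4 * (4 / η) := by field_simp
      _ ≤ η / 4 * Real.log (N : ℝ) ^ (ε / 2) := mul_le_mul_of_nonneg_left hNpow (by positivity)
  calc (N : ℝ) = N * 1 := (mul_one _).symm
    _ ≤ N * (η / 4 * Real.log (N : ℝ) ^ (ε / 2)) := mul_le_mul_of_nonneg_left h4η hN0
    _ = (η / 4 * N) * Real.log (N : ℝ) ^ (ε / 2) := by ring
    _ ≤ (T.card * Z ^ 2) * Real.log (N : ℝ) ^ (ε / 2) :=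
        mul_le_mul_of_nonneg_right hmain (by positivity)
    _ = T.card * (Z ^ 2 * Real.log (N : ℝ) ^ (ε / 2)) := by ring

end Pool.Agent.Lib.MP_a17b09_nt.UW
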