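import Pool.Agent.Lib.MP_a17b09_nt.UW.T64
import Pool.Agent.Lib.MP_a17b09_nt.UW.Unw3

/-!
MP_a17b09_nt, unweighted corollary with exponent `log 2 + ε` (helper64): if the number of pairs
`(t, d)`, `t ≤ N`, `d ∣ f t`, `α t ≤ d ≤ β t`, with property `P` is at least `η N`, then at least
`N / (log N) ^ (log 2 + ε)` integers `t ≤ N` occur in these pairs.
-/

set_option autoImplicit false

open Filter Topology Finset

namespace Pool.Agent.Lib.MP_a17b09_nt.UW.U64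

open Pool.Agent.Lib.MP_a17b09_nt.MRSG.NugA12 (kro kro_ne)
open Pool.Agent.Lib.MP_a17b09_nt.CH (pairCount)
open Pool.Agent.Lib.MP_a17b09_nt.UW

/-- sum over `t` of the weights of the divisors -/
theorem cnt_w (a b c : ℤ) (K M N : ℕ) (w : ℕ → ℝ) (hw : ∀ d, 0 ≤ w d) :
    ∑ t ∈ Finset.Icc 1 N, ∑ d ∈ (Finset.Icc 1 M).filter (fun d : ℕ =>
      (d : ℤ) ∣ a * (t : ℤ) ^ 2 + b * t + c ∧ t ≤ K * d), w d ≤
      ((K : ℝ) + 1) * ∑ d ∈ Finset.Icc 1 M, (rho a b c d : ℝ) * w d := by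
  classical
  have h1 : ∑ t ∈ Finset.Icc 1 N, ∑ d ∈ (Finset.Icc 1 M).filter (fun d : ℕ =>
      (d : ℤ) ∣ a * (t : ℤ) ^ 2 + b * t + c ∧ t ≤ K * d), w d =
      ∑ d ∈ Finset.Icc 1 M, (((Finset.Icc 1 N).filter (fun t : ℕ =>
        (d : ℤ) ∣ a * (t : ℤ) ^ 2 + b * t + c ∧ t ≤ K * d)).card : ℝ) * w d := by
    rw [Finset.sum_congr rfl fun t _ => Finset.sum_filter _ _, Finset.sum_comm]
    refine Finset.sum_congr rfl fun d _ => ?_
    rw [← Finset.sum_filter, Finset.sum_const, nsmul_eq_mul]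
  rw [h1, Finset.mul_sum]
  refine Finset.sum_le_sum fun d hd => ?_
  rw [Finset.mem_Icc] at hd
  have h3 : (((Finset.Icc 1 N).filter (fun t : ℕ => (d : ℤ) ∣ a * (t : ℤ) ^ 2 + b * t + c ∧
      t ≤ K * d)).card : ℝ) ≤ ((K : ℝ) + 1) * rho a b c d := by
    exact_mod_cast cnt_t a b c K d N hd.1
  calc _ ≤ ((K : ℝ) + 1) * rho a b c d * w d := mul_le_mul_of_nonneg_right h3 (hw d)
    _ = _ := by ring

private lemma unw_X52 {B : ℝ} {N : ℕ} (hB : 0 < B) (hNR : (2 : ℝ) ≤ N) (hNB : B + 1 ≤ N) :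
    2 ≤ ⌊(B + 1) * (N : ℝ)⌋₊ ∧ ((⌊(B + 1) * (N : ℝ)⌋₊ : ℕ) : ℝ) ≤ (B + 1) * N ∧
      ⌊B * (N : ℝ)⌋₊ ≤ ⌊(B + 1) * (N : ℝ)⌋₊ ∧
      ((⌊(B + 1) * (N : ℝ)⌋₊ : ℕ) : ℝ) ≤ (N : ℝ) ^ 2 := by
  have hN0 : (0 : ℝ) < N := lt_of_lt_of_le two_pos hNR
  have h1 : 1 ≤ B + 1 := le_add_of_nonneg_left hB.le
  have h2 : (N : ℝ) ≤ (B + 1) * N := le_mul_of_one_le_left hN0.le h1
  have h3 : (B + 1) * (N : ℝ) ≤ N * N := mul_le_mul_of_nonneg_right hNB hN0.le
  have h4 : 0 ≤ (B + 1) * (N : ℝ) := hN0.le.trans h2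
  refine ⟨Nat.le_floor ?_, Nat.floor_le h4, Nat.floor_mono ?_, (Nat.floor_le h4).trans ?_⟩
  · exact (le_of_eq (by norm_num)).trans (hNR.trans h2)
  · exact mul_le_mul_of_nonneg_right (le_add_of_nonneg_right zero_le_one) hN0.le
  · rw [sq]
    exact h3

private lemma unw_log2_52 {X : ℕ} {L : ℝ} (hX : X ≠ 0) (h : Real.log (X : ℝ) ≤ 2 * L) :
    (Nat.log 2 X : ℝ) ≤ 3 * L := by
  have hX0 : (0 : ℝ) < X := by exact_mod_cast Nat.pos_of_ne_zero hX
  have h3 : ((2 : ℝ) ^ (Nat.log 2 X)) ≤ X := by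
    exact_mod_cast Nat.pow_log_le_self 2 hX
  have h4 : (Nat.log 2 X : ℝ) * Real.log 2 ≤ Real.log X := by
    rw [← Real.log_pow]
    exact Real.log_le_log (by positivity) h3
  have h5 : (0.69 : ℝ) < Real.log 2 := by linarith [Real.log_two_gt_d9]
  have h6 : (0 : ℝ) ≤ (Nat.log 2 X : ℝ) := Nat.cast_nonneg _
  nlinarith

private lemma unw_up52 (a b c : ℝ) {t : ℝ} (ht : 1 ≤ t) :
    |a * t ^ 2 + b * t + c| ≤ (|a| + |b| + |c|) * t ^ 2 := by
  have ht0 : 0 ≤ t := le_trans zero_le_one ht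
  have h1 : t ≤ t ^ 2 := le_self_pow₀ ht two_ne_zero
  have h2 : 1 ≤ t ^ 2 := one_le_pow₀ ht
  calc |a * t ^ 2 + b * t + c| ≤ |a * t ^ 2| + |b * t| + |c| := abs_add_three _ _ _
    _ = |a| * t ^ 2 + |b| * t + |c| := by
        rw [abs_mul, abs_mul, abs_of_nonneg (sq_nonneg t), abs_of_nonneg ht0]
    _ ≤ |a| * t ^ 2 + |b| * t ^ 2 + |c| * t ^ 2 :=
        add_le_add (add_le_add le_rfl (mul_le_mul_of_nonneg_left h1 (abs_nonneg _)))
          (le_mul_of_one_le_right (abs_nonneg _) h2)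
    _ = _ := by ring

private lemma unw_low52 {a b c t : ℝ} (ht : 1 ≤ t) (h : 2 * (|b| + |c|) ≤ t * a) :
    a / 2 * t ^ 2 ≤ |a * t ^ 2 + b * t + c| := by
  have ht0 : 0 ≤ t := le_trans zero_le_one ht
  have h3 : -|b| * t ≤ b * t := mul_le_mul_of_nonneg_right (neg_abs_le _) ht0
  have h4 : -|c| ≤ c := neg_abs_le _
  have h5 : |c| ≤ |c| * t := le_mul_of_one_le_right (abs_nonneg _) ht
  have h6 : 2 * (|b| + |c|) * t ≤ t * a * t := mul_le_mul_of_nonneg_right h ht0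
  have h7 : t * a * t = a * t ^ 2 := by ring
  refine le_trans ?_ (le_abs_self _)
  linarith

private lemma unw_k1_52 {α t d : ℝ} (hα : 0 < α) (ht : 0 ≤ t) (h : α * t ≤ d) :
    t ≤ (⌈1 / α⌉₊ : ℝ) * d := by
  calc t = 1 / α * (α * t) := by field_simp
    _ ≤ ⌈1 / α⌉₊ * d := mul_le_mul (Nat.le_ceil _) h (mul_nonneg hα.le ht) (Nat.cast_nonneg _)

private lemma unw_k2_52 {α F t N d f : ℝ} (hα : 0 < α) (hF : 0 < F) (ht : 0 ≤ t) (htN : t ≤ N)
    (hd : 0 < d) (h3 : α * t ≤ d) (h : f ≤ F * t ^ 2) : f / d ≤ F / α * N := by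
  rw [div_le_iff₀ hd]
  have h0 : 0 ≤ F / α := (div_pos hF hα).le
  calc f ≤ F * t ^ 2 := h
    _ = F / α * t * (α * t) := by field_simp
    _ ≤ F / α * N * d :=
        mul_le_mul (mul_le_mul_of_nonneg_left htN h0) h3 (mul_nonneg hα.le ht)
          (mul_nonneg h0 (ht.trans htN))

private lemma unw_k3_52 {a β t d f : ℝ} (ha : 0 < a) (hβ : 0 < β) (ht : 0 ≤ t) (hd : 0 < d)
    (h4 : d ≤ β * t) (h : a / 2 * t ^ 2 ≤ f) : t ≤ (⌈2 * β / a⌉₊ : ℝ) * (f / d) := by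
  have h0 : 0 ≤ a / (2 * β) * t := by positivity
  have h6 : a / (2 * β) * t ≤ f / d := by
    rw [le_div_iff₀ hd]
    calc a / (2 * β) * t * d ≤ a / (2 * β) * t * (β * t) :=
          mul_le_mul_of_nonneg_left h4 h0
      _ = a / 2 * t ^ 2 := by field_simp
      _ ≤ f := h
  calc t = 2 * β / a * (a / (2 * β) * t) := by field_simp
    _ ≤ ⌈2 * β / a⌉₊ * (f / d) := mul_le_mul (Nat.le_ceil _) h6 h0 (Nat.cast_nonneg _)

private lemma unw_k4_52 {α β t d x : ℝ} {k : ℕ} (hα : 0 < α) (hk : β / α < 2 ^ k) (ht : 0 ≤ t)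
    (hd : α * t ≤ d) (hx : x ≤ β * t) : x ≤ 2 ^ k * d := by
  calc x ≤ β * t := hx
    _ = β / α * (α * t) := by field_simp
    _ ≤ 2 ^ k * d := mul_le_mul hk.le hd (mul_nonneg hα.le ht) (by positivity)

private lemma unw_mom52 {S A A' B B' c C1 C2 C3 Z N L : ℝ} (hc : 0 ≤ c) (hC3 : C3 = c * (C1 + C2))
    (hS : S ≤ c * (A + A')) (hA : A ≤ B) (hA' : A' ≤ B') (hB : B = C1 * Z * N * L)
    (hB' : B' = C2 * Z * N * L) : S ≤ C3 * Z * N * L := by
  calc S ≤ c * (A + A') := hS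
    _ ≤ c * (B + B') := mul_le_mul_of_nonneg_left (add_le_add hA hA') hc
    _ = C3 * Z * N * L := by rw [hB, hB', hC3]; ring

private lemma unw_fin52 {η N T S C3 Z L s : ℝ} (hη : 0 < η) (hN : 0 < N) (hZ : 0 < Z)
    (hT : 0 ≤ T) (hlow : η / 4 * N ≤ S) (hCS : S ^ 2 ≤ T * (C3 * Z * N * L))
    (hs : 0 < s) (hslow : C3 * (16 / η ^ 2) * L ≤ s) : N / (Z * s) ≤ T := by
  have hη4 : 0 < η / 4 := by linarith
  have hmain : (η / 4) ^ 2 * N ≤ T * (C3 * Z * L) := by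
    have h1 : (η / 4 * N) ^ 2 ≤ T * (C3 * Z * N * L) :=
      (pow_le_pow_left₀ (mul_pos hη4 hN).le hlow 2).trans hCS
    have h2 : ((η / 4) ^ 2 * N) * N ≤ (T * (C3 * Z * L)) * N := by
      calc ((η / 4) ^ 2 * N) * N = (η / 4 * N) ^ 2 := by ring
        _ ≤ _ := h1
        _ = _ := by ring
    exact le_of_mul_le_mul_right h2 hN
  rw [div_le_iff₀ (mul_pos hZ hs)]
  have hη2 : (16 / η ^ 2) * (η / 4) ^ 2 = 1 := by
    field_simp
    norm_num
  calc N = (16 / η ^ 2) * ((η / 4) ^ 2 * N) := by rw [← mul_assoc, hη2, one_mul]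
    _ ≤ (16 / η ^ 2) * (T * (C3 * Z * L)) := mul_le_mul_of_nonneg_left hmain (by positivity)
    _ = T * (Z * (C3 * (16 / η ^ 2) * L)) := by ring
    _ ≤ T * (Z * s) :=
        mul_le_mul_of_nonneg_left (mul_le_mul_of_nonneg_left hslow hZ.le) hT

private lemma unw_low4_52 {η N D S B1 B2 : ℝ} (h1 : η * N ≤ D + η / 4 * N)
    (hD : D ≤ S + B1 + B2) (hB1 : B1 ≤ η / 4 * N) (hB2 : B2 ≤ η / 4 * N) :
    η / 4 * N ≤ S := by
  linarith

private lemma unw_slow52 (C : ℝ) {δ : ℝ} (hδ : 0 < δ) : ∀ᶠ N : ℕ in atTop,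
    C * (1 + Real.log (4 * Real.log (N : ℝ))) ≤ Real.log (N : ℝ) ^ δ := by
  have hloglim : Tendsto (fun N : ℕ => Real.log (N : ℝ)) atTop atTop :=
    Real.tendsto_log_atTop.comp tendsto_natCast_atTop_atTop
  have h1 : ∀ᶠ x : ℝ in atTop, C * (1 + Real.log (4 * x)) ≤ x ^ δ := by
    have h2 : (fun x : ℝ => C * (1 + Real.log (4 * x))) =o[atTop]
        (fun x : ℝ => x ^ δ) := by
      refine Asymptotics.IsLittleO.const_mul_left (Asymptotics.IsLittleO.add ?_ ?_) _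
      · exact Asymptotics.isLittleO_const_left.2 (Or.inr (tendsto_norm_atTop_atTop.comp
          (tendsto_rpow_atTop hδ)))
      · have h3 : (fun x : ℝ => Real.log (4 * x)) =ᶠ[atTop]
            (fun x : ℝ => Real.log 4 + Real.log x) := by
          filter_upwards [eventually_gt_atTop 0] with x hx
          exact Real.log_mul (by norm_num) hx.ne'
        refine Asymptotics.IsLittleO.congr' ?_ h3.symm (EventuallyEq.refl _ _)
        refine Asymptotics.IsLittleO.add ?_ (isLittleO_log_rpow_atTop hδ)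
        exact Asymptotics.isLittleO_const_left.2 (Or.inr (tendsto_norm_atTop_atTop.comp
          (tendsto_rpow_atTop hδ)))
    filter_upwards [h2.bound one_pos, eventually_ge_atTop 1] with x hx hx1
    have h4 : (0 : ℝ) ≤ x ^ δ := Real.rpow_nonneg (le_trans zero_le_one hx1) _
    rw [one_mul, Real.norm_of_nonneg h4] at hx
    exact (le_abs_self _).trans hx
  exact hloglim.eventually h1

private lemma unw_bad52 {K B C Z S L D s δ' η : ℝ} {N : ℕ} (hK : 0 ≤ K) (hB : 0 < B)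
    (hC : 0 < C) (hZ : 0 ≤ Z) (hL : 0 ≤ L) (hη : K * (C * (B + 1) * 2) * δ' < η)
    (hS : S ≤ Z * (C * D * L)) (hDN : D ≤ (B + 1) * N) (hLs : L ≤ 2 * s)
    (h6 : Z * s ≤ δ') : K * S ≤ η * N := by
  have hN : (0 : ℝ) ≤ N := Nat.cast_nonneg N
  have hB1 : 0 < B + 1 := add_pos hB one_pos
  have hW : 0 ≤ K * (C * (B + 1) * 2) * N :=
    mul_nonneg (mul_nonneg hK (mul_pos (mul_pos hC hB1) two_pos).le) hN
  calc K * S ≤ K * (Z * (C * ((B + 1) * N) * (2 * s))) := by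
        refine mul_le_mul_of_nonneg_left (hS.trans (mul_le_mul_of_nonneg_left ?_ hZ)) hK
        exact mul_le_mul (mul_le_mul_of_nonneg_left hDN hC.le) hLs hL
          (mul_nonneg hC.le (mul_nonneg hB1.le hN))
    _ = (K * (C * (B + 1) * 2) * N) * (Z * s) := by ring
    _ ≤ (K * (C * (B + 1) * 2) * N) * δ' := mul_le_mul_of_nonneg_left h6 hW
    _ = (K * (C * (B + 1) * 2) * δ') * N := by ring
    _ ≤ η * N := mul_le_mul_of_nonneg_right hη.le hN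

/-- one bad part is at most `η N` -/
theorem bad_small64 (a b c : ℤ) (ha : a ≠ 0) [NeZero (b ^ 2 - 4 * a * c)]
    (hk : kro (b ^ 2 - 4 * a * c) ≠ 1) (K : ℕ) (B : ℝ) (hB : 0 < B) {ε : ℝ} (hε : 0 < ε)
    {η : ℝ} (hη : 0 < η) :
    ∀ᶠ N : ℕ in atTop, ∑ t ∈ Finset.Icc 1 N, (((Finset.Icc 1 ⌊B * N⌋₊).filter (fun d : ℕ =>
      ((d : ℤ) ∣ a * (t : ℤ) ^ 2 + b * t + c ∧ t ≤ K * d) ∧
        Real.log N ^ (Real.log 2 + ε) < (2 : ℝ) ^ (ArithmeticFunction.cardFactors d))).card : ℝ) ≤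
          η * N := by
  have hD : b ^ 2 - 4 * a * c ≠ 0 := NeZero.ne _
  set δ : ℝ := min (1 / 2) (ε / 2) with hδd
  have hδ0 : 0 < δ := lt_min (by norm_num) (by positivity)
  have hδh : δ ≤ 1 / 2 := min_le_left _ _
  have hδ1 : δ ≤ 1 := hδh.trans (by norm_num)
  have hδε : δ ≤ ε / 2 := min_le_right _ _
  have h2δ : (1 : ℝ) ≤ (2 : ℝ) ^ δ := Real.one_le_rpow (by norm_num) hδ0.le
  have h32 : (2 : ℝ) ^ δ ≤ 3 / 2 := by
    calc (2 : ℝ) ^ δ ≤ 2 ^ (1 / 2 : ℝ) := Real.rpow_le_rpow_of_exponent_le (by norm_num) hδh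
      _ = Real.sqrt 2 := by rw [Real.sqrt_eq_rpow]
      _ ≤ 3 / 2 := by
          rw [Real.sqrt_le_left (by norm_num)]
          norm_num
  obtain ⟨C, hC0, hC⟩ := hx_mean a b c ha hk (by linarith : (0 : ℝ) ≤ (2 : ℝ) ^ δ) h32
  have hexp := expo hε hδ0 hδ1 hδε
  have hγ : 0 < δ * ε / 2 := by positivity
  have hloglim : Tendsto (fun N : ℕ => Real.log (N : ℝ)) atTop atTop :=
    Real.tendsto_log_atTop.comp tendsto_natCast_atTop_atTop
  have hlim : Tendsto (fun N : ℕ => ((K : ℝ) + 1) * (C * (B + 1) * 2) *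
      Real.log (N : ℝ) ^ (-(δ * ε / 2))) atTop (𝓝 0) := by
    have h1 := ((tendsto_rpow_neg_atTop hγ).comp hloglim).const_mul
      (((K : ℝ) + 1) * (C * (B + 1) * 2))
    rw [mul_zero] at h1
    exact h1
  filter_upwards [hlim.eventually (gt_mem_nhds hη), hloglim.eventually_ge_atTop 1,
    eventually_ge_atTop (max 2 ⌈B + 1⌉₊)] with N hN1 hN2 hN3
  have hN2' : 2 ≤ N := (le_max_left _ _).trans hN3
  have hNR : (2 : ℝ) ≤ N := by exact_mod_cast hN2'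
  have hNB : B + 1 ≤ N := (Nat.le_ceil _).trans (by exact_mod_cast (le_max_right _ _).trans hN3)
  have hL0 : 0 < Real.log (N : ℝ) := lt_of_lt_of_le one_pos (by assumption)
  set Z : ℝ := Real.log N ^ (Real.log 2 + ε) with hZ
  have hZ0 : 0 < Z := Real.rpow_pos_of_pos hL0 _
  have hw0 : ∀ d : ℕ, 0 ≤ Z ^ (-δ) * ((2 : ℝ) ^ δ) ^ (ArithmeticFunction.cardFactors d) := by
    intro d; positivity
  have hstep : ∑ t ∈ Finset.Icc 1 N, (((Finset.Icc 1 ⌊B * N⌋₊).filter (fun d : ℕ =>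
      ((d : ℤ) ∣ a * (t : ℤ) ^ 2 + b * t + c ∧ t ≤ K * d) ∧
        Z < (2 : ℝ) ^ (ArithmeticFunction.cardFactors d))).card : ℝ) ≤
      ∑ t ∈ Finset.Icc 1 N, ∑ d ∈ (Finset.Icc 1 ⌊B * N⌋₊).filter (fun d : ℕ =>
        (d : ℤ) ∣ a * (t : ℤ) ^ 2 + b * t + c ∧ t ≤ K * d),
          Z ^ (-δ) * ((2 : ℝ) ^ δ) ^ (ArithmeticFunction.cardFactors d) := by
    refine Finset.sum_le_sum fun t _ => ?_
    rw [← Finset.filter_filter]
    calc _ = ∑ _d ∈ ((Finset.Icc 1 ⌊B * N⌋₊).filter (fun d : ℕ =>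
          (d : ℤ) ∣ a * (t : ℤ) ^ 2 + b * t + c ∧ t ≤ K * d)).filter
            (fun d => Z < (2 : ℝ) ^ (ArithmeticFunction.cardFactors d)), (1 : ℝ) := by
          rw [Finset.sum_const, nsmul_eq_mul, mul_one]
      _ ≤ ∑ d ∈ ((Finset.Icc 1 ⌊B * N⌋₊).filter (fun d : ℕ =>
          (d : ℤ) ∣ a * (t : ℤ) ^ 2 + b * t + c ∧ t ≤ K * d)).filter
            (fun d => Z < (2 : ℝ) ^ (ArithmeticFunction.cardFactors d)),
              Z ^ (-δ) * ((2 : ℝ) ^ δ) ^ (ArithmeticFunction.cardFactors d) := by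
          refine Finset.sum_le_sum fun d hd => ?_
          have hd2 := (Finset.mem_filter.1 hd).2
          rw [Real.rpow_neg hZ0.le, ← div_eq_inv_mul, le_div_iff₀ (by positivity), one_mul]
          calc Z ^ δ ≤ ((2 : ℝ) ^ (ArithmeticFunction.cardFactors d)) ^ δ :=
                Real.rpow_le_rpow hZ0.le hd2.le hδ0.le
            _ = ((2 : ℝ) ^ δ) ^ (ArithmeticFunction.cardFactors d) := by
                rw [← Real.rpow_natCast, ← Real.rpow_natCast, ← Real.rpow_mul (by norm_num),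
                  ← Real.rpow_mul (by norm_num), mul_comm]
      _ ≤ _ := Finset.sum_le_sum_of_subset_of_nonneg (Finset.filter_subset _ _)
          (fun d _ _ => hw0 d)
  refine hstep.trans ((cnt_w a b c K ⌊B * N⌋₊ N _ hw0).trans ?_)
  -- bound for the sum up to `X = ⌊(B + 1) N⌋`
  obtain ⟨hX2, hXle, hXsub, hXN⟩ := unw_X52 hB hNR hNB
  generalize ⌊(B + 1) * (N : ℝ)⌋₊ = X at hX2 hXle hXsub hXN
  have hsub : Finset.Icc 1 ⌊B * N⌋₊ ⊆ Finset.Icc 1 X :=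
    Finset.Icc_subset_Icc_right hXsub
  have h1 : ∑ d ∈ Finset.Icc 1 ⌊B * N⌋₊, (rho a b c d : ℝ) *
      (Z ^ (-δ) * ((2 : ℝ) ^ δ) ^ (ArithmeticFunction.cardFactors d)) ≤
      Z ^ (-δ) * (C * X * Real.log X ^ ((2 : ℝ) ^ δ - 1)) := by
    calc _ ≤ ∑ d ∈ Finset.Icc 1 ⌊B * N⌋₊, Z ^ (-δ) * hx a b c ((2 : ℝ) ^ δ) d := by
          refine Finset.sum_le_sum fun d hd => ?_
          rw [Finset.mem_Icc] at hd
          have h2 : (rho a b c d : ℝ) ≤ rr a b c d := by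
            exact_mod_cast rho_le_rr a b c ha hD d (by omega)
          calc _ ≤ (rr a b c d : ℝ) *
                (Z ^ (-δ) * ((2 : ℝ) ^ δ) ^ (ArithmeticFunction.cardFactors d)) :=
                mul_le_mul_of_nonneg_right h2 (hw0 d)
            _ = _ := by unfold hx; ring
      _ = Z ^ (-δ) * ∑ d ∈ Finset.Icc 1 ⌊B * N⌋₊, hx a b c ((2 : ℝ) ^ δ) d := by
          rw [Finset.mul_sum]
      _ ≤ _ := mul_le_mul_of_nonneg_left
          ((Finset.sum_le_sum_of_subset_of_nonneg hsub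
            (fun d _ _ => hx_nonneg a b c (le_trans zero_le_one h2δ) d)).trans (hC X hX2))
          (Real.rpow_nonneg hZ0.le _)
  have h2δ' : (2 : ℝ) ^ δ - 1 ≤ 1 := (sub_le_sub_right h32 1).trans (by norm_num)
  have hX0 : (0 : ℝ) < X := by
    have : 0 < X := by omega
    exact_mod_cast this
  have hlogX0 : 0 ≤ Real.log (X : ℝ) := Real.log_natCast_nonneg X
  have hlogX : Real.log (X : ℝ) ≤ 2 * Real.log N := by
    calc Real.log (X : ℝ) ≤ Real.log ((N : ℝ) ^ 2) := Real.log_le_log hX0 hXN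
      _ = 2 * Real.log N := by rw [Real.log_pow]; norm_num
  have h4 : Real.log (X : ℝ) ^ ((2 : ℝ) ^ δ - 1) ≤ 2 * Real.log N ^ ((2 : ℝ) ^ δ - 1) := by
    calc Real.log (X : ℝ) ^ ((2 : ℝ) ^ δ - 1) ≤ (2 * Real.log N) ^ ((2 : ℝ) ^ δ - 1) :=
          Real.rpow_le_rpow hlogX0 hlogX (sub_nonneg.2 h2δ)
      _ = (2 : ℝ) ^ ((2 : ℝ) ^ δ - 1) * Real.log N ^ ((2 : ℝ) ^ δ - 1) :=
          Real.mul_rpow (by norm_num) hL0.le
      _ ≤ 2 * Real.log N ^ ((2 : ℝ) ^ δ - 1) := by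
          refine mul_le_mul_of_nonneg_right ?_ (Real.rpow_nonneg hL0.le _)
          calc (2 : ℝ) ^ ((2 : ℝ) ^ δ - 1) ≤ 2 ^ (1 : ℝ) :=
                Real.rpow_le_rpow_of_exponent_le (by norm_num) h2δ'
            _ = 2 := Real.rpow_one 2
  have h5 : Z ^ (-δ) = Real.log N ^ (-(δ * (Real.log 2 + ε))) := by
    rw [hZ, ← Real.rpow_mul hL0.le]
    congr 1
    ring
  have h6 : Z ^ (-δ) * Real.log N ^ ((2 : ℝ) ^ δ - 1) ≤ Real.log N ^ (-(δ * ε / 2)) := by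
    rw [h5, ← Real.rpow_add hL0]
    exact Real.rpow_le_rpow_of_exponent_le hN2 (by linarith)
  exact unw_bad52 (add_nonneg (Nat.cast_nonneg _) zero_le_one) hB hC0
    (Real.rpow_nonneg hZ0.le _) (Real.rpow_nonneg hlogX0 _) hN1 h1 hXle h4 h6

/-- the close pairs of divisors, summed over the typical divisors -/
theorem good_up64 (a b c : ℤ) (ha : a ≠ 0) [NeZero (b ^ 2 - 4 * a * c)]
    (hk : kro (b ^ 2 - 4 * a * c) ≠ 1) (K : ℕ) (B : ℝ) (hB : 0 < B) :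
    ∃ C : ℝ, 0 < C ∧ ∀ᶠ N : ℕ in atTop, ∀ Z : ℝ, 0 < Z →
      ∑ t ∈ Finset.Icc 1 N, ∑ d ∈ (Finset.Icc 1 ⌊B * N⌋₊).filter (fun d : ℕ =>
        ((d : ℤ) ∣ a * (t : ℤ) ^ 2 + b * t + c ∧ t ≤ K * d) ∧
          (2 : ℝ) ^ (ArithmeticFunction.cardFactors d) ≤ Z), (TT d : ℝ) ≤
        C * Z * N * (1 + Real.log (4 * Real.log N)) := by
  have hD : b ^ 2 - 4 * a * c ≠ 0 := NeZero.ne _
  obtain ⟨C, hC0, hC⟩ := TT_mean a b c ha hk
  refine ⟨((K : ℝ) + 1) * (C * (B + 1)), by positivity, ?_⟩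
  have hloglim : Tendsto (fun N : ℕ => Real.log (N : ℝ)) atTop atTop :=
    Real.tendsto_log_atTop.comp tendsto_natCast_atTop_atTop
  filter_upwards [hloglim.eventually_ge_atTop 1, eventually_ge_atTop (max 2 ⌈B + 1⌉₊)] with
    N hN2 hN3 Z hZ
  have hN2' : 2 ≤ N := (le_max_left _ _).trans hN3
  have hNR : (2 : ℝ) ≤ N := by exact_mod_cast hN2'
  have hNB : B + 1 ≤ N := (Nat.le_ceil _).trans (by exact_mod_cast (le_max_right _ _).trans hN3)
  have hL0 : 0 < Real.log (N : ℝ) := lt_of_lt_of_le one_pos (by assumption)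
  have hw0 : ∀ d : ℕ, 0 ≤ Z * ((1 / 2 : ℝ) ^ (ArithmeticFunction.cardFactors d) * (TT d : ℝ)) := by
    intro d; positivity
  have hstep : ∑ t ∈ Finset.Icc 1 N, ∑ d ∈ (Finset.Icc 1 ⌊B * N⌋₊).filter (fun d : ℕ =>
        ((d : ℤ) ∣ a * (t : ℤ) ^ 2 + b * t + c ∧ t ≤ K * d) ∧
          (2 : ℝ) ^ (ArithmeticFunction.cardFactors d) ≤ Z), (TT d : ℝ) ≤
      ∑ t ∈ Finset.Icc 1 N, ∑ d ∈ (Finset.Icc 1 ⌊B * N⌋₊).filter (fun d : ℕ =>
        (d : ℤ) ∣ a * (t : ℤ) ^ 2 + b * t + c ∧ t ≤ K * d),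
          Z * ((1 / 2 : ℝ) ^ (ArithmeticFunction.cardFactors d) * (TT d : ℝ)) := by
    refine Finset.sum_le_sum fun t _ => ?_
    rw [← Finset.filter_filter]
    calc _ ≤ ∑ d ∈ ((Finset.Icc 1 ⌊B * N⌋₊).filter (fun d : ℕ =>
          (d : ℤ) ∣ a * (t : ℤ) ^ 2 + b * t + c ∧ t ≤ K * d)).filter
            (fun d => (2 : ℝ) ^ (ArithmeticFunction.cardFactors d) ≤ Z),
              Z * ((1 / 2 : ℝ) ^ (ArithmeticFunction.cardFactors d) * (TT d : ℝ)) := by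
          refine Finset.sum_le_sum fun d hd => ?_
          have hd2 := (Finset.mem_filter.1 hd).2
          have h1 : 1 ≤ Z * (1 / 2 : ℝ) ^ (ArithmeticFunction.cardFactors d) := by
            rw [one_div, inv_pow, ← div_eq_mul_inv, le_div_iff₀ (by positivity), one_mul]
            exact hd2
          calc (TT d : ℝ) = 1 * TT d := (one_mul _).symm
            _ ≤ (Z * (1 / 2 : ℝ) ^ (ArithmeticFunction.cardFactors d)) * TT d :=
                mul_le_mul_of_nonneg_right h1 (Nat.cast_nonneg _)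
            _ = _ := by ring
      _ ≤ _ := Finset.sum_le_sum_of_subset_of_nonneg (Finset.filter_subset _ _)
          (fun d _ _ => hw0 d)
  refine hstep.trans ((cnt_w a b c K ⌊B * N⌋₊ N _ hw0).trans ?_)
  obtain ⟨hX2, hXle, hXsub, hXN⟩ := unw_X52 hB hNR hNB
  generalize ⌊(B + 1) * (N : ℝ)⌋₊ = X at hX2 hXle hXsub hXN
  have hsub : Finset.Icc 1 ⌊B * N⌋₊ ⊆ Finset.Icc 1 X :=
    Finset.Icc_subset_Icc_right hXsub
  have hX0 : (0 : ℝ) < X := by
    have : 0 < X := by omega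
    exact_mod_cast this
  have hlogX : Real.log (X : ℝ) ≤ 2 * Real.log N := by
    calc Real.log (X : ℝ) ≤ Real.log ((N : ℝ) ^ 2) := Real.log_le_log hX0 hXN
      _ = 2 * Real.log N := by rw [Real.log_pow]; norm_num
  have hlog2 : (Nat.log 2 X : ℝ) ≤ 3 * Real.log N := unw_log2_52 (by omega) hlogX
  have hLL : Real.log ((Nat.log 2 X : ℝ) + 1) ≤ Real.log (4 * Real.log N) := by
    apply Real.log_le_log (by positivity)
    linarith
  have hLL0 : 0 ≤ Real.log ((Nat.log 2 X : ℝ) + 1) :=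
    Real.log_nonneg (le_add_of_nonneg_left (Nat.cast_nonneg _))
  have h1 : ∑ d ∈ Finset.Icc 1 ⌊B * N⌋₊, (rho a b c d : ℝ) *
      (Z * ((1 / 2 : ℝ) ^ (ArithmeticFunction.cardFactors d) * (TT d : ℝ))) ≤
      Z * (C * X * (1 + Real.log ((Nat.log 2 X : ℝ) + 1))) := by
    calc _ ≤ ∑ d ∈ Finset.Icc 1 ⌊B * N⌋₊, Z * (hx a b c (1 / 2) d * TT d) := by
          refine Finset.sum_le_sum fun d hd => ?_
          rw [Finset.mem_Icc] at hd
          have h2 : (rho a b c d : ℝ) ≤ rr a b c d := by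
            exact_mod_cast rho_le_rr a b c ha hD d (by omega)
          calc _ ≤ (rr a b c d : ℝ) *
                (Z * ((1 / 2 : ℝ) ^ (ArithmeticFunction.cardFactors d) * (TT d : ℝ))) :=
                mul_le_mul_of_nonneg_right h2 (hw0 d)
            _ = _ := by unfold hx; ring
      _ = Z * ∑ d ∈ Finset.Icc 1 ⌊B * N⌋₊, hx a b c (1 / 2) d * TT d := by
          rw [Finset.mul_sum]
      _ ≤ _ := mul_le_mul_of_nonneg_left
          ((Finset.sum_le_sum_of_subset_of_nonneg hsub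
            (fun d _ _ => mul_nonneg (hx_nonneg a b c (by norm_num) d)
              (Nat.cast_nonneg _))).trans (hC X (by omega))) hZ.le
  calc ((K : ℝ) + 1) * ∑ d ∈ Finset.Icc 1 ⌊B * N⌋₊, (rho a b c d : ℝ) *
      (Z * ((1 / 2 : ℝ) ^ (ArithmeticFunction.cardFactors d) * (TT d : ℝ)))
      ≤ ((K : ℝ) + 1) * (Z * (C * ((B + 1) * N) * (1 + Real.log (4 * Real.log N)))) := by
        refine mul_le_mul_of_nonneg_left (h1.trans (mul_le_mul_of_nonneg_left ?_ hZ.le))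
          (by positivity)
        exact mul_le_mul (mul_le_mul_of_nonneg_left hXle hC0.le) (add_le_add le_rfl hLL)
          (add_nonneg zero_le_one hLL0) (by positivity)
    _ = _ := by ring

/-- the divisors close to `d` in terms of the divisors of `d` and of `n / d` -/
theorem card_near (n d k : ℕ) (hn : n ≠ 0) (hd : d ∣ n) (G : Finset ℕ)
    (hG : ∀ x ∈ G, x ∣ n ∧ x ≤ 2 ^ k * d ∧ d ≤ 2 ^ k * x) :
    G.card ≤ ((d.divisors ×ˢ (n / d).divisors).filter (fun z =>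
      Nat.log 2 z.1 ≤ Nat.log 2 z.2 + k ∧ Nat.log 2 z.2 ≤ Nat.log 2 z.1 + k)).card := by
  have hn0 : 0 < n := Nat.pos_of_ne_zero hn
  have hd0 : 0 < d := Nat.pos_of_dvd_of_pos hd hn0
  have hlog : ∀ u v : ℕ, 0 < u → 0 < v → u ≤ 2 ^ k * v → Nat.log 2 u ≤ Nat.log 2 v + k := by
    intro u v hu hv h
    have h1 : 2 ^ Nat.log 2 u ≤ u := Nat.pow_log_le_self 2 hu.ne'
    have h2 : v < 2 ^ (Nat.log 2 v + 1) := Nat.lt_pow_succ_log_self (by norm_num) _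
    have h3 : 2 ^ Nat.log 2 u < 2 ^ (Nat.log 2 v + k + 1) := by
      calc 2 ^ Nat.log 2 u ≤ 2 ^ k * v := h1.trans h
        _ < 2 ^ k * 2 ^ (Nat.log 2 v + 1) := Nat.mul_lt_mul_of_pos_left h2 (by positivity)
        _ = 2 ^ (Nat.log 2 v + k + 1) := by rw [← pow_add]; congr 1; omega
    have h4 := (Nat.pow_lt_pow_iff_right (by norm_num : 1 < 2)).1 h3
    omega
  have hfact : ∀ x ∈ G, 0 < x ∧ 0 < Nat.gcd d x ∧ Nat.gcd d x * (d / Nat.gcd d x) = d ∧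
      Nat.gcd d x * (x / Nat.gcd d x) = x ∧ 0 < d / Nat.gcd d x ∧ 0 < x / Nat.gcd d x := by
    intro x hx
    have hx0 : 0 < x := Nat.pos_of_dvd_of_pos (hG x hx).1 hn0
    have hg : 0 < Nat.gcd d x := Nat.gcd_pos_of_pos_left _ hd0
    refine ⟨hx0, hg, Nat.mul_div_cancel' (Nat.gcd_dvd_left _ _),
      Nat.mul_div_cancel' (Nat.gcd_dvd_right _ _),
      Nat.div_pos (Nat.le_of_dvd hd0 (Nat.gcd_dvd_left _ _)) hg,
      Nat.div_pos (Nat.le_of_dvd hx0 (Nat.gcd_dvd_right _ _)) hg⟩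
  refine Finset.card_le_card_of_injOn (fun x => (d / Nat.gcd d x, x / Nat.gcd d x)) ?_ ?_
  · intro x hx
    rw [Finset.mem_coe] at hx
    obtain ⟨hx0, hg, e1, e2, hu, hv⟩ := hfact x hx
    obtain ⟨h1, h2, h3⟩ := hG x hx
    rw [Finset.mem_coe, Finset.mem_filter, Finset.mem_product, Nat.mem_divisors, Nat.mem_divisors]
    refine ⟨⟨⟨Nat.div_dvd_of_dvd (Nat.gcd_dvd_left _ _), hd0.ne'⟩, ?_, ?_⟩, ?_, ?_⟩
    · show x / Nat.gcd d x ∣ n / d
      obtain ⟨e, rfl⟩ := hd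
      rw [Nat.mul_div_cancel_left _ hd0]
      have hcop : Nat.Coprime (x / Nat.gcd d x) (d / Nat.gcd d x) := by
        rw [Nat.coprime_comm]
        exact Nat.coprime_div_gcd_div_gcd hg
      refine hcop.dvd_of_dvd_mul_left ?_
      have h4 : Nat.gcd d x * (x / Nat.gcd d x) ∣ Nat.gcd d x * ((d / Nat.gcd d x) * e) := by
        rw [e2, ← mul_assoc, e1]
        exact h1
      exact Nat.dvd_of_mul_dvd_mul_left hg h4
    · exact (Nat.div_pos (Nat.le_of_dvd hn0 hd) hd0).ne'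
    · refine hlog _ _ hu hv (Nat.le_of_mul_le_mul_left ?_ hg)
      calc Nat.gcd d x * (d / Nat.gcd d x) = d := e1
        _ ≤ 2 ^ k * x := h3
        _ = Nat.gcd d x * (2 ^ k * (x / Nat.gcd d x)) := by
            conv_lhs => rw [← e2]
            ring
    · refine hlog _ _ hv hu (Nat.le_of_mul_le_mul_left ?_ hg)
      calc Nat.gcd d x * (x / Nat.gcd d x) = x := e2
        _ ≤ 2 ^ k * d := h2
        _ = Nat.gcd d x * (2 ^ k * (d / Nat.gcd d x)) := by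
            conv_lhs => rw [← e1]
            ring
  · intro x hx y hy heq
    rw [Finset.mem_coe] at hx hy
    obtain ⟨hx0, hg, e1, e2, hu, hv⟩ := hfact x hx
    obtain ⟨hy0, hg', e1', e2', hu', hv'⟩ := hfact y hy
    have h1 : d / Nat.gcd d x = d / Nat.gcd d y := congrArg Prod.fst heq
    have h2 : x / Nat.gcd d x = y / Nat.gcd d y := congrArg Prod.snd heq
    have h3 : Nat.gcd d x = Nat.gcd d y := by
      rw [h1] at e1
      exact Nat.eq_of_mul_eq_mul_right hu' (e1.trans e1'.symm)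
    rw [← e2, ← e2', h2, h3]

/-- the number of close pairs -/
theorem near_card (d e k : ℕ) :
    ((((d.divisors ×ˢ e.divisors).filter (fun z =>
      Nat.log 2 z.1 ≤ Nat.log 2 z.2 + k ∧ Nat.log 2 z.2 ≤ Nat.log 2 z.1 + k)).card : ℕ) : ℝ) ≤
      (2 * k + 1) / 2 * ((TT d : ℝ) + TT e) := by
  have h1 : ((((d.divisors ×ˢ e.divisors).filter (fun z =>
      Nat.log 2 z.1 ≤ Nat.log 2 z.2 + k ∧ Nat.log 2 z.2 ≤ Nat.log 2 z.1 + k)).card : ℕ) : ℝ) =
      ∑ x ∈ d.divisors, ∑ y ∈ e.divisors, (if Nat.log 2 x ≤ Nat.log 2 y + k ∧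
        Nat.log 2 y ≤ Nat.log 2 x + k then (1 : ℝ) * 1 else 0) := by
    rw [← Finset.sum_product', ← Finset.sum_filter, Finset.sum_const, nsmul_eq_mul, mul_one,
      mul_one]
  rw [h1]
  set J : ℕ := max (Nat.log 2 d) (Nat.log 2 e) + 1 with hJ
  have hA : ∀ x ∈ d.divisors, Nat.log 2 x < J := by
    intro x hx
    have := Nat.log_mono_right (b := 2) (Nat.divisor_le hx)
    have := le_max_left (Nat.log 2 d) (Nat.log 2 e)
    omega
  have hB : ∀ x ∈ e.divisors, Nat.log 2 x < J := by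
    intro x hx
    have := Nat.log_mono_right (b := 2) (Nat.divisor_le hx)
    have := le_max_right (Nat.log 2 d) (Nat.log 2 e)
    omega
  refine (cell_am d.divisors e.divisors (fun _ => 1) (fun _ => 1) (Nat.log 2) (Nat.log 2) J k
    hA hB).trans (mul_le_mul_of_nonneg_left ?_ (by positivity))
  exact add_le_add (sum_sq_le_TT d J) (sum_sq_le_TT e J)

/-- the number of typical near divisors, squared -/
theorem sq_near (n k : ℕ) (hn : n ≠ 0) (G : Finset ℕ)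
    (hG : ∀ d ∈ G, d ∣ n) (hk : ∀ d ∈ G, ∀ x ∈ G, x ≤ 2 ^ k * d) :
    ((G.card : ℕ) : ℝ) ^ 2 ≤
      (2 * k + 1) / 2 * (∑ d ∈ G, (TT d : ℝ) + ∑ d ∈ G, (TT (n / d) : ℝ)) := by
  rw [← Finset.sum_add_distrib, Finset.mul_sum, sq]
  calc ((G.card : ℕ) : ℝ) * (G.card : ℕ) = ∑ _d ∈ G, ((G.card : ℕ) : ℝ) := by
        rw [Finset.sum_const, nsmul_eq_mul]
    _ ≤ _ := by
        refine Finset.sum_le_sum fun d hd => ?_
        have h1 := card_near n d k hn (hG d hd) G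
          (fun x hx => ⟨hG x hx, hk d hd x hx, hk x hx d hd⟩)
        exact (Nat.cast_le.2 h1).trans (near_card d (n / d) k)

/-- Cauchy and Schwarz -/
theorem cs64 (S T : Finset ℕ) (n : ℕ → ℕ) (hT : ∀ t ∈ S, n t ≠ 0 → t ∈ T) {M : ℝ}
    (hM : ∑ t ∈ S, (n t : ℝ) ^ 2 ≤ M) : (∑ t ∈ S, (n t : ℝ)) ^ 2 ≤ T.card * M := by
  classical
  have h1 : ∑ t ∈ S, (n t : ℝ) = ∑ t ∈ S.filter (fun t => t ∈ T), (n t : ℝ) := by
    rw [Finset.sum_filter]
    refine Finset.sum_congr rfl fun t ht => ?_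
    split_ifs with h0
    · rfl
    · have h2 : n t = 0 := by
        by_contra h3
        exact h0 (hT t ht h3)
      rw [h2, Nat.cast_zero]
  have h2 : (S.filter (fun t => t ∈ T)).card ≤ T.card :=
    Finset.card_le_card fun t ht => (Finset.mem_filter.1 ht).2
  have h3 : ∑ t ∈ S.filter (fun t => t ∈ T), (n t : ℝ) ^ 2 ≤ M :=
    (Finset.sum_le_sum_of_subset_of_nonneg (Finset.filter_subset _ _)
      (fun _ _ _ => sq_nonneg _)).trans hM
  rw [h1]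
  refine sq_sum_le_card_mul_sum_sq.trans (mul_le_mul (Nat.cast_le.2 h2) h3
    (Finset.sum_nonneg fun _ _ => sq_nonneg _) (Nat.cast_nonneg _))

open Classical in
/-- **The unweighted corollary, exponent `log 2 + ε`.** -/
theorem unw64 (a b c : ℤ) (ha : 0 < a) (hsq : ¬ IsSquare (b ^ 2 - 4 * a * c))
    [NeZero (b ^ 2 - 4 * a * c)] (hk : kro (b ^ 2 - 4 * a * c) ≠ 1) (h t₀ : ℕ) (α β : ℝ)
    (hα : 0 < α) (hαβ : α < β) (P : ℕ → ℕ → Prop) {η : ℝ} (hη : 0 < η)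
    (hpair : ∀ᶠ N : ℕ in atTop, η * N ≤ pairCount a b c h t₀ α β P N) {ε : ℝ} (hε : 0 < ε) :
    ∀ᶠ N : ℕ in atTop, (N : ℝ) / Real.log N ^ (Real.log 2 + ε) ≤
      (((Finset.Icc 1 N).filter (fun t : ℕ => t ≡ t₀ [MOD h] ∧ ∃ d : ℕ,
        (d : ℤ) ∣ a * (t : ℤ) ^ 2 + b * t + c ∧ α * t ≤ d ∧ d ≤ β * t ∧ P t d)).card : ℝ) := by
  have hβ : 0 < β := hα.trans hαβ
  have haR : (0 : ℝ) < a := by exact_mod_cast ha
  have hf0 : ∀ t : ℕ, a * (t : ℤ) ^ 2 + b * t + c ≠ 0 := by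
    intro t ht
    apply hsq
    refine ⟨2 * a * t + b, ?_⟩
    linear_combination (-4 * a) * ht
  -- size of the values
  set F : ℝ := |(a : ℝ)| + |(b : ℝ)| + |(c : ℝ)| with hF
  have hF0 : 0 < F := by
    have : 0 < |(a : ℝ)| := abs_pos.2 haR.ne'
    have := abs_nonneg (b : ℝ)
    have := abs_nonneg (c : ℝ)
    linarith
  have hup : ∀ t : ℕ, 1 ≤ t → (((a * (t : ℤ) ^ 2 + b * t + c).natAbs : ℕ) : ℝ) ≤ F * t ^ 2 := by
    intro t ht
    have htR : (1 : ℝ) ≤ t := by exact_mod_cast ht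
    rw [Nat.cast_natAbs]
    push_cast
    exact unw_up52 _ _ _ htR
  obtain ⟨t1, ht1⟩ : ∃ t1 : ℕ, ∀ t : ℕ, t1 ≤ t →
      (a : ℝ) / 2 * t ^ 2 ≤ (((a * (t : ℤ) ^ 2 + b * t + c).natAbs : ℕ) : ℝ) := by
    refine ⟨⌈2 * (|(b : ℝ)| + |(c : ℝ)|) / a⌉₊ + 1, fun t ht => ?_⟩
    have h1 : 2 * (|(b : ℝ)| + |(c : ℝ)|) / a ≤ t := by
      refine (Nat.le_ceil _).trans ?_
      exact_mod_cast (by omega : ⌈2 * (|(b : ℝ)| + |(c : ℝ)|) / a⌉₊ ≤ t)
    have htR : (1 : ℝ) ≤ t := by exact_mod_cast (by omega : 1 ≤ t)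
    rw [div_le_iff₀ haR] at h1
    rw [Nat.cast_natAbs]
    push_cast
    exact unw_low52 htR h1
  set K1 : ℕ := ⌈1 / α⌉₊ with hK1
  set K2 : ℕ := ⌈2 * β / a⌉₊ with hK2
  obtain ⟨k, hk0⟩ : ∃ k : ℕ, β / α < 2 ^ k := pow_unbounded_of_one_lt _ (by norm_num)
  have hbad1 := bad_small64 a b c ha.ne' hk K1 β hβ (by positivity : 0 < ε / 4)
    (by positivity : 0 < η / 4)
  have hbad2 := bad_small64 a b c ha.ne' hk K2 (F / α) (by positivity) (by positivity : 0 < ε / 4)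
    (by positivity : 0 < η / 4)
  obtain ⟨C1, hC1, hgood1⟩ := good_up64 a b c ha.ne' hk K1 β hβ
  obtain ⟨C2, hC2, hgood2⟩ := good_up64 a b c ha.ne' hk K2 (F / α) (by positivity)
  have hloglim : Tendsto (fun N : ℕ => Real.log (N : ℝ)) atTop atTop :=
    Real.tendsto_log_atTop.comp tendsto_natCast_atTop_atTop
  set C3 : ℝ := (2 * (k : ℝ) + 1) / 2 * (C1 + C2) with hC3
  have hC30 : 0 < C3 := by positivity
  have hslow : ∀ᶠ N : ℕ in atTop, C3 * (16 / η ^ 2) * (1 + Real.log (4 * Real.log (N : ℝ))) ≤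
      Real.log (N : ℝ) ^ (3 * ε / 4) :=
    unw_slow52 _ (by positivity)
  have hconst : ∀ᶠ N : ℕ in atTop, (t1 : ℝ) * ⌊β * t1⌋₊ ≤ η / 4 * N := by
    have h1 : Tendsto (fun N : ℕ => η / 4 * (N : ℝ)) atTop atTop :=
      tendsto_natCast_atTop_atTop.const_mul_atTop (by positivity)
    exact h1.eventually_ge_atTop _
  filter_upwards [hpair, hbad1, hbad2, hgood1, hgood2, hconst, hslow,
    hloglim.eventually_ge_atTop 1, eventually_ge_atTop 1] with N hNp hN1 hN2 hNg1 hNg2 hNc hNslow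
      hNlog hNone
  have hL0 : 0 < Real.log (N : ℝ) := lt_of_lt_of_le one_pos (by assumption)
  have hN0 : (0 : ℝ) < N := by exact_mod_cast hNone
  set Z : ℝ := Real.log N ^ (Real.log 2 + ε / 4) with hZ
  have hZ0 : 0 < Z := Real.rpow_pos_of_pos hL0 _
  set LL : ℝ := 1 + Real.log (4 * Real.log (N : ℝ)) with hLL
  set T0 : Finset ℕ := (Finset.Icc 1 N).filter (fun t => t ≡ t₀ [MOD h]) with hT0
  set Tset : Finset ℕ := T0.filter (fun t => t1 ≤ t) with hTset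
  have hTmem : ∀ t ∈ Tset, 1 ≤ t ∧ t ≤ N ∧ t ≡ t₀ [MOD h] ∧ t1 ≤ t := by
    intro t ht
    rw [hTset, hT0, Finset.mem_filter, Finset.mem_filter, Finset.mem_Icc] at ht
    exact ⟨ht.1.1.1, ht.1.1.2, ht.1.2, ht.2⟩
  have hTsub : Tset ⊆ Finset.Icc 1 N := fun t ht =>
    Finset.mem_Icc.2 ⟨(hTmem t ht).1, (hTmem t ht).2.1⟩
  -- divisors
  set Dt : ℕ → Finset ℕ := fun t => (Finset.Icc 1 ⌊β * t⌋₊).filter (fun d : ℕ =>
    (d : ℤ) ∣ a * (t : ℤ) ^ 2 + b * t + c ∧ α * t ≤ d ∧ d ≤ β * t ∧ P t d) with hDt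
  set ft : ℕ → ℕ := fun t => (a * (t : ℤ) ^ 2 + b * t + c).natAbs with hft
  have hft0 : ∀ t, ft t ≠ 0 := fun t => Int.natAbs_ne_zero.2 (hf0 t)
  have hncard : ∀ t : ℕ, 1 ≤ t → Set.ncard {d : ℕ | (d : ℤ) ∣ a * (t : ℤ) ^ 2 + b * t + c ∧
      α * t ≤ d ∧ d ≤ β * t ∧ P t d} = (Dt t).card := by
    intro t ht
    rw [← Set.ncard_coe_finset]
    congr 1
    ext d
    rw [Finset.mem_coe, Finset.mem_filter, Finset.mem_Icc]
    refine ⟨fun hd => ⟨⟨?_, Nat.le_floor hd.2.2.1⟩, hd⟩, fun hd => hd.2⟩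
    have htR : (0 : ℝ) < t := by exact_mod_cast ht
    have h1 : (0 : ℝ) < d := lt_of_lt_of_le (mul_pos hα htR) hd.2.1
    exact_mod_cast h1
  have hpc : (pairCount a b c h t₀ α β P N : ℝ) ≤
      ∑ t ∈ Tset, ((Dt t).card : ℝ) + η / 4 * N := by
    have h1 : (pairCount a b c h t₀ α β P N : ℝ) = ∑ t ∈ T0, ((Dt t).card : ℝ) := by
      unfold pairCount
      rw [Nat.cast_sum]
      refine Finset.sum_congr rfl fun t ht => ?_
      rw [Finset.mem_filter, Finset.mem_Icc] at ht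
      rw [hncard t ht.1.1]
    rw [h1, ← Finset.sum_filter_add_sum_filter_not T0 (fun t => t1 ≤ t)]
    refine add_le_add le_rfl (le_trans ?_ hNc)
    calc ∑ t ∈ T0.filter (fun t => ¬ t1 ≤ t), ((Dt t).card : ℝ)
        ≤ ∑ _t ∈ T0.filter (fun t => ¬ t1 ≤ t), (⌊β * t1⌋₊ : ℝ) := by
          refine Finset.sum_le_sum fun t ht => ?_
          rw [Finset.mem_filter, not_le] at ht
          have h2 : (Dt t).card ≤ ⌊β * t1⌋₊ := by
            calc (Dt t).card ≤ (Finset.Icc 1 ⌊β * t⌋₊).card := Finset.card_filter_le _ _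
              _ = ⌊β * t⌋₊ := by rw [Nat.card_Icc]; omega
              _ ≤ ⌊β * t1⌋₊ := Nat.floor_mono (by
                  have : (t : ℝ) ≤ t1 := by exact_mod_cast ht.2.le
                  gcongr)
          exact_mod_cast h2
      _ = ((T0.filter (fun t => ¬ t1 ≤ t)).card : ℝ) * ⌊β * t1⌋₊ := by
          rw [Finset.sum_const, nsmul_eq_mul]
      _ ≤ (t1 : ℝ) * ⌊β * t1⌋₊ := by
          refine mul_le_mul_of_nonneg_right ?_ (Nat.cast_nonneg _)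
          have h2 : T0.filter (fun t => ¬ t1 ≤ t) ⊆ Finset.range t1 := by
            intro t ht
            rw [Finset.mem_filter, not_le] at ht
            exact Finset.mem_range.2 ht.2
          have h3 := Finset.card_le_card h2
          rw [Finset.card_range] at h3
          exact_mod_cast h3
  -- the parts
  set G : ℕ → Finset ℕ := fun t => (Dt t).filter (fun d =>
    (2 : ℝ) ^ (ArithmeticFunction.cardFactors d) ≤ Z ∧
    (2 : ℝ) ^ (ArithmeticFunction.cardFactors (ft t / d)) ≤ Z) with hG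
  set B1 : ℕ → Finset ℕ := fun t => (Dt t).filter (fun d =>
    Z < (2 : ℝ) ^ (ArithmeticFunction.cardFactors d)) with hB1
  set B2 : ℕ → Finset ℕ := fun t => (Dt t).filter (fun d =>
    Z < (2 : ℝ) ^ (ArithmeticFunction.cardFactors (ft t / d))) with hB2
  have hsplit : ∀ t, ((Dt t).card : ℝ) ≤ (G t).card + (B1 t).card + (B2 t).card := by
    intro t
    have h1 : Dt t ⊆ (G t ∪ B1 t) ∪ B2 t := by
      intro d hd
      rw [Finset.mem_union, Finset.mem_union]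
      by_cases h2 : Z < (2 : ℝ) ^ (ArithmeticFunction.cardFactors d)
      · exact Or.inl (Or.inr (Finset.mem_filter.2 ⟨hd, h2⟩))
      by_cases h3 : Z < (2 : ℝ) ^ (ArithmeticFunction.cardFactors (ft t / d))
      · exact Or.inr (Finset.mem_filter.2 ⟨hd, h3⟩)
      · exact Or.inl (Or.inl (Finset.mem_filter.2 ⟨hd, not_lt.1 h2, not_lt.1 h3⟩))
    have h2 := (Finset.card_le_card h1).trans (Finset.card_union_le _ _)
    have h3 := Finset.card_union_le (G t) (B1 t)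
    have h4 : (Dt t).card ≤ (G t).card + (B1 t).card + (B2 t).card := by omega
    exact_mod_cast h4
  have hmemD : ∀ t d, d ∈ Dt t → (1 ≤ d ∧ d ∣ ft t ∧ α * t ≤ d ∧ (d : ℝ) ≤ β * t) := by
    intro t d hd
    rw [hDt, Finset.mem_filter, Finset.mem_Icc] at hd
    exact ⟨hd.1.1, Int.natCast_dvd.1 hd.2.1, hd.2.2.1, hd.2.2.2.1⟩
  -- the two ranges
  set E1 : ℕ → Finset ℕ := fun t => (Finset.Icc 1 ⌊β * N⌋₊).filter (fun d : ℕ =>
    (d : ℤ) ∣ a * (t : ℤ) ^ 2 + b * t + c ∧ t ≤ K1 * d) with hE1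
  set E2 : ℕ → Finset ℕ := fun t => (Finset.Icc 1 ⌊F / α * N⌋₊).filter (fun d : ℕ =>
    (d : ℤ) ∣ a * (t : ℤ) ^ 2 + b * t + c ∧ t ≤ K2 * d) with hE2
  have hto1 : ∀ t ∈ Tset, ∀ d ∈ Dt t, d ∈ E1 t := by
    intro t ht d hd
    obtain ⟨ht1', ht2, ht3, ht4⟩ := hTmem t ht
    have htR : (t : ℝ) ≤ N := by exact_mod_cast ht2
    obtain ⟨hd1, hd2, hd3, hd4⟩ := hmemD t d hd
    rw [hE1, Finset.mem_filter, Finset.mem_Icc]
    refine ⟨⟨hd1, Nat.le_floor (hd4.trans (mul_le_mul_of_nonneg_left htR hβ.le))⟩,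
      Int.natCast_dvd.2 hd2, ?_⟩
    have h2 : (t : ℝ) ≤ K1 * d := unw_k1_52 hα (Nat.cast_nonneg t) hd3
    exact_mod_cast h2
  have hto2 : ∀ t ∈ Tset, ∀ d ∈ Dt t, ft t / d ∈ E2 t := by
    intro t ht d hd
    obtain ⟨ht1', ht2, ht3, ht4⟩ := hTmem t ht
    have htR : (1 : ℝ) ≤ t := by exact_mod_cast ht1'
    have htN : (t : ℝ) ≤ N := by exact_mod_cast ht2
    obtain ⟨hd1, hd2, hd3, hd4⟩ := hmemD t d hd
    have hdR : (0 : ℝ) < d := by exact_mod_cast hd1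
    have hcast : ((ft t / d : ℕ) : ℝ) = (ft t : ℝ) / d := Nat.cast_div hd2 hdR.ne'
    have he1 : 1 ≤ ft t / d := Nat.div_pos (Nat.le_of_dvd (Nat.pos_of_ne_zero (hft0 t)) hd2) hd1
    rw [hE2, Finset.mem_filter, Finset.mem_Icc]
    refine ⟨⟨he1, Nat.le_floor ?_⟩, Int.natCast_dvd.2 (Nat.div_dvd_of_dvd hd2), ?_⟩
    · rw [hcast]
      exact unw_k2_52 hα hF0 (Nat.cast_nonneg t) htN hdR hd3 (hup t ht1')
    · have h4 : (t : ℝ) ≤ K2 * ((ft t / d : ℕ) : ℝ) := by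
        rw [hcast]
        exact unw_k3_52 haR hβ (Nat.cast_nonneg t) hdR hd4 (ht1 t ht4)
      exact_mod_cast h4
  have hinj : ∀ t, ∀ d ∈ Dt t, ∀ e ∈ Dt t, ft t / d = ft t / e → d = e := by
    intro t d hd e he heq
    obtain ⟨hd1, hd2, -, -⟩ := hmemD t d hd
    obtain ⟨he1, he2, -, -⟩ := hmemD t e he
    have h4 : 0 < ft t / d := Nat.div_pos (Nat.le_of_dvd (Nat.pos_of_ne_zero (hft0 t)) hd2) hd1
    have h5 := Nat.mul_div_cancel' hd2
    have h6 := Nat.mul_div_cancel' he2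
    rw [← heq] at h6
    exact Nat.eq_of_mul_eq_mul_right h4 (h5.trans h6.symm)
  -- first bad part
  have hsum1 : ∑ t ∈ Tset, ((B1 t).card : ℝ) ≤ η / 4 * N := by
    refine le_trans (le_trans (Finset.sum_le_sum fun t ht => ?_)
      (Finset.sum_le_sum_of_subset_of_nonneg hTsub (fun _ _ _ => Nat.cast_nonneg _))) hN1
    have h1 : B1 t ⊆ (Finset.Icc 1 ⌊β * N⌋₊).filter (fun d : ℕ =>
        ((d : ℤ) ∣ a * (t : ℤ) ^ 2 + b * t + c ∧ t ≤ K1 * d) ∧
          Z < (2 : ℝ) ^ (ArithmeticFunction.cardFactors d)) := by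
      intro d hd
      rw [hB1, Finset.mem_filter] at hd
      have h2 := hto1 t ht d hd.1
      rw [hE1, Finset.mem_filter] at h2
      exact Finset.mem_filter.2 ⟨h2.1, h2.2, hd.2⟩
    exact_mod_cast Finset.card_le_card h1
  -- second bad part
  have hsum2 : ∑ t ∈ Tset, ((B2 t).card : ℝ) ≤ η / 4 * N := by
    refine le_trans (le_trans (Finset.sum_le_sum fun t ht => ?_)
      (Finset.sum_le_sum_of_subset_of_nonneg hTsub (fun _ _ _ => Nat.cast_nonneg _))) hN2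
    have h1 : (B2 t).card ≤ ((Finset.Icc 1 ⌊F / α * N⌋₊).filter (fun d : ℕ =>
        ((d : ℤ) ∣ a * (t : ℤ) ^ 2 + b * t + c ∧ t ≤ K2 * d) ∧
          Z < (2 : ℝ) ^ (ArithmeticFunction.cardFactors d))).card := by
      refine Finset.card_le_card_of_injOn (fun d => ft t / d) ?_ ?_
      · intro d hd
        rw [Finset.mem_coe, hB2, Finset.mem_filter] at hd
        have h2 := hto2 t ht d hd.1
        rw [hE2, Finset.mem_filter] at h2
        rw [Finset.mem_coe, Finset.mem_filter]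
        exact ⟨h2.1, h2.2, hd.2⟩
      · intro d hd e he heq
        rw [Finset.mem_coe, hB2, Finset.mem_filter] at hd he
        exact hinj t d hd.1 e he.1 heq
    exact_mod_cast h1
  -- second moment
  have hmom1 : ∑ t ∈ Tset, ∑ d ∈ G t, (TT d : ℝ) ≤ C1 * Z * N * LL := by
    refine le_trans (le_trans (Finset.sum_le_sum fun t ht => ?_)
      (Finset.sum_le_sum_of_subset_of_nonneg hTsub
        (fun _ _ _ => Finset.sum_nonneg fun _ _ => Nat.cast_nonneg _))) (hNg1 Z hZ0)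
    refine Finset.sum_le_sum_of_subset_of_nonneg ?_ (fun _ _ _ => Nat.cast_nonneg _)
    intro d hd
    rw [Finset.mem_filter] at hd
    have h2 := hto1 t ht d hd.1
    rw [hE1, Finset.mem_filter] at h2
    exact Finset.mem_filter.2 ⟨h2.1, h2.2, hd.2.1⟩
  have hmom2 : ∑ t ∈ Tset, ∑ d ∈ G t, (TT (ft t / d) : ℝ) ≤ C2 * Z * N * LL := by
    refine le_trans (le_trans (Finset.sum_le_sum fun t ht => ?_)
      (Finset.sum_le_sum_of_subset_of_nonneg hTsub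
        (fun _ _ _ => Finset.sum_nonneg fun _ _ => Nat.cast_nonneg _))) (hNg2 Z hZ0)
    rw [← Finset.sum_image (f := fun e => (TT e : ℝ)) (g := fun d => ft t / d)
      (fun d hd e he heq => hinj t d (Finset.mem_filter.1 hd).1 e (Finset.mem_filter.1 he).1 heq)]
    refine Finset.sum_le_sum_of_subset_of_nonneg ?_ (fun _ _ _ => Nat.cast_nonneg _)
    intro e he
    rw [Finset.mem_image] at he
    obtain ⟨d, hd, rfl⟩ := he
    rw [Finset.mem_filter] at hd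
    have h2 := hto2 t ht d hd.1
    rw [hE2, Finset.mem_filter] at h2
    exact Finset.mem_filter.2 ⟨h2.1, h2.2, hd.2.2⟩
  have hsqt : ∀ t ∈ Tset, ((G t).card : ℝ) ^ 2 ≤ (2 * k + 1) / 2 *
      (∑ d ∈ G t, (TT d : ℝ) + ∑ d ∈ G t, (TT (ft t / d) : ℝ)) := by
    intro t ht
    refine sq_near (ft t) k (hft0 t) (G t) ?_ ?_
    · intro d hd
      exact (hmemD t d (Finset.mem_filter.1 hd).1).2.1
    · intro d hd x hx
      obtain ⟨-, -, hd3, -⟩ := hmemD t d (Finset.mem_filter.1 hd).1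
      obtain ⟨-, -, -, hx4⟩ := hmemD t x (Finset.mem_filter.1 hx).1
      have h2 : (x : ℝ) ≤ 2 ^ k * d := unw_k4_52 hα hk0 (Nat.cast_nonneg t) hd3 hx4
      exact_mod_cast h2
  have hmom : ∑ t ∈ Tset, ((G t).card : ℝ) ^ 2 ≤ C3 * Z * N * LL := by
    have h1 : ∑ t ∈ Tset, ((G t).card : ℝ) ^ 2 ≤ (2 * (k : ℝ) + 1) / 2 *
        (∑ t ∈ Tset, ∑ d ∈ G t, (TT d : ℝ) + ∑ t ∈ Tset, ∑ d ∈ G t, (TT (ft t / d) : ℝ)) := by
      rw [← Finset.sum_add_distrib, Finset.mul_sum]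
      exact Finset.sum_le_sum hsqt
    exact unw_mom52 (by positivity) hC3 h1 hmom1 hmom2 rfl rfl
  -- the good part
  set T : Finset ℕ := (Finset.Icc 1 N).filter (fun t : ℕ => t ≡ t₀ [MOD h] ∧ ∃ d : ℕ,
    (d : ℤ) ∣ a * (t : ℤ) ^ 2 + b * t + c ∧ α * t ≤ d ∧ d ≤ β * t ∧ P t d) with hT
  have hT'T : ∀ t ∈ Tset, (G t).card ≠ 0 → t ∈ T := by
    intro t ht hne
    obtain ⟨d, hd⟩ := Finset.card_ne_zero.1 hne
    obtain ⟨h1, h2, h3, -⟩ := hTmem t ht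
    have hdD := (Finset.mem_filter.1 hd).1
    rw [hDt, Finset.mem_filter] at hdD
    rw [hT, Finset.mem_filter, Finset.mem_Icc]
    exact ⟨⟨h1, h2⟩, h3, d, hdD.2⟩
  have hCS : (∑ t ∈ Tset, ((G t).card : ℝ)) ^ 2 ≤ T.card * (C3 * Z * N * LL) :=
    cs64 Tset T (fun t => (G t).card) hT'T hmom
  have hlow : η / 4 * N ≤ ∑ t ∈ Tset, ((G t).card : ℝ) := by
    refine unw_low4_52 (hNp.trans hpc) ?_ hsum1 hsum2
    rw [← Finset.sum_add_distrib, ← Finset.sum_add_distrib]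
    exact Finset.sum_le_sum fun t _ => hsplit t
  have hsplitpow : Real.log (N : ℝ) ^ (Real.log 2 + ε) = Z * Real.log N ^ (3 * ε / 4) := by
    rw [hZ, ← Real.rpow_add hL0]
    congr 1
    ring
  rw [hsplitpow]
  exact unw_fin52 hη hN0 hZ0 (Nat.cast_nonneg _) hlow hCS (Real.rpow_pos_of_pos hL0 _) hNslow

end Pool.Agent.Lib.MP_a17b09_nt.UW.U64
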