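import Pool.Agent.Lib.MP_a17b09_nt.UW.Unw3

/-!
MP_a17b09_nt, unweighted corollary (helper3), negative discriminants, without hypotheses on the
character.
-/

set_option autoImplicit false

open Filter Topology Finset

namespace Pool.Agent.Lib.MP_a17b09_nt.UW

open Pool.Agent.Lib.MP_a17b09_nt.MRSG.NugA12 (kro kro_ne)
open Pool.Agent.Lib.MP_a17b09_nt.CH (pairCount)

open Classical in
theorem unw_neg (a b c : ℤ) (ha : 0 < a) (hD : b ^ 2 - 4 * a * c < 0) (h t₀ : ℕ) (α β : ℝ)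
    (hα : 0 < α) (hαβ : α < β) (P : ℕ → ℕ → Prop) {η : ℝ} (hη : 0 < η)
    (hpair : ∀ᶠ N : ℕ in atTop, η * N ≤ pairCount a b c h t₀ α β P N) {ε : ℝ} (hε : 0 < ε) :
    ∀ᶠ N : ℕ in atTop, (N : ℝ) / Real.log N ^ (2 * Real.log 2 + ε) ≤
      (((Finset.Icc 1 N).filter (fun t : ℕ => t ≡ t₀ [MOD h] ∧ ∃ d : ℕ,
        (d : ℤ) ∣ a * (t : ℤ) ^ 2 + b * t + c ∧ α * t ≤ d ∧ d ≤ β * t ∧ P t d)).card : ℝ) := by
  have hsq : ¬ IsSquare (b ^ 2 - 4 * a * c) := by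
    rintro ⟨x, hx⟩
    nlinarith [mul_self_nonneg x]
  haveI : NeZero (b ^ 2 - 4 * a * c) := ⟨hD.ne⟩
  have hk : kro (b ^ 2 - 4 * a * c) ≠ 1 := by
    obtain ⟨d, hd⟩ := Int.eq_ofNat_of_zero_le (by linarith : 0 ≤ -(b ^ 2 - 4 * a * c))
    refine kro_ne d ?_ _ (by linarith)
    have : (0 : ℤ) < (d : ℤ) := by linarith
    exact_mod_cast this
  exact unw a b c ha hsq hk h t₀ α β hα hαβ P hη hpair hε

open Classical in
/-- property of `t` alone -/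
theorem unw_prop (a b c : ℤ) (ha : 0 < a) (hD : b ^ 2 - 4 * a * c < 0) (h t₀ : ℕ) (α β : ℝ)
    (hα : 0 < α) (hαβ : α < β) (Q : ℕ → Prop) {η : ℝ} (hη : 0 < η)
    (hpair : ∀ᶠ N : ℕ in atTop, η * N ≤ pairCount a b c h t₀ α β (fun t _ => Q t) N) {ε : ℝ}
    (hε : 0 < ε) :
    ∀ᶠ N : ℕ in atTop, (N : ℝ) / Real.log N ^ (2 * Real.log 2 + ε) ≤
      (((Finset.Icc 1 N).filter (fun t : ℕ => t ≡ t₀ [MOD h] ∧ Q t)).card : ℝ) := by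
  filter_upwards [unw_neg a b c ha hD h t₀ α β hα hαβ (fun t _ => Q t) hη hpair hε] with N hN
  refine hN.trans ?_
  have h1 : (Finset.Icc 1 N).filter (fun t : ℕ => t ≡ t₀ [MOD h] ∧ ∃ d : ℕ,
      (d : ℤ) ∣ a * (t : ℤ) ^ 2 + b * t + c ∧ α * t ≤ d ∧ d ≤ β * t ∧ Q t) ⊆
      (Finset.Icc 1 N).filter (fun t : ℕ => t ≡ t₀ [MOD h] ∧ Q t) := by
    intro t ht
    rw [Finset.mem_filter] at ht ⊢
    obtain ⟨h1, h2, d, h3⟩ := ht
    exact ⟨h1, h2, h3.2.2.2⟩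
  exact_mod_cast Finset.card_le_card h1

open Classical in
/-- exponent `1.4` -/
theorem unw75 (a b c : ℤ) (ha : 0 < a) (hD : b ^ 2 - 4 * a * c < 0) (h t₀ : ℕ) (α β : ℝ)
    (hα : 0 < α) (hαβ : α < β) (Q : ℕ → Prop) {η : ℝ} (hη : 0 < η)
    (hpair : ∀ᶠ N : ℕ in atTop, η * N ≤ pairCount a b c h t₀ α β (fun t _ => Q t) N) :
    ∀ᶠ N : ℕ in atTop, (N : ℝ) / Real.log N ^ (1.4 : ℝ) ≤
      (((Finset.Icc 1 N).filter (fun t : ℕ => t ≡ t₀ [MOD h] ∧ Q t)).card : ℝ) := by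
  have hε : 0 < (1.4 : ℝ) - 2 * Real.log 2 := by linarith [Real.log_two_lt_d9]
  have h1 := unw_prop a b c ha hD h t₀ α β hα hαβ Q hη hpair hε
  filter_upwards [h1] with N hN
  rwa [show 2 * Real.log 2 + ((1.4 : ℝ) - 2 * Real.log 2) = 1.4 by ring] at hN

end Pool.Agent.Lib.MP_a17b09_nt.UW
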